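import Pool.Agent.Helper83.HR.Geo
import Pool.Agent.Helper83.LN.MinLanes
import Pool.Agent.Helper83.LN.Geodesics
import Pool.Agent.Helper83.LN.Assemble

/-!
# Surgery with hubs, for a general node graph

`J` nodes, `I` arcs, `L` a layout, `Hb` a set of nodes which are met by routes only at their ends, with one terminal
in the block. The number of common nodes of two routes is counted outside `Hb`.
-/

namespace Pool.Agent.Helper83.HR

open Set Pool.Agent.Helper83.OP Pool.Agent.Helper83.LN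

open Classical in
/-- the bound for the number of crossings of the curves `τ` and `τ'`: common nodes outside `Hb` -/
noncomputable def multH {J I T : Type} {src tgt : I → J} (R : T → Rt J I src tgt) (Q : Set T)
    (Hb : Set J) (τ τ' : T) : ℕ :=
  if τ ∈ Q ∧ τ' ∈ Q then min 1 (common (R τ) (R τ') \ Hb).ncard
  else (common (R τ) (R τ') \ Hb).ncard

theorem rt_fin {J I : Type} {src tgt : I → J} (R : Rt J I src tgt) (R' : Rt J I src tgt) :
    (common R R').Finite := by
  refine Set.Finite.subset ((Set.finite_Iic R.len).image R.nd) ?_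
  rintro j ⟨⟨s, hs, h⟩, -⟩
  exact ⟨s, hs, h⟩

/-- the drawing along given routes, the routes in `Q` agree between common nodes -/
theorem drawH {J I U T : Type} [Finite J] [Finite I] [Finite U] [Finite T]
    {src tgt : I → J} (hst : ∀ i, src i ≠ tgt i) (L : Layout J I src tgt) (Hb : Set J)
    (pl : U → J) (a b : T → U) (hab : ∀ τ, a τ ≠ b τ) (Q : Set T)
    (h1 : ∀ u u', pl u ∈ Hb → pl u = pl u' → u = u') (R : T → Rt J I src tgt)
    (hF : ∀ τ, (R τ).From (pl (a τ)) (pl (b τ)))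
    (hH : ∀ τ, ∀ t ≤ (R τ).len, (R τ).nd t ∈ Hb → t = 0 ∨ t = (R τ).len)
    (hQ : ∀ τ ∈ Q, ∀ τ' ∈ Q, τ ≠ τ' → Conn (R τ) (R τ')) :
    ∃ (P : U → ℝ × ℝ) (E : T → Set (ℝ × ℝ)), Drw a b P E ∧
      ∀ τ τ', τ ≠ τ' → (Xs P E τ τ').encard ≤ (multH R Q Hb τ τ' : ℕ∞) := by
  classical
  obtain ⟨ν, hgeo⟩ := geo hst L pl a b hab (Nat.card T) Hb h1
  obtain ⟨lam, hlam, hmin⟩ := min_lanes R (Nat.card T) le_rfl ν Q hQ
  obtain ⟨P, E, hD, hX⟩ := hgeo R lam hF hH hlam
  refine ⟨P, E, hD, ?_⟩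
  intro τ τ' hne
  refine (hX τ τ' hne).trans ?_
  have hsub : {j | XJ R ν lam τ τ' j ∧ j ∉ Hb} ⊆ common (R τ) (R τ') \ Hb := by
    rintro j ⟨⟨s, hs, t, ht, h1, h2, -⟩, hj⟩
    exact ⟨⟨⟨s, hs, h1⟩, ⟨t, ht, h2⟩⟩, hj⟩
  have hfin : (common (R τ) (R τ') \ Hb).Finite := (rt_fin (R τ) (R τ')).subset Set.diff_subset
  have h1 : {j | XJ R ν lam τ τ' j ∧ j ∉ Hb}.encard ≤
      ((common (R τ) (R τ') \ Hb).ncard : ℕ∞) := by
    rw [hfin.cast_ncard_eq]
    exact Set.encard_le_encard hsub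
  unfold multH
  split_ifs with h
  · have h2 : {j | XJ R ν lam τ τ' j ∧ j ∉ Hb}.encard ≤ 1 := by
      refine Set.encard_le_one_iff_subsingleton.2 ?_
      exact (hmin τ h.1 τ' h.2 hne).anti (fun j hj => hj.1)
    rcases min_choice 1 (common (R τ) (R τ') \ Hb).ncard with h3 | h3
    · rw [h3]
      exact_mod_cast h2
    · rw [h3]
      exact h1
  · exact h1

open Classical in
/-- **Surgery with hubs.** There is a system `Gam` of geodesics for the cost `c` such that: let `Th` be a partition of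
a graph `G` into threads, `pl` the places of its vertices, `Q` the threads which are drawn along `Gam`, `R` the routes
of all threads. Hubs are met only at the ends of routes, and at most one vertex is placed at a hub. If for every thread
the number of common nodes outside `Hb` with the other threads (at most one for two threads of `Q`) is at most `K` times
its length, then `G` is `K`-planar. -/
theorem surgeryH {J I : Type} [Finite J] [Finite I] [Nonempty I] {src tgt : I → J}
    (hst : ∀ i, src i ≠ tgt i) (L : Layout J I src tgt) (c : I → ℕ) (Hb : Set J) :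
    ∃ Gam : J → J → Rt J I src tgt,
      (∀ j j', (∃ l, Wk src tgt j j' l) → (Gam j j').From j j' ∧ IsGeo c (Gam j j')) ∧
      ∀ (V T : Type) [Finite V] [Fintype T] (G : SimpleGraph V) (Th : Threads G T) (Q : Set T)
        (pl : V → J) (R : T → Rt J I src tgt),
        (∀ u u', pl u ∈ Hb → pl u = pl u' → u = u') →
        (∀ τ, (R τ).From (pl (Th.x τ 0)) (pl (Th.x τ (Th.len τ)))) →
        (∀ τ ∈ Q, R τ = Gam (pl (Th.x τ 0)) (pl (Th.x τ (Th.len τ)))) →
        (∀ τ, ∀ t ≤ (R τ).len, (R τ).nd t ∈ Hb → t = 0 ∨ t = (R τ).len) →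
        ∀ K : ℕ, (∀ τ, ∑ τ' : T, (if τ' = τ then 0 else multH R Q Hb τ τ') ≤ K * Th.len τ) →
          KPl K G := by
  obtain ⟨Gam, hG1, hG2⟩ := exists_geodesics (src := src) (tgt := tgt) c
  refine ⟨Gam, hG1, ?_⟩
  intro V T _ _ G Th Q pl R h1 hF hQ hH K hK
  have hab : ∀ τ, Th.x τ 0 ≠ Th.x τ (Th.len τ) := by
    intro τ h
    have h1 := Th.pos τ
    have := Th.inj τ 0 (Th.len τ) (Nat.zero_le _) le_rfl h
    omega
  have hwk : ∀ τ, ∃ l, Wk src tgt (pl (Th.x τ 0)) (pl (Th.x τ (Th.len τ))) l := by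
    intro τ
    obtain ⟨l, hl, -⟩ := rt_wk (R τ) (fun _ => 0) (Nat.zero_le _) le_rfl
    rw [(hF τ).1, (hF τ).2] at hl
    exact ⟨l, hl⟩
  obtain ⟨P, E, hD, hX⟩ := drawH hst L Hb pl (fun τ => Th.x τ 0) (fun τ => Th.x τ (Th.len τ))
    hab Q h1 R hF hH (by
      intro τ h τ' h' _
      rw [hQ τ h, hQ τ' h']
      exact hG2 _ _ _ _ (hwk τ) (hwk τ'))
  refine assemble G Th K P E hD ?_
  intro τ
  refine le_trans ?_ (Nat.cast_le.2 (hK τ))
  have h1 : {p : T × (ℝ × ℝ) | p.1 ≠ τ ∧ p.2 ∈ Xs P E τ p.1} =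
      ⋃ τ' ∈ (Finset.univ.filter fun τ' => τ' ≠ τ), (fun z => (τ', z)) '' Xs P E τ τ' := by
    ext ⟨τ', z⟩
    simp only [mem_setOf_eq, Finset.mem_filter, Finset.mem_univ, true_and, mem_iUnion,
      mem_image, Prod.mk.injEq, exists_prop]
    constructor
    · rintro ⟨h1, h2⟩
      exact ⟨τ', h1, z, h2, rfl, rfl⟩
    · rintro ⟨τ'', h1, z', h2, h3, h4⟩
      subst h3; subst h4
      exact ⟨h1, h2⟩
  rw [h1]
  have h2 : ∀ s : Finset T, τ ∉ s →
      (⋃ τ' ∈ s, (fun z => (τ', z)) '' Xs P E τ τ').encard ≤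
        ((∑ τ' ∈ s, (if τ' = τ then 0 else multH R Q Hb τ τ') : ℕ) : ℕ∞) := by
    intro s
    induction s using Finset.induction_on with
    | empty => intro _; simp
    | insert x s hx ih =>
      intro hs
      rw [Finset.mem_insert, not_or] at hs
      rw [Finset.set_biUnion_insert, Finset.sum_insert hx, Nat.cast_add]
      refine (Set.encard_union_le _ _).trans (add_le_add ?_ (ih hs.2))
      rw [if_neg (Ne.symm hs.1)]
      exact (Set.encard_image_le _ _).trans (hX τ x hs.1)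
  refine (h2 _ (by simp)).trans (Nat.cast_le.2 ?_)
  exact Finset.sum_le_sum_of_subset (Finset.filter_subset _ _)

end Pool.Agent.Helper83.HR
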