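import Pool.Agent.Helper83.HR.RingDraw
import Pool.Agent.Helper83.LN.Assemble
import Pool.Agent.Helper83.LN.OldRoute
import Pool.Agent.Helper83.OP.Planarize
import Pool.Agent.Helper83.OP.LayoutEx

/-!
# Rings about the hubs

`ringGraph H U ord`: every edge `ya` at a hub `a ∈ U` gets a new vertex, the door `(y, a)`, and consecutive doors (in
the order `ord a` of the neighbours of `a`) are adjacent. If `H` is 1-planar and no two hubs are adjacent then this
graph is 1-planar for a suitable order.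
-/

namespace Pool.Agent.Helper83.HR

open Set Pool.Agent.Helper83.OP Pool.Agent.Helper83.LN

section

variable {V : Type} (H : SimpleGraph V) (U : Set V) (ord : V → V → ℕ)

/-- adjacency in the ring graph -/
def rAdj : V ⊕ Dor H U → V ⊕ Dor H U → Prop
  | Sum.inl u, Sum.inl v => H.Adj u v ∧ u ∉ U ∧ v ∉ U
  | Sum.inl u, Sum.inr d => u = d.1.1 ∨ u = d.1.2
  | Sum.inr d, Sum.inl u => u = d.1.1 ∨ u = d.1.2
  | Sum.inr d, Sum.inr d' => Cons ord d d' ∨ Cons ord d' d

/-- the graph with doors and rings -/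
def ringGraph : SimpleGraph (V ⊕ Dor H U) where
  Adj := rAdj H U ord
  symm := ⟨by
    rintro (u | d) (v | d') h
    · exact ⟨h.1.symm, h.2.2, h.2.1⟩
    · exact h
    · exact h
    · exact h.symm⟩
  loopless := ⟨by
    rintro (u | d) h
    · exact H.ne_of_adj h.1 rfl
    · rcases h with h | h
      · have := h.2
        omega
      · have := h.2
        omega⟩

/-- the curves of the drawing -/
def TT : Type := H.edgeSet ⊕ Dor H U ⊕ {p : Dor H U × Dor H U // Cons ord p.1 p.2}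

variable {H U ord} (Z : Plz H)

/-- the ends of the curves -/
noncomputable def xx : TT H U ord → Bool → V ⊕ Dor H U
  | Sum.inl f, e => xe Z f e
  | Sum.inr (Sum.inl d), false => Sum.inl d.1.2
  | Sum.inr (Sum.inl d), true => Sum.inr d
  | Sum.inr (Sum.inr p), false => Sum.inr p.1.1
  | Sum.inr (Sum.inr p), true => Sum.inr p.1.2

/-- the vertex of `H` of a vertex of the ring graph -/
def bas : V ⊕ Dor H U → V
  | Sum.inl u => u
  | Sum.inr d => d.1.2

theorem bas_xe (f : H.edgeSet) (e : Bool) : bas (xe (U := U) Z f e) = ev Z f e := by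
  unfold xe
  split_ifs with h <;> rfl

theorem xe_non {f : H.edgeSet} {e : Bool} (h : ev Z f e ∉ U) :
    xe (U := U) Z f e = Sum.inl (ev Z f e) := dif_neg h

theorem xe_hub {f : H.edgeSet} {e : Bool} (h : ev Z f e ∈ U) :
    xe (U := U) Z f e = Sum.inr (dorOf Z f e h) := dif_pos h

theorem xe_sym (f : H.edgeSet) : s(ev Z f false, ev Z f true) = (f : Sym2 V) :=
  (ev_sym Z f true).symm

theorem ev_mem (f : H.edgeSet) (e : Bool) : ev Z f e ∈ (f : Sym2 V) := by
  have h := ev_sym Z f e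
  have h2 : ev Z f e ∈ s(ev Z f (!e), ev Z f e) := Sym2.mem_mk_right _ _
  rwa [← h] at h2

theorem xx_adj (hU : ∀ u ∈ U, ∀ v ∈ U, ¬ H.Adj u v) (τ : TT H U ord) :
    (ringGraph H U ord).Adj (xx Z τ false) (xx Z τ true) := by
  rcases τ with f | d | p
  · have h1 : H.Adj (ev Z f false) (ev Z f true) := ev_adj Z f true
    change rAdj H U ord (xe Z f false) (xe Z f true)
    by_cases h2 : ev Z f false ∈ U
    · have h3 : ev Z f true ∉ U := fun h3 => hU _ h2 _ h3 h1
      rw [xe_hub Z h2, xe_non Z h3]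
      exact Or.inl rfl
    · by_cases h3 : ev Z f true ∈ U
      · rw [xe_non Z h2, xe_hub Z h3]
        exact Or.inl rfl
      · rw [xe_non Z h2, xe_non Z h3]
        exact ⟨h1, h2, h3⟩
  · exact Or.inr rfl
  · exact Or.inl p.2

theorem xx_cover (hU : ∀ u ∈ U, ∀ v ∈ U, ¬ H.Adj u v) (u v : V ⊕ Dor H U)
    (h : (ringGraph H U ord).Adj u v) :
    ∃ τ : TT H U ord, s(u, v) = s(xx Z τ false, xx Z τ true) := by
  have key : ∀ (w : V) (d : Dor H U), (w = d.1.1 ∨ w = d.1.2) →
      ∃ τ : TT H U ord, s(Sum.inl w, Sum.inr d) = s(xx Z τ false, xx Z τ true) := by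
    rintro w d (h | h)
    · refine ⟨Sum.inl d.f, ?_⟩
      have h1 : ev Z d.f (d.β Z) = d.1.2 := d.ev_β Z
      have h2 : ev Z d.f (!d.β Z) = d.1.1 := d.ev_nβ Z
      have h3 : d.1.1 ∉ U := fun h3 => hU _ h3 _ d.2.2 d.2.1
      have h4 : xe Z d.f (d.β Z) = Sum.inr d := by
        rw [xe_hub Z (by rw [h1]; exact d.2.2)]
        refine congrArg Sum.inr (Subtype.ext (Prod.ext ?_ ?_))
        · exact h2
        · exact h1
      have h5 : xe (U := U) Z d.f (!d.β Z) = Sum.inl d.1.1 := by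
        rw [xe_non Z (by rw [h2]; exact h3), h2]
      change s(Sum.inl w, Sum.inr d) = s(xe Z d.f false, xe Z d.f true)
      rw [h]
      cases hβ : d.β Z
      · rw [hβ] at h4 h5
        rw [h4, show xe Z d.f true = Sum.inl d.1.1 from h5, Sym2.eq_swap]
      · rw [hβ] at h4 h5
        rw [h4, show xe Z d.f false = Sum.inl d.1.1 from h5]
    · refine ⟨Sum.inr (Sum.inl d), ?_⟩
      rw [h]
      rfl
  rcases u with u | d <;> rcases v with v | d'
  · obtain ⟨h1, h2, h3⟩ := h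
    refine ⟨Sum.inl ⟨s(u, v), h1⟩, ?_⟩
    change _ = s(xe Z _ false, xe Z _ true)
    have h4 := xe_sym Z ⟨s(u, v), h1⟩
    have h5 : ∀ e, ev Z ⟨s(u, v), h1⟩ e ∉ U := by
      intro e
      have h6 : ev Z ⟨s(u, v), h1⟩ e ∈ s(u, v) := ev_mem Z ⟨s(u, v), h1⟩ e
      rcases Sym2.mem_iff.1 h6 with h7 | h7
      · rw [h7]; exact h2
      · rw [h7]; exact h3
    rw [xe_non Z (h5 false), xe_non Z (h5 true)]
    have h6 := congrArg (Sym2.map (Sum.inl : V → V ⊕ Dor H U)) h4
    exact h6.symm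
  · exact key u d' h
  · obtain ⟨τ, h1⟩ := key v d h
    refine ⟨τ, ?_⟩
    rw [Sym2.eq_swap]
    exact h1
  · rcases h with h | h
    · exact ⟨Sum.inr (Sum.inr ⟨(d, d'), h⟩), rfl⟩
    · refine ⟨Sum.inr (Sum.inr ⟨(d', d), h⟩), ?_⟩
      rw [Sym2.eq_swap]
      rfl

theorem xx_uniq (hU : ∀ u ∈ U, ∀ v ∈ U, ¬ H.Adj u v) (τ τ' : TT H U ord)
    (h : s(xx Z τ false, xx Z τ true) = s(xx Z τ' false, xx Z τ' true)) : τ = τ' := by
  -- a spoke has an end at a hub vertex, an old edge and a ring edge have not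
  have k1 : ∀ (f : H.edgeSet) (a : V), a ∈ U →
      (Sum.inl a : V ⊕ Dor H U) ∉ s(xe Z f false, xe Z f true) := by
    intro f a ha h1
    have h2 : ∀ e, (Sum.inl a : V ⊕ Dor H U) ≠ xe Z f e := by
      intro e h2
      by_cases h3 : ev Z f e ∈ U
      · rw [xe_hub Z h3] at h2
        exact absurd h2 (by simp)
      · rw [xe_non Z h3] at h2
        rw [Sum.inl.inj h2] at ha
        exact h3 ha
    rcases Sym2.mem_iff.1 h1 with h3 | h3
    · exact h2 _ h3
    · exact h2 _ h3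
  have k2 : ∀ (f : H.edgeSet) (d d' : Dor H U), s(xe Z f false, xe Z f true) ≠
      s((Sum.inr d : V ⊕ Dor H U), Sum.inr d') := by
    intro f d d' h1
    have h2 := congrArg (Sym2.map bas) h1
    simp only [Sym2.map_mk, bas_xe] at h2
    have h3 : ∀ e, ev Z f e ∈ U := by
      intro e
      have h4 : ev Z f e ∈ s(bas (Sum.inr d : V ⊕ Dor H U), bas (Sum.inr d' : V ⊕ Dor H U)) := by
        rw [← h2]
        cases e
        · exact Sym2.mem_mk_left _ _
        · exact Sym2.mem_mk_right _ _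
      rcases Sym2.mem_iff.1 h4 with h5 | h5
      · rw [h5]; exact d.2.2
      · rw [h5]; exact d'.2.2
    exact hU _ (h3 false) _ (h3 true) (ev_adj Z f true)
  rcases τ with f | d | ⟨p, hp⟩ <;> rcases τ' with f' | d' | ⟨p', hp'⟩
  · have h1 : s(xe (U := U) Z f false, xe Z f true) = s(xe Z f' false, xe Z f' true) := h
    have h2 := congrArg (Sym2.map bas) h1
    simp only [Sym2.map_mk, bas_xe] at h2
    rw [xe_sym, xe_sym] at h2
    exact congrArg Sum.inl (Subtype.ext h2)
  · exfalso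
    have h1 : s(xe (U := U) Z f false, xe Z f true) = s(Sum.inl d'.1.2, Sum.inr d') := h
    refine k1 f d'.1.2 d'.2.2 ?_
    rw [h1]
    exact Sym2.mem_mk_left _ _
  · exact absurd h (k2 f p'.1 p'.2)
  · exfalso
    have h1 : s(Sum.inl d.1.2, Sum.inr d) = s(xe (U := U) Z f' false, xe Z f' true) := h
    refine k1 f' d.1.2 d.2.2 ?_
    rw [← h1]
    exact Sym2.mem_mk_left _ _
  · have h1 : s((Sum.inl d.1.2 : V ⊕ Dor H U), Sum.inr d) = s(Sum.inl d'.1.2, Sum.inr d') := h
    rcases Sym2.eq_iff.1 h1 with h2 | h2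
    · exact congrArg (fun x => Sum.inr (Sum.inl x)) (Sum.inr.inj h2.2)
    · exact absurd h2.1 (by simp)
  · exfalso
    have h1 : s((Sum.inl d.1.2 : V ⊕ Dor H U), Sum.inr d) = s(Sum.inr p'.1, Sum.inr p'.2) := h
    rcases Sym2.eq_iff.1 h1 with h2 | h2
    · exact absurd h2.1 (by simp)
    · exact absurd h2.1 (by simp)
  · exact absurd h.symm (k2 f' p.1 p.2)
  · exfalso
    have h1 : s((Sum.inr p.1 : V ⊕ Dor H U), Sum.inr p.2) = s(Sum.inl d'.1.2, Sum.inr d') := h
    rcases Sym2.eq_iff.1 h1 with h2 | h2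
    · exact absurd h2.1 (by simp)
    · exact absurd h2.2 (by simp)
  · have h1 : s((Sum.inr p.1 : V ⊕ Dor H U), Sum.inr p.2) = s(Sum.inr p'.1, Sum.inr p'.2) := h
    rcases Sym2.eq_iff.1 h1 with h2 | h2
    · have h3 : p = p' := Prod.ext (Sum.inr.inj h2.1) (Sum.inr.inj h2.2)
      subst h3
      rfl
    · exfalso
      have h3 : p.1 = p'.2 := Sum.inr.inj h2.1
      have h4 : p.2 = p'.1 := Sum.inr.inj h2.2
      have g1 := hp.2
      have g2 := hp'.2
      have g3 := hp.1
      rw [← h3, ← h4, ← g3] at g2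
      omega

/-- the threads (edges) of the ring graph -/
noncomputable def ringThr (hU : ∀ u ∈ U, ∀ v ∈ U, ¬ H.Adj u v) :
    Threads (ringGraph H U ord) (TT H U ord) where
  len _ := 1
  x τ t := xx Z τ (decide (t ≠ 0))
  pos _ := le_rfl
  inj τ s t hs ht h := by
    have h1 := (ringGraph H U ord).ne_of_adj (xx_adj Z hU τ)
    have hs' : s = 0 ∨ s = 1 := by omega
    have ht' : t = 0 ∨ t = 1 := by omega
    rcases hs' with rfl | rfl <;> rcases ht' with rfl | rfl
    · rfl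
    · exact absurd h (by simpa using h1)
    · exact absurd h.symm (by simpa using h1)
    · rfl
  adj τ t ht := by
    obtain rfl : t = 0 := by omega
    simpa using xx_adj Z hU τ
  cover u v h := by
    obtain ⟨τ, h1⟩ := xx_cover Z hU u v h
    exact ⟨τ, 0, Nat.one_pos, by simpa using h1⟩
  uniq τ τ' t t' ht ht' h := by
    obtain rfl : t = 0 := by omega
    obtain rfl : t' = 0 := by omega
    exact ⟨xx_uniq Z hU τ τ' (by simpa using h), rfl⟩
  inner τ t h0 h1 := by omega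

variable {L : Layout Z.J (H.edgeSet × Bool) Z.src Z.tgt} (S : Lns L)

/-- the curves -/
noncomputable def EE : TT H U ord → Set (ℝ × ℝ)
  | Sum.inl f => EO Z S U f
  | Sum.inr (Sum.inl d) => ES Z S d
  | Sum.inr (Sum.inr p) => ER Z S p.1.1 p.1.2

/-- common points of two curves -/
theorem EE_common (hO : GoodOrd (U := U) Z S ord) (τ τ' : TT H U ord) (hne : τ ≠ τ') (z : ℝ × ℝ)
    (hz : z ∈ EE Z S τ) (hz' : z ∈ EE Z S τ') : (∃ u, z = PT (U := U) Z S u) ∨
      ∃ f f' : H.edgeSet, τ = Sum.inl f ∧ τ' = Sum.inl f' ∧ Z.bn f = Z.bn f' ∧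
        z = cj L (Z.bn f) := by
  rcases τ with f | d | ⟨p, hp⟩ <;> rcases τ' with f' | d' | ⟨p', hp'⟩
  · have h1 : f ≠ f' := fun h => hne (by rw [h])
    rcases EO_EO Z S h1 hz hz' with h | ⟨h, h'⟩
    · exact Or.inl h
    · exact Or.inr ⟨f, f', rfl, rfl, h, h'⟩
  · exact Or.inl ⟨_, EO_ES Z S hz hz'⟩
  · exact Or.inl (EO_ER Z S hO hp' hz hz')
  · exact Or.inl ⟨_, EO_ES Z S hz' hz⟩
  · exact Or.inl ⟨_, ES_ES Z S (fun h => hne (by rw [h])) hz hz'⟩
  · exact Or.inl (ES_ER Z S hO hp' hz hz')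
  · exact Or.inl (EO_ER Z S hO hp hz' hz)
  · exact Or.inl (ES_ER Z S hO hp hz' hz)
  · refine Or.inl (ER_ER Z S hO hp hp' ?_ hz hz')
    rintro ⟨h1, h2⟩
    have h3 : p = p' := Prod.ext h1 h2
    subst h3
    exact hne rfl

theorem ring_kpl [Finite V] (hU : ∀ u ∈ U, ∀ v ∈ U, ¬ H.Adj u v)
    (hO : GoodOrd (U := U) Z S ord) : KPl 1 (ringGraph H U ord) := by
  have hfD : Finite (Dor H U) := Subtype.finite
  have hfT : Finite (TT H U ord) := by
    unfold TT
    infer_instance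
  have hfV : Finite (V ⊕ Dor H U) := inferInstance
  have x0 : ∀ τ : TT H U ord, (ringThr Z hU).x τ 0 = xx Z τ false := fun τ => by
    simp [ringThr]
  have x1 : ∀ τ : TT H U ord, (ringThr Z hU).x τ ((ringThr Z hU).len τ) = xx Z τ true := fun τ => by
    simp [ringThr]
  refine assemble (ringGraph H U ord) (ringThr Z hU) 1 (PT Z S) (EE Z S) ⟨PT_inj Z S, ?_, ?_, ?_⟩ ?_
  · intro τ
    rw [x0, x1]
    rcases τ with f | d | ⟨p, hp⟩
    · exact EO_arc Z S f
    · exact ES_arc Z S d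
    · exact ER_arc Z S hp.1 (hO.cons_lt Z S hp)
  · intro τ u hz
    rw [x0, x1]
    rcases τ with f | d | ⟨p, hp⟩
    · obtain ⟨e, he⟩ := EO_avoid Z S hz
      cases e
      · exact Or.inl he
      · exact Or.inr he
    · exact ES_avoid Z S hz
    · exact ER_avoid Z S hO hp hz
  · intro τ τ' τ'' h1 h2 h3 z hz hz' hz''
    rcases EE_common Z S hO τ τ' h1 z hz hz' with h | ⟨f, f', e1, e2, e3, -⟩
    · exact h
    · rcases EE_common Z S hO τ τ'' h2 z hz hz'' with h | ⟨g, f'', e4, e5, e6, -⟩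
      · exact h
      · exfalso
        subst e1
        have e7 : f = g := Sum.inl.inj e4
        subst e7
        subst e2
        subst e5
        refine h3 (congrArg Sum.inl (Z.pair f f' f'' ?_ ?_ e3.symm e6.symm))
        · exact fun h => h1 (by rw [h])
        · exact fun h => h2 (by rw [h])
  · intro τ
    have h1 : ((1 * (ringThr (U := U) (ord := ord) Z hU).len τ : ℕ) : ℕ∞) = 1 := by
      simp [ringThr]
    rw [h1, Set.encard_le_one_iff_subsingleton]
    rintro ⟨τ', z⟩ ⟨n1, hz, hz', hz3⟩ ⟨τ'', w⟩ ⟨m1, hw, hw', hw3⟩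
    simp only at n1 hz hz' hz3 m1 hw hw' hw3
    rcases EE_common Z S hO τ τ' (Ne.symm n1) z hz hz' with ⟨u, h⟩ | ⟨f, f', e1, e2, e3, e4⟩
    · exact absurd h (hz3 u)
    · rcases EE_common Z S hO τ τ'' (Ne.symm m1) w hw hw' with ⟨u, h⟩ | ⟨g, f'', e5, e6, e7, e8⟩
      · exact absurd h (hw3 u)
      · subst e1
        have e9 : f = g := Sum.inl.inj e5
        subst e9
        subst e2
        subst e6
        have h4 : f' = f'' := Z.pair f f' f'' (fun h => n1 (by rw [h])) (fun h => m1 (by rw [h]))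
          e3.symm e7.symm
        subst h4
        rw [e4, e8]

/-! ## The order -/

open Classical in
/-- the number of the door of `y` at `a` -/
noncomputable def ordOf (U : Set V) (a y : V) : ℕ :=
  {d' : Dor H U | d'.1.2 = a ∧ ∃ d : Dor H U, d.1 = (y, a) ∧ th Z S d' < th Z S d}.ncard

theorem ordOf_eq (d : Dor H U) : ordOf Z S U d.1.2 d.1.1 =
    {d' : Dor H U | d'.1.2 = d.1.2 ∧ th Z S d' < th Z S d}.ncard := by
  unfold ordOf
  congr 1
  ext d'
  constructor
  · rintro ⟨h1, d1, h2, h3⟩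
    have h4 : d1 = d := Subtype.ext h2
    subst h4
    exact ⟨h1, h3⟩
  · rintro ⟨h1, h2⟩
    exact ⟨h1, d, rfl, h2⟩

theorem goodOrd [Finite V] : GoodOrd (U := U) Z S (ordOf Z S U) := by
  have hfD : Finite (Dor H U) := Subtype.finite
  refine ⟨fun d d' h => ?_⟩
  have e1 := ordOf_eq Z S d
  have e2 := ordOf_eq Z S d'
  rw [h] at e1
  rw [h, e1, e2]
  constructor
  · intro h1
    by_contra h2
    refine absurd h1 (not_lt.2 (Set.ncard_le_ncard ?_ (Set.toFinite _)))
    rintro d'' ⟨h3, h4⟩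
    exact ⟨h3, lt_of_lt_of_le h4 (not_lt.1 h2)⟩
  · intro h1
    refine Set.ncard_lt_ncard ?_ (Set.toFinite _)
    refine ⟨fun d'' h3 => ⟨h3.1, h3.2.trans h1⟩, fun h3 => ?_⟩
    exact lt_irrefl _ (h3 (⟨h, h1⟩ : d ∈ {d'' : Dor H U | d''.1.2 = d'.1.2 ∧
      th Z S d'' < th Z S d'})).2

theorem ordOf_bij [Finite V] {a : V} (ha : a ∈ U) :
    Set.BijOn (ordOf Z S U a) (H.neighborSet a) (Set.Iio (deg H a)) := by
  have hfD : Finite (Dor H U) := Subtype.finite
  have hO := goodOrd (U := U) Z S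
  -- the doors at `a`
  have hdoor : ∀ y ∈ H.neighborSet a, ∃ d : Dor H U, d.1 = (y, a) := fun y hy =>
    ⟨⟨(y, a), SimpleGraph.Adj.symm hy, ha⟩, rfl⟩
  have hcard : {d : Dor H U | d.1.2 = a}.ncard = deg H a := by
    unfold deg
    refine Set.ncard_congr (fun d _ => d.1.1) ?_ ?_ ?_
    · intro d hd
      have hd' : d.1.2 = a := hd
      have := d.2.1
      rw [hd'] at this
      exact this.symm
    · intro d d' hd hd' h
      have e1 : d.1.2 = a := hd
      have e2 : d'.1.2 = a := hd'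
      exact Subtype.ext (Prod.ext h (e1.trans e2.symm))
    · intro y hy
      obtain ⟨d, hd⟩ := hdoor y hy
      exact ⟨d, congrArg Prod.snd hd, congrArg Prod.fst hd⟩
  have hmaps : Set.MapsTo (ordOf Z S U a) (H.neighborSet a) (Set.Iio (deg H a)) := by
    intro y hy
    obtain ⟨d, hd⟩ := hdoor y hy
    have e1 : d.1.1 = y := congrArg Prod.fst hd
    have e2 : d.1.2 = a := congrArg Prod.snd hd
    have e3 := ordOf_eq Z S d
    rw [e1, e2] at e3
    rw [Set.mem_Iio, e3, ← hcard]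
    refine Set.ncard_lt_ncard ⟨fun d' h => h.1, fun h => ?_⟩ (Set.toFinite _)
    exact lt_irrefl _ (h (e2 : d ∈ {d : Dor H U | d.1.2 = a})).2
  have hinj : Set.InjOn (ordOf Z S U a) (H.neighborSet a) := by
    intro y hy y' hy' h
    obtain ⟨d, hd⟩ := hdoor y hy
    obtain ⟨d', hd'⟩ := hdoor y' hy'
    have e1 : d.1.1 = y := congrArg Prod.fst hd
    have e2 : d.1.2 = a := congrArg Prod.snd hd
    have e1' : d'.1.1 = y' := congrArg Prod.fst hd'
    have e2' : d'.1.2 = a := congrArg Prod.snd hd'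
    have h3 := hO.eq Z S (e2.trans e2'.symm) (by rw [e2, e1, e1']; exact h)
    rw [← e1, ← e1', h3]
  refine ⟨hmaps, hinj, ?_⟩
  have h1 : (ordOf Z S U a '' H.neighborSet a) = Set.Iio (deg H a) := by
    refine Set.eq_of_subset_of_ncard_le hmaps.image_subset ?_ (Set.finite_Iio _)
    rw [hinj.ncard_image]
    have : (Set.Iio (deg H a)).ncard = deg H a := by
      rw [Set.ncard_eq_toFinset_card']
      simp
    rw [this]
    exact le_rfl
  exact h1.symm.subset

end

/-- **Rings about the hubs.** If `H` is 1-planar and no two vertices of `U` are adjacent, then the graph with doors and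
rings is 1-planar for a suitable numbering of the neighbours of the hubs. -/
theorem exists_ring {V : Type} [Finite V] (H : SimpleGraph V) (h : KPl 1 H) (U : Set V)
    (hU : ∀ u ∈ U, ∀ v ∈ U, ¬ H.Adj u v) :
    ∃ ord : V → V → ℕ, (∀ a ∈ U, Set.BijOn (ord a) (H.neighborSet a) (Set.Iio (deg H a))) ∧
      KPl 1 (ringGraph H U ord) := by
  obtain ⟨pos, γ, hd, h1⟩ := h
  obtain ⟨Z, ⟨P⟩⟩ := planarize H pos γ hd (fun e he => by simpa using h1 e he)
  have hJ : Finite Z.J := Z.fin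
  obtain ⟨L⟩ := exists_layout (plz_ne Z) P
  obtain ⟨S⟩ := exists_lns (plz_ne Z) L
  exact ⟨ordOf Z S U, fun a ha => ordOf_bij Z S ha, ring_kpl Z S hU (goodOrd Z S)⟩

end Pool.Agent.Helper83.HR
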