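import Pool.Agent.Helper83.HR.Load
import Pool.Agent.Helper83.HR.Ring

/-!
# Closure and surgery with hubs, for the ring graph
-/

open Set
open Pool.Agent.Helper83.OP Pool.Agent.Helper83.LN Pool.Agent.Helper93.UP

namespace Pool.Agent.Helper83.HR

/-! ## Degrees in the ring graph -/

section deg

variable {V : Type} [Finite V] {H : SimpleGraph V} {U : Set V} {ord : V → V → ℕ}

instance : Finite (Dor H U) := Subtype.finite

omit [Finite V] in
theorem dor_eq (hinj : ∀ a ∈ U, Set.InjOn (ord a) (H.neighborSet a)) {d d' : Dor H U}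
    (h1 : d.1.2 = d'.1.2) (h2 : ord d.1.2 d.1.1 = ord d.1.2 d'.1.1) : d = d' := by
  refine Subtype.ext (Prod.ext (hinj _ d.2.2 d.2.1.symm ?_ h2) h1)
  rw [h1]
  exact d'.2.1.symm

/-- doors have degree at most four -/
theorem deg_dor (hinj : ∀ a ∈ U, Set.InjOn (ord a) (H.neighborSet a)) (d : Dor H U) :
    deg (ringGraph H U ord) (Sum.inr d) ≤ 4 := by
  have hN : {x : V ⊕ Dor H U | ∃ d', x = Sum.inr d' ∧ Cons ord d d'}.ncard ≤ 1 := by
    rw [Set.ncard_le_one (Set.toFinite _)]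
    rintro x ⟨d1, rfl, h1⟩ y ⟨d2, rfl, h2⟩
    refine congrArg Sum.inr (dor_eq hinj (h1.1.symm.trans h2.1) ?_)
    rw [← h1.1]
    have h3 := h1.2
    have h4 := h2.2
    omega
  have hP : {x : V ⊕ Dor H U | ∃ d', x = Sum.inr d' ∧ Cons ord d' d}.ncard ≤ 1 := by
    rw [Set.ncard_le_one (Set.toFinite _)]
    rintro x ⟨d1, rfl, h1⟩ y ⟨d2, rfl, h2⟩
    refine congrArg Sum.inr (dor_eq hinj (h1.1.trans h2.1.symm) ?_)
    have h3 := h1.2
    have h4 := h2.2
    rw [h2.1] at h4
    rw [h1.1] at h3 ⊢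
    omega
  have hsub : (ringGraph H U ord).neighborSet (Sum.inr d) ⊆
      insert (Sum.inl d.1.1) (insert (Sum.inl d.1.2)
        ({x : V ⊕ Dor H U | ∃ d', x = Sum.inr d' ∧ Cons ord d d'} ∪
          {x : V ⊕ Dor H U | ∃ d', x = Sum.inr d' ∧ Cons ord d' d})) := by
    rintro (u | d') h
    · rcases (show u = d.1.1 ∨ u = d.1.2 from h) with h | h
      · rw [h]; exact Or.inl rfl
      · rw [h]; exact Or.inr (Or.inl rfl)
    · rcases (show Cons ord d d' ∨ Cons ord d' d from h) with h | h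
      · exact Or.inr (Or.inr (Or.inl ⟨d', rfl, h⟩))
      · exact Or.inr (Or.inr (Or.inr ⟨d', rfl, h⟩))
  unfold deg
  refine (Set.ncard_le_ncard hsub (Set.toFinite _)).trans ?_
  refine (Set.ncard_insert_le _ _).trans ?_
  have h1 := Set.ncard_insert_le (Sum.inl d.1.2)
    ({x : V ⊕ Dor H U | ∃ d', x = Sum.inr d' ∧ Cons ord d d'} ∪
          {x : V ⊕ Dor H U | ∃ d', x = Sum.inr d' ∧ Cons ord d' d})
  have h2 := Set.ncard_union_le {x : V ⊕ Dor H U | ∃ d', x = Sum.inr d' ∧ Cons ord d d'}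
    {x : V ⊕ Dor H U | ∃ d', x = Sum.inr d' ∧ Cons ord d' d}
  omega

/-- the degree of a vertex outside `U` -/
theorem deg_inl {v : V} (hv : v ∉ U) : deg (ringGraph H U ord) (Sum.inl v) ≤ deg H v := by
  unfold deg
  refine Set.ncard_le_ncard_of_injOn bas ?_ ?_ (Set.toFinite _)
  · rintro (u | d) h
    · exact (show H.Adj v u ∧ v ∉ U ∧ u ∉ U from h).1
    · rcases (show v = d.1.1 ∨ v = d.1.2 from h) with h | h
      · rw [h]; exact d.2.1
      · exact absurd (by rw [h]; exact d.2.2) hv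
  · rintro (u | d) h (u' | d') h' he
    · exact congrArg Sum.inl he
    · exfalso
      have h1 : u = d'.1.2 := he
      exact (show H.Adj v u ∧ v ∉ U ∧ u ∉ U from h).2.2 (by rw [h1]; exact d'.2.2)
    · exfalso
      have h1 : d.1.2 = u' := he
      exact (show H.Adj v u' ∧ v ∉ U ∧ u' ∉ U from h').2.2 (by rw [← h1]; exact d.2.2)
    · have h1 : d.1.2 = d'.1.2 := he
      have h2 : v = d.1.1 := by
        rcases (show v = d.1.1 ∨ v = d.1.2 from h) with h | h
        · exact h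
        · exact absurd (by rw [h]; exact d.2.2) hv
      have h3 : v = d'.1.1 := by
        rcases (show v = d'.1.1 ∨ v = d'.1.2 from h') with h | h
        · exact h
        · exact absurd (by rw [h]; exact d'.2.2) hv
      exact congrArg Sum.inr (Subtype.ext (Prod.ext (h2.symm.trans h3) h1))

end deg

/-! ## One edge -/

theorem kpl_two : KPl 1 (⊤ : SimpleGraph Bool) := by
  refine ⟨fun b => (if b then 1 else 0, 0), fun _ t => (t, 0), ⟨?_, ?_, ?_, ?_, ?_⟩, ?_⟩
  · intro a b h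
    have h1 := congrArg Prod.fst h
    cases a <;> cases b
    · rfl
    · exact absurd h1 (by norm_num)
    · exact absurd h1 (by norm_num)
    · rfl
  · intro u v h
    cases u <;> cases v
    · exact absurd rfl h
    · exact Or.inl ⟨rfl, rfl⟩
    · exact Or.inr ⟨rfl, rfl⟩
    · exact absurd rfl h
  · intro e _
    exact (continuous_id.prodMk continuous_const).continuousOn
  · intro e _ s _ t _ h
    exact congrArg Prod.fst h
  · intro e _ t ht w h
    have h1 : t = if w then 1 else 0 := congrArg Prod.fst h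
    cases w
    · exact absurd ht.1 (by rw [h1]; exact lt_irrefl _)
    · exact absurd ht.2 (by rw [h1]; exact lt_irrefl _)
  · intro e he
    have h1 : crossSet (⊤ : SimpleGraph Bool) (fun _ t => (t, 0)) e = ∅ := by
      rw [Set.eq_empty_iff_forall_notMem]
      rintro ⟨f, z⟩ ⟨hf, hne, -, -⟩
      refine hne ?_
      have key : ∀ g ∈ (⊤ : SimpleGraph Bool).edgeSet, g = s(false, true) := by
        intro g
        induction g using Sym2.ind with
        | _ x y =>
          intro hg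
          cases x <;> cases y
          · exact absurd rfl hg
          · rfl
          · exact Sym2.eq_swap
          · exact absurd rfl hg
      exact (key f hf).trans (key e he).symm
    rw [h1]
    simp

theorem deg_two (v : Bool) : deg (⊤ : SimpleGraph Bool) v ≤ 1 := by
  unfold deg
  have h1 : (⊤ : SimpleGraph Bool).neighborSet v ⊆ {!v} := by
    intro w hw
    cases v <;> cases w
    · exact absurd rfl hw
    · rfl
    · rfl
    · exact absurd rfl hw
  exact (Set.ncard_le_ncard h1 (Set.toFinite _)).trans (Set.ncard_singleton _).le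

/-! ## Old curves -/

section old

variable {V T : Type} {G H : SimpleGraph V} {U : Set V}

/-- the old curve of a thread -/
structure OldSpec (H : SimpleGraph V) (U : Set V) (Th : Threads G T) (τ : T)
    (z : ℕ → V ⊕ Dor H U) (zl : ℕ) : Prop where
  len : (zl = Th.len τ ∧ Th.x τ (Th.len τ) ∉ U) ∨ (zl = Th.len τ + 1 ∧ Th.x τ (Th.len τ) ∈ U)
  start : ∀ t < Th.len τ, z t = Sum.inl (Th.x τ t)
  last : z zl = Sum.inl (Th.x τ (Th.len τ))
  dor : zl = Th.len τ + 1 → ∃ d : Dor H U, z (Th.len τ) = Sum.inr d ∧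
    d.1 = (Th.x τ (Th.len τ - 1), Th.x τ (Th.len τ))

theorem exists_old (Th : Threads G T) (τ : T)
    (hH : ∀ t < Th.len τ, H.Adj (Th.x τ t) (Th.x τ (t + 1))) :
    ∃ z zl, OldSpec H U Th τ z zl := by
  classical
  have hpos := Th.pos τ
  by_cases h : Th.x τ (Th.len τ) ∈ U
  · have h1 : H.Adj (Th.x τ (Th.len τ - 1)) (Th.x τ (Th.len τ)) := by
      have := hH (Th.len τ - 1) (by omega)
      rwa [Nat.sub_add_cancel hpos] at this
    refine ⟨fun t => if t < Th.len τ then Sum.inl (Th.x τ t) else if t = Th.len τ then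
      Sum.inr ⟨(Th.x τ (Th.len τ - 1), Th.x τ (Th.len τ)), h1, h⟩ else
      Sum.inl (Th.x τ (Th.len τ)), Th.len τ + 1, Or.inr ⟨rfl, h⟩, ?_, ?_, ?_⟩
    · intro t ht
      simp only [if_pos ht]
    · simp
    · intro _
      refine ⟨⟨(Th.x τ (Th.len τ - 1), Th.x τ (Th.len τ)), h1, h⟩, ?_, rfl⟩
      simp
  · exact ⟨fun t => Sum.inl (Th.x τ t), Th.len τ, Or.inl ⟨rfl, h⟩, fun _ _ => rfl, rfl,
      fun h' => absurd h' (by omega)⟩

variable {Th : Threads G T} {τ : T} {z : ℕ → V ⊕ Dor H U} {zl : ℕ}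

theorem OldSpec.le (h : OldSpec H U Th τ z zl) : Th.len τ ≤ zl ∧ zl ≤ Th.len τ + 1 := by
  rcases h.len with h | h <;> omega

theorem OldSpec.vert (h : OldSpec H U Th τ z zl) {t : ℕ} (ht : t ≤ zl) :
    (∃ s ≤ Th.len τ, z t = Sum.inl (Th.x τ s) ∧ (t < zl → s = t ∧ t < Th.len τ)) ∨
      (t = Th.len τ ∧ ∃ d : Dor H U, z t = Sum.inr d ∧
        d.1 = (Th.x τ (Th.len τ - 1), Th.x τ (Th.len τ))) := by
  have hle := h.le
  by_cases h1 : t < Th.len τ
  · exact Or.inl ⟨t, h1.le, h.start t h1, fun _ => ⟨rfl, h1⟩⟩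
  · by_cases h2 : t = zl
    · subst h2
      exact Or.inl ⟨Th.len τ, le_rfl, h.last, fun h3 => absurd h3 (lt_irrefl _)⟩
    · obtain ⟨d, h3, h4⟩ := h.dor (by omega)
      have h5 : t = Th.len τ := by omega
      subst h5
      exact Or.inr ⟨rfl, d, h3, h4⟩

theorem OldSpec.edge (h : OldSpec H U Th τ z zl) {t : ℕ} (ht : t < zl) :
    (t < Th.len τ ∧ z t = Sum.inl (Th.x τ t) ∧ z (t + 1) = Sum.inl (Th.x τ (t + 1)) ∧
      (t + 1 = Th.len τ → Th.x τ (t + 1) ∉ U)) ∨
    (∃ d : Dor H U, d.1 = (Th.x τ (Th.len τ - 1), Th.x τ (Th.len τ)) ∧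
      ((z t = Sum.inl (Th.x τ (Th.len τ - 1)) ∧ z (t + 1) = Sum.inr d) ∨
        (z t = Sum.inr d ∧ z (t + 1) = Sum.inl (Th.x τ (Th.len τ))))) := by
  have hle := h.le
  have hpos := Th.pos τ
  rcases h.len with ⟨h1, h2⟩ | ⟨h1, h2⟩
  · left
    refine ⟨by omega, h.start t (by omega), ?_, ?_⟩
    · by_cases h3 : t + 1 < Th.len τ
      · exact h.start _ h3
      · have h4 : t + 1 = Th.len τ := by omega
        have h5 := h.last
        rw [h1, ← h4] at h5
        exact h5
    · intro h3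
      rw [h3]
      exact h2
  · obtain ⟨d, h3, h4⟩ := h.dor h1
    by_cases h5 : t + 1 < Th.len τ
    · exact Or.inl ⟨by omega, h.start t (by omega), h.start _ h5, fun h6 => by omega⟩
    · right
      refine ⟨d, h4, ?_⟩
      by_cases h6 : t = Th.len τ
      · right
        subst h6
        have h7 := h.last
        rw [h1] at h7
        exact ⟨h3, h7⟩
      · left
        have h7 : t = Th.len τ - 1 := by omega
        have h8 : t + 1 = Th.len τ := by omega
        rw [h8]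
        refine ⟨?_, h3⟩
        rw [← h7]
        exact h.start t (by omega)

theorem old_sys [Finite V] (hHG : H ≤ G) {ord : V → V → ℕ}
    (hinj : ∀ a ∈ U, Set.InjOn (ord a) (H.neighborSet a)) (Th : Threads G T) (S0 : Set T)
    (hx : ∀ τ t, t < Th.len τ → Th.x τ t ∉ U)
    (hH : ∀ τ, τ ∉ S0 → ∀ t < Th.len τ, H.Adj (Th.x τ t) (Th.x τ (t + 1)))
    (z : T → ℕ → V ⊕ Dor H U) (zl : T → ℕ)
    (hz : ∀ τ, τ ∉ S0 → OldSpec H U Th τ (z τ) (zl τ)) :
    OldSys (ringGraph H U ord) (Sum.inl '' U) S0 z zl := by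
  have hU : ∀ τ, τ ∉ S0 → ∀ d : Dor H U,
      d.1 = (Th.x τ (Th.len τ - 1), Th.x τ (Th.len τ)) →
      d.1.1 = Th.x τ (Th.len τ - 1) ∧ d.1.2 = Th.x τ (Th.len τ) := by
    intro τ _ d h
    rw [h]
    exact ⟨rfl, rfl⟩
  have hdd : ∀ τ τ', ∀ d d' : Dor H U, d.1 = (Th.x τ (Th.len τ - 1), Th.x τ (Th.len τ)) →
      d'.1 = (Th.x τ' (Th.len τ' - 1), Th.x τ' (Th.len τ')) → d = d' → τ = τ' := by
    intro τ τ' d d' h1 h2 h3
    subst h3
    rw [h1] at h2
    have h4 := congrArg Prod.fst h2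
    have h5 := congrArg Prod.snd h2
    simp only at h4 h5
    have hp := Th.pos τ
    have hp' := Th.pos τ'
    refine (Th.uniq τ τ' (Th.len τ - 1) (Th.len τ' - 1) (by omega) (by omega) ?_).1
    rw [Nat.sub_add_cancel hp, Nat.sub_add_cancel hp', h4, h5]
  refine ⟨?_, ?_, ?_, ?_, ?_, ?_⟩
  · intro τ h0
    have := (hz τ h0).le
    have := Th.pos τ
    omega
  · intro τ h0 t ht
    rcases (hz τ h0).edge ht with ⟨h1, h2, h3, h4⟩ | ⟨d, h1, h2⟩
    · rw [h2, h3]
      refine ⟨hH τ h0 t h1, hx τ t h1, ?_⟩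
      by_cases h5 : t + 1 = Th.len τ
      · exact h4 h5
      · exact hx τ _ (by omega)
    · obtain ⟨h3, h4⟩ := hU τ h0 d h1
      rcases h2 with ⟨h5, h6⟩ | ⟨h5, h6⟩
      · rw [h5, h6]
        exact Or.inl h3.symm
      · rw [h5, h6]
        exact Or.inr h4.symm
  · intro τ h0 τ' h0' t ht t' ht' he
    rcases (hz τ h0).edge ht with ⟨h1, h2, h3, -⟩ | ⟨d, h1, h2⟩
    · rcases (hz τ' h0').edge ht' with ⟨h1', h2', h3', -⟩ | ⟨d', h1', h2'⟩
      · rw [h2, h3, h2', h3'] at he
        have h4 := congrArg (Sym2.map bas) he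
        exact (Th.uniq τ τ' t t' h1 h1' h4).1
      · exfalso
        rw [h2, h3] at he
        have h4 : (Sum.inr d' : V ⊕ Dor H U) ∈ s(z τ' t', z τ' (t' + 1)) := by
          rcases h2' with ⟨h5, h6⟩ | ⟨h5, h6⟩
          · rw [h6]; exact Sym2.mem_mk_right _ _
          · rw [h5]; exact Sym2.mem_mk_left _ _
        rw [← he] at h4
        rcases Sym2.mem_iff.1 h4 with h5 | h5 <;> cases h5
    · have h4 : (Sum.inr d : V ⊕ Dor H U) ∈ s(z τ t, z τ (t + 1)) := by
        rcases h2 with ⟨h5, h6⟩ | ⟨h5, h6⟩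
        · rw [h6]; exact Sym2.mem_mk_right _ _
        · rw [h5]; exact Sym2.mem_mk_left _ _
      rw [he] at h4
      rcases (hz τ' h0').edge ht' with ⟨h1', h2', h3', -⟩ | ⟨d', h1', h2'⟩
      · exfalso
        rw [h2', h3'] at h4
        rcases Sym2.mem_iff.1 h4 with h5 | h5 <;> cases h5
      · refine hdd τ τ' d d' h1 h1' ?_
        rcases h2' with ⟨h5, h6⟩ | ⟨h5, h6⟩
        · rw [h5, h6] at h4
          rcases Sym2.mem_iff.1 h4 with h7 | h7
          · cases h7
          · exact Sum.inr.inj h7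
        · rw [h5, h6] at h4
          rcases Sym2.mem_iff.1 h4 with h7 | h7
          · exact Sum.inr.inj h7
          · cases h7
  · intro τ h0 t h1 h2 τ' h0' t' ht' he
    rcases (hz τ h0).vert h2.le with ⟨s, hs, h3, h4⟩ | ⟨-, d, h3, h4⟩
    · obtain ⟨h5, h6⟩ := h4 h2
      subst h5
      rw [h3] at he
      rcases (hz τ' h0').vert ht' with ⟨s', hs', h3', -⟩ | ⟨-, d', h3', -⟩
      · rw [h3'] at he
        exact Th.inner τ s h1 h6 τ' s' hs' (Sum.inl.inj he)
      · rw [h3'] at he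
        cases he
    · rw [h3] at he
      rcases (hz τ' h0').vert ht' with ⟨s', hs', h3', -⟩ | ⟨-, d', h3', h4'⟩
      · rw [h3'] at he
        cases he
      · rw [h3'] at he
        exact hdd τ' τ d' d h4' h4 (Sum.inr.inj he)
  · rintro τ h0 t ht ⟨a, ha, he⟩
    rcases (hz τ h0).vert ht.le with ⟨s, hs, h3, h4⟩ | ⟨-, d, h3, h4⟩
    · obtain ⟨h5, h6⟩ := h4 ht
      subst h5
      rw [h3] at he
      rw [Sum.inl.inj he] at ha
      exact hx τ s h6 ha
    · rw [h3] at he
      cases he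
  · intro τ h0 t h1 h2
    rcases (hz τ h0).vert h2.le with ⟨s, hs, h3, h4⟩ | ⟨-, d, h3, h4⟩
    · obtain ⟨h5, h6⟩ := h4 h2
      subst h5
      rw [h3]
      have h7 := deg_inl (H := H) (ord := ord) (hx τ s h6)
      have h8 := (deg_mono hHG (Th.x τ s)).trans (deg_inner Th τ s h1 h6)
      omega
    · rw [h3]
      exact deg_dor hinj d

end old

/-- **Closure and surgery with hubs.** `H` is a subgraph of `G` whose ring graph is 1-planar. Every thread of `G` has at
most one hub, at its end. The threads outside `S0` are short, lie in `H` and their ends are at their own places. The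
places of the ends of every thread are joined in the ring graph minus the hubs (to a door of the hub, for a thread which
ends at a hub) by a walk of cost at most `K1` times the length of the thread. Then `G` is `K`-planar. -/
theorem surg_hub (C K1 : ℕ) : ∃ K : ℕ, ∀ (V T : Type) [Finite V] [Fintype T]
    (G H : SimpleGraph V) (U : Set V) (ord : V → V → ℕ) (Th : Threads G T)
    (pl : V → V ⊕ Dor H U) (r : ℕ) (S0 : Finset T),
    KPl 1 (ringGraph H U ord) →
    (∀ a ∈ U, Set.InjOn (ord a) (H.neighborSet a)) →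
    H ≤ G → (∀ u ∈ U, ∀ v ∈ U, ¬ H.Adj u v) → 1 ≤ r →
    (∀ v, v ∉ U → deg G v ≤ C * r) → S0.card ≤ C * r →
    (∀ τ, r ≤ Th.len τ) → (∀ τ, τ ∉ S0 → Th.len τ ≤ 2 * r) →
    (∀ τ t, t < Th.len τ → Th.x τ t ∉ U) →
    (∀ u ∈ U, pl u = Sum.inl u) → (∀ v, v ∉ U → ∀ a ∈ U, pl v ≠ Sum.inl a) →
    (∀ τ, τ ∉ S0 → (∀ t < Th.len τ, H.Adj (Th.x τ t) (Th.x τ (t + 1))) ∧
      pl (Th.x τ 0) = Sum.inl (Th.x τ 0) ∧
      pl (Th.x τ (Th.len τ)) = Sum.inl (Th.x τ (Th.len τ))) →
    (∀ τ, ∃ w : V ⊕ Dor H U,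
      (Th.x τ (Th.len τ) ∉ U → w = pl (Th.x τ (Th.len τ))) ∧
      (Th.x τ (Th.len τ) ∈ U → ∃ d : Dor H U, w = Sum.inr d ∧ d.1.2 = Th.x τ (Th.len τ)) ∧
      ∃ p : (ringGraph H U ord).Walk (pl (Th.x τ 0)) w, (∀ a ∈ U, Sum.inl a ∉ p.support) ∧
        2 * (p.support.map (deg (ringGraph H U ord))).sum + 8 * p.length ≤ K1 * Th.len τ) →
    KPl K G := by
  classical
  obtain ⟨K, hK⟩ := surg_gen (C + 4) (K1 + 2)
  refine ⟨K, ?_⟩
  intro V T _ _ G H U ord Th pl r S0 hR hinj hHG hUU hr hdeg hS0 hlen hlen2 hx hplU hplv hold hwalk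
  have e1 : C * r ≤ (C + 4) * r := Nat.mul_le_mul_right _ (Nat.le_add_right _ _)
  have e2 : 4 ≤ (C + 4) * r := Nat.mul_le_mul (Nat.le_add_left 4 C) hr
  by_cases hne : (ringGraph H U ord).edgeSet.Nonempty
  · -- the main case
    have hex : ∀ τ, ∃ (z : ℕ → V ⊕ Dor H U) (zl : ℕ), τ ∉ S0 → OldSpec H U Th τ z zl := by
      intro τ
      by_cases h : τ ∈ S0
      · exact ⟨fun _ => Sum.inl (Th.x τ 0), 0, fun h' => absurd h h'⟩
      · obtain ⟨z, zl, h1⟩ := exists_old (H := H) (U := U) Th τ (hold τ h).1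
        exact ⟨z, zl, fun _ => h1⟩
    choose z zl hz using hex
    have hsys : OldSys (ringGraph H U ord) (Sum.inl '' U) (S0 : Set T) z zl :=
      old_sys hHG hinj Th (S0 : Set T) hx (fun τ h => (hold τ (fun h' => h (Finset.mem_coe.2 h'))).1)
        z zl (fun τ h => hz τ (fun h' => h (Finset.mem_coe.2 h')))
    refine hK V (V ⊕ Dor H U) T G (ringGraph H U ord) (Sum.inl '' U) Th pl z zl r S0 hR hne
      ?_ ?_ hr (hS0.trans e1) hlen hlen2 ?_ hsys ?_ ?_
    · rintro x ⟨a, ha, rfl⟩ (v | d) h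
      · exact absurd ha (show H.Adj a v ∧ a ∉ U ∧ v ∉ U from h).2.1
      · exact deg_dor hinj d
    · rintro (v | d) h
      · have hv : v ∉ U := fun hv => h ⟨v, hv, rfl⟩
        refine (deg_inl (H := H) (ord := ord) hv).trans ((deg_mono hHG v).trans ((hdeg v hv).trans ?_))
        exact Nat.mul_le_mul_right _ (by omega)
      · exact (deg_dor hinj d).trans e2
    · rintro u u' ⟨a, ha, h1⟩ h2
      by_cases hu : u ∈ U
      · by_cases hu' : u' ∈ U
        · rw [hplU u hu, hplU u' hu'] at h2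
          exact Sum.inl.inj h2
        · exact absurd (h2.symm.trans (hplU u hu)) (hplv u' hu' u hu)
      · exact absurd h1.symm (hplv u hu a ha)
    · intro τ h
      have h1 := hz τ h
      refine ⟨?_, ?_, h1.le.2⟩
      · rw [(hold τ h).2.1]
        exact h1.start 0 (Th.pos τ)
      · rw [(hold τ h).2.2]
        exact h1.last
    · intro τ
      obtain ⟨w, h1, h2, p, hp, hc⟩ := hwalk τ
      refine ⟨w, ?_, p, ?_, hc.trans (Nat.mul_le_mul_right _ (by omega))⟩
      · by_cases h : Th.x τ (Th.len τ) ∈ U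
        · obtain ⟨d, h3, h4⟩ := h2 h
          right
          rw [hplU _ h]
          refine ⟨⟨_, h, rfl⟩, ?_⟩
          rw [h3]
          exact Or.inr h4.symm
        · exact Or.inl (h1 h)
      · rintro x hx' ⟨a, ha, rfl⟩
        exact hp a ha hx'
  · -- no edges: all threads are in `S0`
    have hall : ∀ τ, τ ∈ S0 := by
      intro τ
      by_contra h
      have h1 := (hold τ h).1 0 (Th.pos τ)
      have h0 := hx τ 0 (Th.pos τ)
      refine hne ?_
      by_cases h2 : Th.x τ (0 + 1) ∈ U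
      · exact ⟨s(Sum.inl (Th.x τ 0), Sum.inr ⟨(Th.x τ 0, Th.x τ (0 + 1)), h1, h2⟩), Or.inl rfl⟩
      · exact ⟨s(Sum.inl (Th.x τ 0), Sum.inl (Th.x τ (0 + 1))), h1, h0, h2⟩
    refine hK V Bool T G ⊤ ∅ Th (fun _ => true) (fun _ _ => true) (fun _ => 0) r S0 kpl_two
      ⟨s(false, true), Bool.false_ne_true⟩ (fun _ h => absurd h (Set.notMem_empty _)) ?_ hr
      (hS0.trans e1) hlen hlen2 (fun _ _ h => absurd h (Set.notMem_empty _))
      ⟨?_, ?_, ?_, ?_, ?_, ?_⟩ ?_ ?_
    · intro v _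
      have h1 := deg_two v
      omega
    · exact fun τ h => absurd (Finset.mem_coe.2 (hall τ)) h
    · exact fun τ h => absurd (Finset.mem_coe.2 (hall τ)) h
    · exact fun τ h => absurd (Finset.mem_coe.2 (hall τ)) h
    · exact fun τ h => absurd (Finset.mem_coe.2 (hall τ)) h
    · exact fun τ h => absurd (Finset.mem_coe.2 (hall τ)) h
    · exact fun τ h => absurd (Finset.mem_coe.2 (hall τ)) h
    · exact fun τ h => absurd (hall τ) h
    · intro τ
      refine ⟨true, Or.inl rfl, SimpleGraph.Walk.nil, fun _ _ h => Set.notMem_empty _ h, ?_⟩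
      have h1 := deg_two true
      have h2 := Th.pos τ
      simp only [SimpleGraph.Walk.support_nil, List.map_cons, List.map_nil, List.sum_cons,
        List.sum_nil, SimpleGraph.Walk.length_nil]
      have h3 : 2 * 1 ≤ (K1 + 2) * Th.len τ := Nat.mul_le_mul (Nat.le_add_left 2 K1) h2
      omega

end Pool.Agent.Helper83.HR
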