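import Pool.Agent.Helper83.LN.Geo

/-!
# The drawing of the routes, with stars in the hub blocks

`Hb` is a set of nodes (hubs) which are met by routes only at their ends, with one terminal in the block. In these
blocks the curves are segments from the centre to the doors, so there are no crossings in the blocks of hubs.
-/

namespace Pool.Agent.Helper83.HR

open Set Pool.Agent.Helper83.OP Pool.Agent.Helper83.LN

section Bl

variable {J I U T : Type} {src tgt : I → J} {L : Layout J I src tgt}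

/-- the pairs of ports which are used in the block of `j` -/
def Us (Hb : Set J) (j : J) (p q : Port T I) : Prop :=
  j ∈ Hb → (∃ x y, p = Sum.inl x ∧ q = Sum.inr y) ∨ ∃ x y, p = Sum.inr x ∧ q = Sum.inl y

/-- the pictures in all blocks -/
structure BH (S : Lns L) (pl : U → J) (a b : T → U) (n : ℕ) (Hb : Set J) where
  ν : Port T I → ℕ
  P : U → ℝ × ℝ
  C : J → Port T I → Port T I → Set (ℝ × ℝ)
  P_mem : ∀ v, P v ∈ Ore L (pl v)
  P_inj : Function.Injective P
  isArc : ∀ j p q, Pj src tgt pl a b n j p → Pj src tgt pl a b n j q → Us Hb j p q → p ≠ q →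
    (tmP a b p ≠ tmP a b q ∨ tmP a b p = none) → IsArc (C j p q) (ptP S a b P p) (ptP S a b P q)
  sub : ∀ j p q, Pj src tgt pl a b n j p → Pj src tgt pl a b n j q → Us Hb j p q → ∀ z ∈ C j p q,
    z ∈ Ore L j ∨ ∃ i e l, (p = Sum.inr (i, e, l) ∨ q = Sum.inr (i, e, l)) ∧ z = S.dr i e l
  term : ∀ j p q, Pj src tgt pl a b n j p → Pj src tgt pl a b n j q → Us Hb j p q →
    ∀ v, P v ∈ C j p q → tmP a b p = some v ∨ tmP a b q = some v
  cross : ∀ j p q p' q', Pj src tgt pl a b n j p → Pj src tgt pl a b n j q →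
    Pj src tgt pl a b n j p' → Pj src tgt pl a b n j q' → Us Hb j p q → Us Hb j p' q' →
    [p, q, p', q'].Nodup →
    ∃ X : Set (ℝ × ℝ), X.Subsingleton ∧ (X.Nonempty → Il (ν p) (ν q) (ν p') (ν q') ∧ j ∉ Hb) ∧
      ∀ z ∈ C j p q, z ∈ C j p' q' → z ∈ X ∨ ∃ v, z = P v
  triple : ∀ j p q p' q' p'' q'', Pj src tgt pl a b n j p → Pj src tgt pl a b n j q →
    Pj src tgt pl a b n j p' → Pj src tgt pl a b n j q' → Pj src tgt pl a b n j p'' →
    Pj src tgt pl a b n j q'' → Us Hb j p q → Us Hb j p' q' → Us Hb j p'' q'' →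
    [p, q, p', q', p'', q''].Nodup →
    ∀ z ∈ C j p q, z ∈ C j p' q' → z ∈ C j p'' q'' → ∃ v, z = P v

/-- common points of two segments of a star -/
theorem star_two (S : Lns L) {pl : U → J} {a b : T → U} {n : ℕ}
    {j : J} (P : U → ℝ × ℝ) (hP : ∀ v, pl v = j → P v = ctr (L.x0 j) (L.x1 j) (L.y0 j) (L.y1 j))
    (h1 : ∀ u u', pl u = j → pl u' = j → u = u')
    {p q p' q' : Port T I} (hp : Pj src tgt pl a b n j p)
    (hq : Pj src tgt pl a b n j q) (hp' : Pj src tgt pl a b n j p')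
    (hq' : Pj src tgt pl a b n j q')
    (hu : (∃ x y, p = Sum.inl x ∧ q = Sum.inr y) ∨ ∃ x y, p = Sum.inr x ∧ q = Sum.inl y)
    (hu' : (∃ x y, p' = Sum.inl x ∧ q' = Sum.inr y) ∨ ∃ x y, p' = Sum.inr x ∧ q' = Sum.inl y)
    (hnd : [p, q, p', q'].Nodup) {z : ℝ × ℝ}
    (hz : z ∈ segment ℝ (ptP S a b P p) (ptP S a b P q))
    (hz' : z ∈ segment ℝ (ptP S a b P p') (ptP S a b P q')) : ∃ v, z = P v := by
  simp only [List.nodup_cons, List.mem_cons, List.not_mem_nil, or_false, not_or, not_false_eq_true,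
    List.nodup_nil, and_true] at hnd
  obtain ⟨⟨-, n1, n2⟩, ⟨n3, n4⟩, -⟩ := hnd
  have htm : ∀ (x : T × Bool), Pj src tgt pl a b n j (Sum.inl x : Port T I) → pl (tv a b x) = j := by
    rintro ⟨τ, e⟩ h
    cases e
    · exact h.2
    · exact h.2
  have hdr : ∀ (y : I × Bool × ℕ), Pj src tgt pl a b n j (Sum.inr y : Port T I) →
      S.dr y.1 y.2.1 y.2.2 ∈ crect (L.x0 j) (L.x1 j) (L.y0 j) (L.y1 j) ∧
        S.dr y.1 y.2.1 y.2.2 ∉ orect (L.x0 j) (L.x1 j) (L.y0 j) (L.y1 j) := by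
    rintro ⟨i, e, l⟩ h
    have h2 : nend src tgt i e = j := h.2
    refine ⟨?_, st_nore S (dr_mem S i e l) j⟩
    have := dr_cre S i e l
    rw [h2] at this
    exact this
  have main : ∀ (x x' : T × Bool) (y y' : I × Bool × ℕ),
      Pj src tgt pl a b n j (Sum.inl x : Port T I) → Pj src tgt pl a b n j (Sum.inl x' : Port T I) →
      Pj src tgt pl a b n j (Sum.inr y : Port T I) → Pj src tgt pl a b n j (Sum.inr y' : Port T I) →
      y ≠ y' → z ∈ segment ℝ (P (tv a b x)) (S.dr y.1 y.2.1 y.2.2) →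
      z ∈ segment ℝ (P (tv a b x')) (S.dr y'.1 y'.2.1 y'.2.2) → ∃ v, z = P v := by
    intro x x' y y' hx hx' hy hy' hyy h3 h4
    refine ⟨tv a b x, ?_⟩
    have e1 : tv a b x' = tv a b x := h1 _ _ (htm _ hx') (htm _ hx)
    rw [e1] at h4
    have e2 := hP _ (htm _ hx)
    rw [e2] at h3 h4 ⊢
    refine star_disj _ _ _ z (ctr_mem (L.hx j) (L.hy j)) (hdr y hy).1 (hdr y hy).2
      (hdr y' hy').1 (hdr y' hy').2 ?_ h3 h4
    intro h5
    obtain ⟨e3, e4, e5⟩ := dr_inj S h5
    exact hyy (Prod.ext e3 (Prod.ext e4 e5))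
  rcases hu with ⟨x, y, rfl, rfl⟩ | ⟨y, x, rfl, rfl⟩ <;>
    rcases hu' with ⟨x', y', rfl, rfl⟩ | ⟨y', x', rfl, rfl⟩
  · exact main x x' y y' hp hp' hq hq' (fun h => n4 (by rw [h])) hz hz'
  · rw [segment_symm] at hz'
    exact main x x' y y' hp hq' hq hp' (fun h => n3 (by rw [h])) hz hz'
  · rw [segment_symm] at hz
    exact main x x' y y' hq hp' hp hq' (fun h => n2 (by rw [h])) hz hz'
  · rw [segment_symm] at hz hz'
    exact main x x' y y' hq hq' hp hp' (fun h => n1 (by rw [h])) hz hz'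

theorem exists_BH [Finite I] [Finite U] [Finite T] (S : Lns L) (pl : U → J) (a b : T → U)
    (n : ℕ) (Hb : Set J) (h1 : ∀ u u', pl u ∈ Hb → pl u = pl u' → u = u') :
    Nonempty (BH S pl a b n Hb) := by
  classical
  obtain ⟨K⟩ := exists_BL S pl a b n
  let P : U → ℝ × ℝ := fun v => if pl v ∈ Hb then
    ctr (L.x0 (pl v)) (L.x1 (pl v)) (L.y0 (pl v)) (L.y1 (pl v)) else K.P v
  have hPh : ∀ v, pl v ∈ Hb → P v = ctr (L.x0 (pl v)) (L.x1 (pl v)) (L.y0 (pl v)) (L.y1 (pl v)) :=
    fun v h => if_pos h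
  have hPn : ∀ v, pl v ∉ Hb → P v = K.P v := fun v h => if_neg h
  have hPmem : ∀ v, P v ∈ Ore L (pl v) := by
    intro v
    by_cases h : pl v ∈ Hb
    · rw [hPh v h]
      exact ctr_mem (L.hx _) (L.hy _)
    · rw [hPn v h]
      exact K.P_mem v
  let C : J → Port T I → Port T I → Set (ℝ × ℝ) := fun j p q =>
    if j ∈ Hb then segment ℝ (ptP S a b P p) (ptP S a b P q) else K.C j p q
  have hCh : ∀ j p q, j ∈ Hb → C j p q = segment ℝ (ptP S a b P p) (ptP S a b P q) :=
    fun j p q h => if_pos h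
  have hCn : ∀ j p q, j ∉ Hb → C j p q = K.C j p q := fun j p q h => if_neg h
  have htm : ∀ j (x : T × Bool), Pj src tgt pl a b n j (Sum.inl x : Port T I) →
      pl (tv a b x) = j := by
    rintro j ⟨τ, e⟩ h
    cases e
    · exact h.2
    · exact h.2
  have hpt : ∀ j (p : Port T I), j ∉ Hb → Pj src tgt pl a b n j p →
      ptP S a b P p = ptP S a b K.P p := by
    rintro j (x | y) hj h
    · have h2 := htm j x h
      exact hPn _ (by rw [h2]; exact hj)
    · rfl
  have hdr : ∀ j (y : I × Bool × ℕ), Pj src tgt pl a b n j (Sum.inr y : Port T I) →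
      S.dr y.1 y.2.1 y.2.2 ∈ crect (L.x0 j) (L.x1 j) (L.y0 j) (L.y1 j) ∧
        S.dr y.1 y.2.1 y.2.2 ∉ orect (L.x0 j) (L.x1 j) (L.y0 j) (L.y1 j) := by
    rintro j ⟨i, e, l⟩ h
    have h2 : nend src tgt i e = j := h.2
    refine ⟨?_, st_nore S (dr_mem S i e l) j⟩
    have := dr_cre S i e l
    rw [h2] at this
    exact this
  have hctr : ∀ j (x : T × Bool), j ∈ Hb → Pj src tgt pl a b n j (Sum.inl x : Port T I) →
      P (tv a b x) = ctr (L.x0 j) (L.x1 j) (L.y0 j) (L.y1 j) := by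
    intro j x hj h
    have h2 := htm j x h
    rw [hPh _ (by rw [h2]; exact hj), h2]
  -- a point of a star
  have hstar : ∀ j (x : T × Bool) (y : I × Bool × ℕ), j ∈ Hb →
      Pj src tgt pl a b n j (Sum.inl x : Port T I) → Pj src tgt pl a b n j (Sum.inr y : Port T I) →
      ∀ z ∈ segment ℝ (P (tv a b x)) (S.dr y.1 y.2.1 y.2.2),
        z = S.dr y.1 y.2.1 y.2.2 ∨ z ∈ Ore L j := by
    intro j x y hj hx hy z hz
    rw [hctr j x hj hx] at hz
    exact seg_orect _ _ _ (ctr_mem (L.hx j) (L.hy j)) (hdr j y hy).1 hz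
  have hne : ∀ j (x : T × Bool) (y : I × Bool × ℕ),
      Pj src tgt pl a b n j (Sum.inl x : Port T I) → Pj src tgt pl a b n j (Sum.inr y : Port T I) →
      P (tv a b x) ≠ S.dr y.1 y.2.1 y.2.2 := by
    intro j x y hx hy h
    have h2 := hPmem (tv a b x)
    rw [htm j x hx, h] at h2
    exact (hdr j y hy).2 h2
  have hvj : ∀ j v, P v ∈ Ore L j → pl v = j := fun j v h =>
    cre_ore (ore_sub_cre (hPmem v)) h
  have hvdr : ∀ v i e l, P v ≠ S.dr i e l := by
    intro v i e l h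
    have h2 := hPmem v
    rw [h] at h2
    exact st_nore S (dr_mem S i e l) _ h2
  refine ⟨⟨K.ν, P, C, hPmem, ?_, ?_, ?_, ?_, ?_, ?_⟩⟩
  · intro v w h
    have h2 : pl v = pl w := by
      have h2 := hPmem v
      rw [h] at h2
      exact (hvj _ _ h2).symm
    by_cases hv : pl v ∈ Hb
    · exact h1 v w hv h2
    · rw [hPn v hv, hPn w (by rw [← h2]; exact hv)] at h
      exact K.P_inj h
  · intro j p q hp hq hU hpq ht
    by_cases hj : j ∈ Hb
    · rw [hCh j p q hj]
      refine isArc_segment ?_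
      rcases hU hj with ⟨x, y, rfl, rfl⟩ | ⟨y, x, rfl, rfl⟩
      · exact hne j x y hp hq
      · exact (hne j x y hq hp).symm
    · rw [hCn j p q hj, hpt j p hj hp, hpt j q hj hq]
      exact K.isArc j p q hp hq hpq ht
  · intro j p q hp hq hU z hz
    by_cases hj : j ∈ Hb
    · rw [hCh j p q hj] at hz
      rcases hU hj with ⟨x, y, rfl, rfl⟩ | ⟨y, x, rfl, rfl⟩
      · rcases hstar j x y hj hp hq z hz with h | h
        · exact Or.inr ⟨y.1, y.2.1, y.2.2, Or.inr rfl, h⟩
        · exact Or.inl h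
      · rw [segment_symm] at hz
        rcases hstar j x y hj hq hp z hz with h | h
        · exact Or.inr ⟨y.1, y.2.1, y.2.2, Or.inl rfl, h⟩
        · exact Or.inl h
    · rw [hCn j p q hj] at hz
      exact K.sub j p q hp hq z hz
  · intro j p q hp hq hU v hz
    by_cases hj : j ∈ Hb
    · rw [hCh j p q hj] at hz
      rcases hU hj with ⟨x, y, rfl, rfl⟩ | ⟨y, x, rfl, rfl⟩
      · left
        rcases hstar j x y hj hp hq _ hz with h | h
        · exact absurd h (hvdr _ _ _ _)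
        · have h2 := hvj j v h
          have h3 := htm j x hp
          have h4 : tv a b x = v := h1 _ _ (by rw [h3]; exact hj) (by rw [h3, h2])
          rw [← h4]
          rfl
      · right
        rw [segment_symm] at hz
        rcases hstar j x y hj hq hp _ hz with h | h
        · exact absurd h (hvdr _ _ _ _)
        · have h2 := hvj j v h
          have h3 := htm j x hq
          have h4 : tv a b x = v := h1 _ _ (by rw [h3]; exact hj) (by rw [h3, h2])
          rw [← h4]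
          rfl
    · rw [hCn j p q hj] at hz
      have h2 : pl v = j := by
        rcases K.sub j p q hp hq _ hz with h | ⟨i, e, l, -, h⟩
        · exact hvj j v h
        · exact absurd h (hvdr _ _ _ _)
      rw [hPn v (by rw [h2]; exact hj)] at hz
      exact K.term j p q hp hq v hz
  · intro j p q p' q' hp hq hp' hq' hU hU' hnd
    by_cases hj : j ∈ Hb
    · refine ⟨∅, Set.subsingleton_empty, fun h => absurd h Set.not_nonempty_empty, ?_⟩
      intro z hz hz'
      right
      rw [hCh j p q hj] at hz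
      rw [hCh j p' q' hj] at hz'
      exact star_two S P (fun v hv => by rw [hPh v (by rw [hv]; exact hj), hv])
        (fun u u' hu hu' => h1 u u' (by rw [hu]; exact hj) (by rw [hu, hu']))
        hp hq hp' hq' (hU hj) (hU' hj) hnd hz hz'
    · obtain ⟨X, x1, x2, x3⟩ := K.cross j p q p' q' hp hq hp' hq' hnd
      refine ⟨X, x1, fun h => ⟨x2 h, hj⟩, ?_⟩
      intro z hz hz'
      rw [hCn j p q hj] at hz
      rw [hCn j p' q' hj] at hz'
      rcases x3 z hz hz' with h | ⟨v, h⟩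
      · exact Or.inl h
      · refine Or.inr ⟨v, ?_⟩
        have h2 : pl v = j := by
          rw [h] at hz
          rcases K.sub j p q hp hq _ hz with h' | ⟨i, e, l, -, h'⟩
          · exact cre_ore (ore_sub_cre (K.P_mem v)) h'
          · exfalso
            have h3 := K.P_mem v
            rw [h'] at h3
            exact st_nore S (dr_mem S i e l) _ h3
        rw [hPn v (by rw [h2]; exact hj)]
        exact h
  · intro j p q p' q' p'' q'' hp hq hp' hq' hp'' hq'' hU hU' hU'' hnd z hz hz' hz''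
    by_cases hj : j ∈ Hb
    · rw [hCh j p q hj] at hz
      rw [hCh j p' q' hj] at hz'
      have hnd4 : [p, q, p', q'].Nodup := by
        have := hnd.sublist (l₁ := [p, q, p', q']) (by simp)
        exact this
      exact star_two S P (fun v hv => by rw [hPh v (by rw [hv]; exact hj), hv])
        (fun u u' hu hu' => h1 u u' (by rw [hu]; exact hj) (by rw [hu, hu']))
        hp hq hp' hq' (hU hj) (hU' hj) hnd4 hz hz'
    · rw [hCn j p q hj] at hz
      rw [hCn j p' q' hj] at hz'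
      rw [hCn j p'' q'' hj] at hz''
      obtain ⟨v, h⟩ := K.triple j p q p' q' p'' q'' hp hq hp' hq' hp'' hq'' hnd z hz hz' hz''
      refine ⟨v, ?_⟩
      have h2 : pl v = j := by
        rw [h] at hz
        rcases K.sub j p q hp hq _ hz with h' | ⟨i, e, l, -, h'⟩
        · exact cre_ore (ore_sub_cre (K.P_mem v)) h'
        · exfalso
          have h3 := K.P_mem v
          rw [h'] at h3
          exact st_nore S (dr_mem S i e l) _ h3
      rw [hPn v (by rw [h2]; exact hj)]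
      exact h

end Bl

/-! ## The curves -/

section Curve

variable {J I U T : Type} {src tgt : I → J} {L : Layout J I src tgt} {S : Lns L} {pl : U → J}
  {a b : T → U} {n : ℕ} {Hb : Set J}

theorem blk_cre (K : BH S pl a b n Hb) {j : J} {p q : Port T I} (hp : Pj src tgt pl a b n j p)
    (hq : Pj src tgt pl a b n j q) (hU : Us Hb j p q) {z : ℝ × ℝ} (hz : z ∈ K.C j p q) :
    z ∈ Cre L j := by
  rcases K.sub j p q hp hq hU z hz with h | ⟨i, e, l, h, h'⟩
  · exact ore_sub_cre h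
  · rw [h']
    have h1 : nend src tgt i e = j := by
      rcases h with h | h
      · subst h; exact hp.2
      · subst h; exact hq.2
    rw [← h1]
    exact dr_cre S i e l

theorem blk_blk (K : BH S pl a b n Hb) {j j' : J} {p q p' q' : Port T I}
    (hp : Pj src tgt pl a b n j p) (hq : Pj src tgt pl a b n j q) (hU : Us Hb j p q)
    (hp' : Pj src tgt pl a b n j' p') (hq' : Pj src tgt pl a b n j' q') (hU' : Us Hb j' p' q')
    {z : ℝ × ℝ} (hz : z ∈ K.C j p q) (hz' : z ∈ K.C j' p' q') : j = j' := by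
  have h2 := blk_cre K hp' hq' hU' hz'
  rcases K.sub j p q hp hq hU z hz with h | ⟨i, e, l, h, h'⟩
  · exact (cre_ore h2 h).symm
  · have h1 : nend src tgt i e = j := by
      rcases h with h | h
      · subst h; exact hp.2
      · subst h; exact hq.2
    have h3 : z ∈ S.St i l := by rw [h']; exact dr_mem S i e l
    obtain ⟨e', h4, h5⟩ := cre_st S h2 h3
    rw [h'] at h5
    obtain ⟨-, h6, -⟩ := dr_inj S h5
    rw [← h1, ← h4, h6]

theorem blk_st (K : BH S pl a b n Hb) {j : J} {p q : Port T I} (hp : Pj src tgt pl a b n j p)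
    (hq : Pj src tgt pl a b n j q) (hU : Us Hb j p q) {z : ℝ × ℝ} (hz : z ∈ K.C j p q) {i : I}
    {l : ℕ} (hz' : z ∈ S.St i l) :
    ∃ e, (p = Sum.inr (i, e, l) ∨ q = Sum.inr (i, e, l)) ∧ z = S.dr i e l := by
  rcases K.sub j p q hp hq hU z hz with h | ⟨i', e, l', h, h'⟩
  · exact absurd h (st_nore S hz' j)
  · have h3 : z ∈ S.St i' l' := by rw [h']; exact dr_mem S i' e l'
    obtain ⟨h4, h5⟩ := st_disj S hz' h3
    subst h4; subst h5
    exact ⟨e, h, h'⟩

variable (K : BH S pl a b n Hb) (R : Rt J I src tgt) (τ : T) (l : I → ℕ)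

/-- the curve up to the block of `R.nd m` -/
def cur (m : ℕ) : Set (ℝ × ℝ) :=
  {z | (∃ t ≤ m, z ∈ K.C (R.nd t) (R.ent τ l t) (R.ext τ l t)) ∨
    ∃ t < m, z ∈ S.St (R.ar t) (l (R.ar t))}

theorem cur_arc (h1 : ∀ t ≤ R.len, Pj src tgt pl a b n (R.nd t) (R.ent τ l t))
    (h2 : ∀ t ≤ R.len, Pj src tgt pl a b n (R.nd t) (R.ext τ l t))
    (hU : ∀ t ≤ R.len, Us Hb (R.nd t) (R.ent τ l t) (R.ext τ l t)) (hab : a τ ≠ b τ) :
    ∀ m ≤ R.len, IsArc (cur K R τ l m) (K.P (a τ)) (ptP S a b K.P (R.ext τ l m)) := by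
  have htm : ∀ t ≤ R.len, tmP a b (R.ent τ l t) ≠ tmP a b (R.ext τ l t) ∨
      tmP a b (R.ent τ l t) = none := by
    intro t ht
    rcases h3 : R.ent τ l t with q | q
    · left
      obtain ⟨h4, h5⟩ := ent_inl h3
      rcases h6 : R.ext τ l t with q' | q'
      · obtain ⟨h7, h8⟩ := ext_inl h6
        rw [h5, h8]
        simp only [tmP, tv]
        intro h
        exact hab (Option.some.inj h)
      · simp [tmP]
    · right
      rfl
  have hC : ∀ t ≤ R.len, IsArc (K.C (R.nd t) (R.ent τ l t) (R.ext τ l t))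
      (ptP S a b K.P (R.ent τ l t)) (ptP S a b K.P (R.ext τ l t)) := fun t ht =>
    K.isArc _ _ _ (h1 t ht) (h2 t ht) (hU t ht) (ent_ne_ext R τ l ht) (htm t ht)
  intro m
  induction m with
  | zero =>
    intro h0
    have h3 : cur K R τ l 0 = K.C (R.nd 0) (R.ent τ l 0) (R.ext τ l 0) := by
      ext z
      constructor
      · rintro (⟨t, ht, hz⟩ | ⟨t, ht, -⟩)
        · obtain rfl : t = 0 := by omega
          exact hz
        · omega
      · intro hz
        exact Or.inl ⟨0, le_rfl, hz⟩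
    rw [h3]
    exact hC 0 h0
  | succ m ih =>
    intro hm
    have hm' : m < R.len := hm
    have ih' := ih hm'.le
    have hext : R.ext τ l m = Sum.inr (R.ar m, R.dir m, l (R.ar m)) := by
      unfold Rt.ext
      rw [if_neg (by omega)]
    rw [hext] at ih'
    have hst : IsArc (S.St (R.ar m) (l (R.ar m))) (S.dr (R.ar m) (R.dir m) (l (R.ar m)))
        (S.dr (R.ar m) (!R.dir m) (l (R.ar m))) := by
      cases R.dir m
      · exact S.isArc _ _
      · exact (S.isArc _ _).symm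
    have hdec : cur K R τ l (m + 1) = (cur K R τ l m ∪ S.St (R.ar m) (l (R.ar m))) ∪
        K.C (R.nd (m + 1)) (R.ent τ l (m + 1)) (R.ext τ l (m + 1)) := by
      ext z
      constructor
      · rintro (⟨t, ht, hz⟩ | ⟨t, ht, hz⟩)
        · rcases Nat.lt_or_ge m t with h | h
          · obtain rfl : t = m + 1 := by omega
            exact Or.inr hz
          · exact Or.inl (Or.inl (Or.inl ⟨t, h, hz⟩))
        · rcases Nat.lt_or_ge t m with h | h
          · exact Or.inl (Or.inl (Or.inr ⟨t, h, hz⟩))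
          · obtain rfl : t = m := by omega
            exact Or.inl (Or.inr hz)
      · rintro (((⟨t, ht, hz⟩ | ⟨t, ht, hz⟩) | hz) | hz)
        · exact Or.inl ⟨t, by omega, hz⟩
        · exact Or.inr ⟨t, by omega, hz⟩
        · exact Or.inr ⟨m, by omega, hz⟩
        · exact Or.inl ⟨m + 1, le_rfl, hz⟩
    rw [hdec]
    refine (IsArc.union (IsArc.union ih' hst ?_) (hC (m + 1) hm) ?_)
    · rintro z (⟨t, ht, hz⟩ | ⟨t, ht, hz⟩) hz'
      · obtain ⟨e, h3, h4⟩ := blk_st K (h1 t (by omega)) (h2 t (by omega)) (hU t (by omega)) hz hz'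
        rcases h3 with h3 | h3
        · obtain ⟨s, h5, h6, -, -⟩ := ent_inr h3
          have := R.ar_inj (by omega) hm' h6
          omega
        · obtain ⟨h5, h6, h7, -⟩ := ext_inr h3
          have h8 := R.ar_inj (by omega) hm' h6
          subst h8
          rw [h4, h7]
          rfl
      · obtain ⟨h3, -⟩ := st_disj S hz hz'
        have := R.ar_inj (by omega) hm' h3
        omega
    · rintro z ((⟨t, ht, hz⟩ | ⟨t, ht, hz⟩) | hz) hz'
      · have h3 := blk_blk K (h1 t (by omega)) (h2 t (by omega)) (hU t (by omega))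
          (h1 _ hm) (h2 _ hm) (hU _ hm) hz hz'
        have := R.inj _ _ (by omega) hm h3
        omega
      · exfalso
        obtain ⟨e, h3, h4⟩ := blk_st K (h1 _ hm) (h2 _ hm) (hU _ hm) hz' hz
        rcases h3 with h3 | h3
        · obtain ⟨s, h5, h6, -, -⟩ := ent_inr h3
          have := R.ar_inj (by omega) (by omega) h6
          omega
        · obtain ⟨h5, h6, -, -⟩ := ext_inr h3
          have := R.ar_inj (by omega) (by omega) h6
          omega
      · obtain ⟨e, h3, h4⟩ := blk_st K (h1 _ hm) (h2 _ hm) (hU _ hm) hz' hz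
        rcases h3 with h3 | h3
        · obtain ⟨s, h5, h6, h7, -⟩ := ent_inr h3
          have h8 := R.ar_inj (by omega) (by omega) h6
          subst h8
          rw [h4, h7]
        · obtain ⟨h5, h6, -, -⟩ := ext_inr h3
          have := R.ar_inj (by omega) (by omega) h6
          omega

end Curve

/-- the pairs of ports of a route at the hubs -/
theorem us_route {J I U T : Type} {src tgt : I → J} {pl : U → J} {a b : T → U} {Hb : Set J}
    (hab : ∀ τ, a τ ≠ b τ) (h1 : ∀ u u', pl u ∈ Hb → pl u = pl u' → u = u')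
    {R : T → Rt J I src tgt} (hF : ∀ τ, (R τ).From (pl (a τ)) (pl (b τ)))
    (hH : ∀ τ, ∀ t ≤ (R τ).len, (R τ).nd t ∈ Hb → t = 0 ∨ t = (R τ).len) (lam : T → I → ℕ)
    (τ : T) {t : ℕ} (ht : t ≤ (R τ).len) :
    Us Hb ((R τ).nd t) ((R τ).ent τ (lam τ) t) ((R τ).ext τ (lam τ) t) := by
  intro hj
  have h0 : (R τ).len ≠ 0 := by
    intro h0
    obtain rfl : t = 0 := by omega
    have h2 := (hF τ).1
    have h3 := (hF τ).2
    rw [h0] at h3
    rw [h2] at hj
    exact hab τ (h1 _ _ hj (h2.symm.trans h3))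
  rcases hH τ t ht hj with h | h
  · subst h
    left
    refine ⟨(τ, false), ((R τ).ar 0, (R τ).dir 0, lam τ ((R τ).ar 0)), rfl, ?_⟩
    unfold Rt.ext
    rw [if_neg (Ne.symm h0)]
  · subst h
    right
    obtain ⟨s, hs⟩ : ∃ s, (R τ).len = s + 1 := Nat.exists_eq_succ_of_ne_zero h0
    refine ⟨((R τ).ar s, !(R τ).dir s, lam τ ((R τ).ar s)), (τ, true), ?_, ?_⟩
    · rw [hs]
      rfl
    · unfold Rt.ext
      rw [if_pos rfl]

theorem geo {J I U T : Type} [Finite J] [Finite I] [Finite U] [Finite T] {src tgt : I → J}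
    (hst : ∀ i, src i ≠ tgt i) (L : Layout J I src tgt) (pl : U → J) (a b : T → U)
    (hab : ∀ τ, a τ ≠ b τ) (n : ℕ) (Hb : Set J)
    (h1 : ∀ u u', pl u ∈ Hb → pl u = pl u' → u = u') :
    ∃ ν : Port T I → ℕ,
      ∀ (R : T → Rt J I src tgt) (lam : T → I → ℕ), (∀ τ, (R τ).From (pl (a τ)) (pl (b τ))) →
        (∀ τ, ∀ t ≤ (R τ).len, (R τ).nd t ∈ Hb → t = 0 ∨ t = (R τ).len) →
        Lanes R n lam → ∃ (P : U → ℝ × ℝ) (E : T → Set (ℝ × ℝ)), Drw a b P E ∧
          ∀ τ τ', τ ≠ τ' → (Xs P E τ τ').encard ≤ {j | XJ R ν lam τ τ' j ∧ j ∉ Hb}.encard := by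
  classical
  obtain ⟨S⟩ := exists_lns hst L
  obtain ⟨K⟩ := exists_BH S pl a b n Hb h1
  refine ⟨K.ν, ?_⟩
  intro R lam hF hH hL
  have hent := fun τ {t : ℕ} (ht : t ≤ (R τ).len) => ent_pj hF hL τ ht
  have hext := fun τ {t : ℕ} (ht : t ≤ (R τ).len) => ext_pj hF hL τ ht
  have hus := fun τ {t : ℕ} (ht : t ≤ (R τ).len) => us_route hab h1 hF hH lam τ ht
  -- common points of two curves
  have key : ∀ τ τ', τ ≠ τ' → ∀ z ∈ cur K (R τ) τ (lam τ) (R τ).len,
      z ∈ cur K (R τ') τ' (lam τ') (R τ').len →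
      ∃ s ≤ (R τ).len, ∃ t ≤ (R τ').len, (R τ).nd s = (R τ').nd t ∧
        z ∈ K.C ((R τ).nd s) ((R τ).ent τ (lam τ) s) ((R τ).ext τ (lam τ) s) ∧
        z ∈ K.C ((R τ').nd t) ((R τ').ent τ' (lam τ') t) ((R τ').ext τ' (lam τ') t) := by
    intro τ τ' hne z hz hz'
    rcases hz with ⟨s, hs, hz⟩ | ⟨s, hs, hz⟩ <;> rcases hz' with ⟨t, ht, hz'⟩ | ⟨t, ht, hz'⟩
    · exact ⟨s, hs, t, ht, blk_blk K (hent τ hs) (hext τ hs) (hus τ hs) (hent τ' ht)
        (hext τ' ht) (hus τ' ht) hz hz', hz, hz'⟩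
    · exfalso
      obtain ⟨e, h3, -⟩ := blk_st K (hent τ hs) (hext τ hs) (hus τ hs) hz hz'
      rcases h3 with h3 | h3
      · obtain ⟨u, h5, h6, -, h8⟩ := ent_inr h3
        exact hL.ne τ τ' hne u (by omega) t ht h6 (by rw [h6]; exact h8.symm)
      · obtain ⟨h5, h6, -, h8⟩ := ext_inr h3
        exact hL.ne τ τ' hne s (by omega) t ht h6 (by rw [h6]; exact h8.symm)
    · exfalso
      obtain ⟨e, h3, -⟩ := blk_st K (hent τ' ht) (hext τ' ht) (hus τ' ht) hz' hz
      rcases h3 with h3 | h3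
      · obtain ⟨u, h5, h6, -, h8⟩ := ent_inr h3
        exact hL.ne τ' τ hne.symm u (by omega) s hs h6 (by rw [h6]; exact h8.symm)
      · obtain ⟨h5, h6, -, h8⟩ := ext_inr h3
        exact hL.ne τ' τ hne.symm t (by omega) s hs h6 (by rw [h6]; exact h8.symm)
    · exfalso
      obtain ⟨h3, h4⟩ := st_disj S hz hz'
      exact hL.ne τ τ' hne s hs t ht h3 h4
  refine ⟨K.P, fun τ => cur K (R τ) τ (lam τ) (R τ).len, ⟨K.P_inj, ?_, ?_, ?_⟩, ?_⟩
  · intro τ
    have h1 := cur_arc K (R τ) τ (lam τ) (fun t ht => hent τ ht) (fun t ht => hext τ ht)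
      (fun t ht => hus τ ht) (hab τ) (R τ).len le_rfl
    have h2 : (R τ).ext τ (lam τ) (R τ).len = Sum.inl (τ, true) := by
      unfold Rt.ext
      rw [if_pos rfl]
    rw [h2] at h1
    exact h1
  · rintro τ u (⟨t, ht, hz⟩ | ⟨t, ht, hz⟩)
    · rcases K.term _ _ _ (hent τ ht) (hext τ ht) (hus τ ht) u hz with h | h
      · rcases h1 : (R τ).ent τ (lam τ) t with q | q
        · rw [h1] at h
          have h2 := Option.some.inj h
          rw [(ent_inl h1).2] at h2
          exact Or.inl h2.symm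
        · rw [h1] at h
          exact absurd h (by simp [tmP])
      · rcases h1 : (R τ).ext τ (lam τ) t with q | q
        · rw [h1] at h
          have h2 := Option.some.inj h
          rw [(ext_inl h1).2] at h2
          exact Or.inr h2.symm
        · rw [h1] at h
          exact absurd h (by simp [tmP])
    · exact absurd (K.P_mem u) (st_nore S hz _)
  · intro τ τ' τ'' h1 h2 h3 z hz hz' hz''
    obtain ⟨s, hs, t, ht, hj, g1, g2⟩ := key τ τ' h1 z hz hz'
    obtain ⟨s', hs', u, hu, hj', g3, g4⟩ := key τ τ'' h2 z hz hz''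
    have h4 : s = s' := (R τ).inj _ _ hs hs'
      (blk_blk K (hent τ hs) (hext τ hs) (hus τ hs) (hent τ hs') (hext τ hs') (hus τ hs') g1 g3)
    subst h4
    have e1 := hent τ' ht
    have e2 := hext τ' ht
    have e3 := hent τ'' hu
    have e4 := hext τ'' hu
    have e5 := hus τ' ht
    have e6 := hus τ'' hu
    rw [← hj] at g2 e1 e2 e5
    rw [← hj'] at g4 e3 e4 e6
    exact K.triple _ _ _ _ _ _ _ (hent τ hs) (hext τ hs) e1 e2 e3 e4 (hus τ hs) e5 e6
      (nodup6 hL h1 h2 h3 hs ht hu) z g1 g2 g4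
  · intro τ τ' hne
    -- the node of a crossing
    have hX : ∀ z ∈ Xs K.P (fun τ => cur K (R τ) τ (lam τ) (R τ).len) τ τ', ∃ j,
        ∃ s ≤ (R τ).len, ∃ t ≤ (R τ').len, (R τ).nd s = j ∧ (R τ').nd t = j ∧
          z ∈ K.C j ((R τ).ent τ (lam τ) s) ((R τ).ext τ (lam τ) s) ∧
          z ∈ K.C j ((R τ').ent τ' (lam τ') t) ((R τ').ext τ' (lam τ') t) := by
      rintro z ⟨hz, hz', -⟩
      obtain ⟨s, hs, t, ht, hj, g1, g2⟩ := key τ τ' hne z hz hz'
      exact ⟨(R τ).nd s, s, hs, t, ht, rfl, hj.symm, g1, hj ▸ g2⟩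
    let f : ℝ × ℝ → J := fun z =>
      if hz : z ∈ Xs K.P (fun τ => cur K (R τ) τ (lam τ) (R τ).len) τ τ' then (hX z hz).choose
      else (R τ).nd 0
    have hf : ∀ z (hz : z ∈ Xs K.P (fun τ => cur K (R τ) τ (lam τ) (R τ).len) τ τ'),
        ∃ s ≤ (R τ).len, ∃ t ≤ (R τ').len, (R τ).nd s = f z ∧ (R τ').nd t = f z ∧
          z ∈ K.C (f z) ((R τ).ent τ (lam τ) s) ((R τ).ext τ (lam τ) s) ∧
          z ∈ K.C (f z) ((R τ').ent τ' (lam τ') t) ((R τ').ext τ' (lam τ') t) := by
      intro z hz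
      have h1 : f z = (hX z hz).choose := by
        simp only [f]
        rw [dif_pos hz]
      rw [h1]
      exact (hX z hz).choose_spec
    -- crossings in one block
    have hone : ∀ j, ∀ s ≤ (R τ).len, ∀ t ≤ (R τ').len, (R τ).nd s = j → (R τ').nd t = j →
        ∃ X : Set (ℝ × ℝ), X.Subsingleton ∧ (X.Nonempty → XJ R K.ν lam τ τ' j ∧ j ∉ Hb) ∧
          ∀ z, (∀ v, z ≠ K.P v) → z ∈ K.C j ((R τ).ent τ (lam τ) s) ((R τ).ext τ (lam τ) s) →
            z ∈ K.C j ((R τ').ent τ' (lam τ') t) ((R τ').ext τ' (lam τ') t) → z ∈ X := by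
      intro j s hs t ht h1 h2
      have e1 := hent τ hs
      have e2 := hext τ hs
      have e3 := hent τ' ht
      have e4 := hext τ' ht
      have e5 := hus τ hs
      have e6 := hus τ' ht
      rw [h1] at e1 e2 e5
      rw [h2] at e3 e4 e6
      obtain ⟨X, x1, x2, x3⟩ := K.cross j _ _ _ _ e1 e2 e3 e4 e5 e6 (nodup4 hL hne hs ht)
      refine ⟨X, x1, fun hX => ⟨⟨s, hs, t, ht, h1, h2, (x2 hX).1⟩, (x2 hX).2⟩, ?_⟩
      intro z hz hz1 hz2
      rcases x3 z hz1 hz2 with h | ⟨v, h⟩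
      · exact h
      · exact absurd h (hz v)
    refine Set.encard_le_encard_of_injOn (f := f) ?_ ?_
    · intro z hz
      obtain ⟨s, hs, t, ht, h1, h2, h3, h4⟩ := hf z hz
      obtain ⟨X, x1, x2, x3⟩ := hone (f z) s hs t ht h1 h2
      exact x2 ⟨z, x3 z hz.2.2 h3 h4⟩
    · intro z hz w hw hzw
      obtain ⟨s, hs, t, ht, h1, h2, h3, h4⟩ := hf z hz
      obtain ⟨s', hs', t', ht', h1', h2', h3', h4'⟩ := hf w hw
      rw [← hzw] at h1' h2' h3' h4'
      obtain rfl : s = s' := (R τ).inj _ _ hs hs' (h1.trans h1'.symm)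
      obtain rfl : t = t' := (R τ').inj _ _ ht ht' (h2.trans h2'.symm)
      obtain ⟨X, x1, x2, x3⟩ := hone (f z) s hs t ht h1 h2
      exact x1 (x3 z hz.2.2 h3 h4) (x3 w hw.2.2 h3' h4')

end Pool.Agent.Helper83.HR
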