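import Pool.Agent.Helper83.LN.Geo
import Pool.Agent.Helper83.LN.Polar

/-!
# Half edges which stop at a small circle about the hubs

Every arc `i` of a layout is drawn as `hf i`: from the centre of the block of its source (for a hub: from the circle
of radius `1/4` about the centre) straight to the door, along the lane, and straight to the target.
-/

namespace Pool.Agent.Helper83.HR

open Set Pool.Agent.Helper83.OP Pool.Agent.Helper83.LN

/-- points of a radial segment -/
theorem seg_pol (o : ℝ × ℝ) (t r R : ℝ) (h : r ≤ R) {z : ℝ × ℝ}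
    (hz : z ∈ segment ℝ (pol o (t, r)) (pol o (t, R))) : ∃ x, r ≤ x ∧ x ≤ R ∧ z = pol o (t, x) := by
  rw [segment_eq_image'] at hz
  obtain ⟨s, ⟨h0, h1⟩, rfl⟩ := hz
  refine ⟨r + s * (R - r), by nlinarith, by nlinarith, ?_⟩
  unfold pol
  refine Prod.ext ?_ ?_
  · simp only [Prod.fst_add, Prod.smul_fst, Prod.fst_sub, smul_eq_mul]
    ring
  · simp only [Prod.snd_add, Prod.smul_snd, Prod.snd_sub, smul_eq_mul]
    ring

theorem pol_zero (o : ℝ × ℝ) (t : ℝ) : pol o (t, 0) = o := by
  unfold pol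
  refine Prod.ext ?_ ?_
  · simp
  · simp

section

variable {J I : Type} {src tgt : I → J}

/-- centre of the block -/
noncomputable def cj (L : Layout J I src tgt) (j : J) : ℝ × ℝ :=
  ctr (L.x0 j) (L.x1 j) (L.y0 j) (L.y1 j)

variable {L : Layout J I src tgt}

theorem cj_mem (j : J) : cj L j ∈ Ore L j := ctr_mem (L.hx j) (L.hy j)

theorem cj_inj {j j' : J} (h : cj L j = cj L j') : j = j' := by
  have h1 := cj_mem (L := L) j
  rw [h] at h1
  exact (cre_ore (ore_sub_cre (cj_mem (L := L) j')) h1).symm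

theorem pol_mem_ore (j : J) (t r : ℝ) (h0 : 0 < r) (h1 : r ≤ 1 / 4) :
    pol (cj L j) (t, r) ∈ Ore L j := pol_orect (L.hx j) (L.hy j) (t, r) h0 h1

variable (S : Lns L)

theorem dr_polar (i : I) (e : Bool) :
    ∃ z ∈ PD, pol (cj L (nend src tgt i e)) z = S.dr i e 0 := by
  refine exists_pol _ _ ?_
  intro h
  have h1 := cj_mem (L := L) (nend src tgt i e)
  rw [← h] at h1
  exact st_nore S (dr_mem S i e 0) _ h1

/-- polar coordinates of the door -/
noncomputable def pz (i : I) (e : Bool) : ℝ × ℝ := (dr_polar S i e).choose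

theorem pz_mem (i : I) (e : Bool) : pz S i e ∈ PD := (dr_polar S i e).choose_spec.1

theorem pz_pol (i : I) (e : Bool) : pol (cj L (nend src tgt i e)) (pz S i e) = S.dr i e 0 :=
  (dr_polar S i e).choose_spec.2

theorem pz_rad (i : I) (e : Bool) : 1 / 4 < (pz S i e).2 := by
  refine rad_ge (L.hx (nend src tgt i e)) (L.hy (nend src tgt i e)) _ (pz_mem S i e) ?_
  have h := pz_pol S i e
  unfold cj at h
  rw [h]
  exact st_nore S (dr_mem S i e 0) _

theorem pz_inj {i i' : I} {e e' : Bool} (h : nend src tgt i e = nend src tgt i' e')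
    (ht : (pz S i e).1 = (pz S i' e').1) : i = i' ∧ e = e' := by
  have h1 := pz_pol S i e
  have h2 := pz_pol S i' e'
  rw [← h] at h2
  have c1 := dr_cre S i e 0
  have c2 := dr_cre S i' e' 0
  rw [← h] at c2
  have n1 := st_nore S (dr_mem S i e 0) (nend src tgt i e)
  have n2 := st_nore S (dr_mem S i' e' 0) (nend src tgt i e)
  rw [← h1] at c1 n1
  rw [← h2] at c2 n2
  have h3 := pol_angle (L.hx _) (L.hy _) (pz S i e) (pz S i' e') (pz_mem S i e) (pz_mem S i' e')
    c1 c2 n1 n2 ht
  rw [h3] at h1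
  obtain ⟨h4, h5, -⟩ := dr_inj S (h1.symm.trans h2)
  exact ⟨h4, h5⟩

variable (Hb : Set J)

open Classical in
/-- the start point of the arc: the centre of the block, or the point on the circle -/
noncomputable def sp (i : I) (e : Bool) : ℝ × ℝ :=
  if nend src tgt i e ∈ Hb then pol (cj L (nend src tgt i e)) ((pz S i e).1, 1 / 4)
  else cj L (nend src tgt i e)

theorem sp_hub {i : I} {e : Bool} (h : nend src tgt i e ∈ Hb) :
    sp S Hb i e = pol (cj L (nend src tgt i e)) ((pz S i e).1, 1 / 4) := if_pos h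

theorem sp_non {i : I} {e : Bool} (h : nend src tgt i e ∉ Hb) :
    sp S Hb i e = cj L (nend src tgt i e) := if_neg h

theorem sp_mem (i : I) (e : Bool) : sp S Hb i e ∈ Ore L (nend src tgt i e) := by
  by_cases h : nend src tgt i e ∈ Hb
  · rw [sp_hub S Hb h]
    exact pol_mem_ore _ _ _ (by norm_num) le_rfl
  · rw [sp_non S Hb h]
    exact cj_mem _

theorem sp_seg {i : I} {e : Bool} {z : ℝ × ℝ} (hz : z ∈ segment ℝ (sp S Hb i e) (S.dr i e 0)) :
    z = S.dr i e 0 ∨ z ∈ Ore L (nend src tgt i e) :=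
  seg_orect _ _ _ (sp_mem S Hb i e) (dr_cre S i e 0) hz

theorem sp_ne (i : I) (e : Bool) : sp S Hb i e ≠ S.dr i e 0 := by
  intro h
  have h1 := sp_mem S Hb i e
  rw [h] at h1
  exact st_nore S (dr_mem S i e 0) _ h1

theorem sp_seg_hub {i : I} {e : Bool} {z : ℝ × ℝ} (h : nend src tgt i e ∈ Hb)
    (hz : z ∈ segment ℝ (sp S Hb i e) (S.dr i e 0)) :
    ∃ x, 1 / 4 ≤ x ∧ z = pol (cj L (nend src tgt i e)) ((pz S i e).1, x) := by
  rw [sp_hub S Hb h, ← pz_pol S i e] at hz
  obtain ⟨x, h1, -, h3⟩ := seg_pol _ _ _ _ (pz_rad S i e).le hz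
  exact ⟨x, h1, h3⟩

/-- the drawing of the arc `i` -/
noncomputable def hf (i : I) : Set (ℝ × ℝ) :=
  segment ℝ (sp S Hb i false) (S.dr i false 0) ∪
    (S.St i 0 ∪ segment ℝ (S.dr i true 0) (sp S Hb i true))

theorem hf_cases {i : I} {z : ℝ × ℝ} (hz : z ∈ hf S Hb i) :
    z ∈ S.St i 0 ∨ ∃ e, z ∈ segment ℝ (sp S Hb i e) (S.dr i e 0) ∧ z ∈ Ore L (nend src tgt i e) := by
  rcases hz with hz | hz | hz
  · rcases sp_seg S Hb hz with h | h
    · left
      rw [h]
      exact dr_mem S i false 0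
    · exact Or.inr ⟨false, hz, h⟩
  · exact Or.inl hz
  · rw [segment_symm] at hz
    rcases sp_seg S Hb hz with h | h
    · left
      rw [h]
      exact dr_mem S i true 0
    · exact Or.inr ⟨true, hz, h⟩

/-- a point of `hf i` in an open block -/
theorem hf_ore {i : I} {z : ℝ × ℝ} (hz : z ∈ hf S Hb i) {j : J} (hj : z ∈ Ore L j) :
    ∃ e, nend src tgt i e = j ∧ z ∈ segment ℝ (sp S Hb i e) (S.dr i e 0) := by
  rcases hf_cases S Hb hz with h | ⟨e, h, h'⟩
  · exact absurd hj (st_nore S h j)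
  · exact ⟨e, cre_ore (ore_sub_cre h') hj, h⟩

theorem hf_arc {i : I} (hst : src i ≠ tgt i) :
    IsArc (hf S Hb i) (sp S Hb i false) (sp S Hb i true) := by
  refine IsArc.union (isArc_segment (sp_ne S Hb i false)) (IsArc.union (S.isArc i 0)
    (isArc_segment (sp_ne S Hb i true).symm) ?_) ?_
  · intro p hp hp'
    rw [segment_symm] at hp'
    rcases sp_seg S Hb hp' with h | h
    · exact h
    · exact absurd h (st_nore S hp _)
  · intro p hp hp'
    rcases sp_seg S Hb hp with h | h
    · exact h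
    · exfalso
      rcases hp' with hp' | hp'
      · exact st_nore S hp' _ h
      · rw [segment_symm] at hp'
        rcases sp_seg S Hb hp' with h' | h'
        · rw [h'] at h
          exact st_nore S (dr_mem S i true 0) _ h
        · exact hst (cre_ore (ore_sub_cre h) h')

/-- common points of two arcs are centres of common nodes -/
theorem hf_common {i i' : I} (hne : i ≠ i') {z : ℝ × ℝ} (hz : z ∈ hf S Hb i)
    (hz' : z ∈ hf S Hb i') : ∃ e e', nend src tgt i e = nend src tgt i' e' ∧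
      nend src tgt i e ∉ Hb ∧ z = cj L (nend src tgt i e) := by
  rcases hf_cases S Hb hz with h | ⟨e, h, ho⟩ <;> rcases hf_cases S Hb hz' with h' | ⟨e', h', ho'⟩
  · exact absurd (st_disj S h h').1 hne
  · exact absurd ho' (st_nore S h _)
  · exact absurd ho (st_nore S h' _)
  · have hj : nend src tgt i e = nend src tgt i' e' := cre_ore (ore_sub_cre ho) ho'
    refine ⟨e, e', hj, ?_⟩
    by_cases hb : nend src tgt i e ∈ Hb
    · exfalso
      obtain ⟨x, x1, x2⟩ := sp_seg_hub S Hb hb h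
      obtain ⟨x', x1', x2'⟩ := sp_seg_hub S Hb (by rw [← hj]; exact hb) h'
      rw [← hj] at x2'
      have m1 := pz_mem S i e
      have m2 := pz_mem S i' e'
      have n1 : (((pz S i e).1, x) : ℝ × ℝ) ∈ PD :=
        ⟨m1.1, m1.2.1, lt_of_lt_of_le (by norm_num) x1⟩
      have n2 : (((pz S i' e').1, x') : ℝ × ℝ) ∈ PD :=
        ⟨m2.1, m2.2.1, lt_of_lt_of_le (by norm_num) x1'⟩
      have h3 : (((pz S i e).1, x) : ℝ × ℝ) = ((pz S i' e').1, x') :=
        pol_inj (cj L (nend src tgt i e)) n1 n2 (x2.symm.trans x2')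
      exact hne (pz_inj S hj (Prod.mk.inj h3).1).1
    · refine ⟨hb, ?_⟩
      rw [sp_non S Hb hb] at h
      rw [sp_non S Hb (by rw [← hj]; exact hb), ← hj] at h'
      have c1 := dr_cre S i e 0
      have c2 := dr_cre S i' e' 0
      rw [← hj] at c2
      refine star_disj _ _ _ z (cj_mem (L := L) (nend src tgt i e)) c1
        (st_nore S (dr_mem S i e 0) _) c2 (st_nore S (dr_mem S i' e' 0) _) ?_ h h'
      intro h4
      exact hne (dr_inj S h4).1

end

end Pool.Agent.Helper83.HR
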