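import Pool.Agent.Helper83.HR.OldSys
import Pool.Agent.Helper83.OP.Planarize
import Pool.Agent.Helper83.OP.LayoutEx

/-!
# Closure and surgery with hubs, general form

`R` a 1-planar graph with hub vertices `U`; `G` a graph with threads `Th`, its vertices are placed at vertices of `R`.
The threads outside `S0` have old curves in `R`. If the places of the ends of every thread are near each other in
`R` minus the hubs (for a thread which ends at a hub: the place of the start is near a neighbour of the hub), then `G` is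
`K`-planar.
-/

open Set
open Pool.Agent.Helper83.OP Pool.Agent.Helper83.LN Pool.Agent.Helper93.UP

namespace Pool.Agent.Helper83.HR

theorem surg_gen (C K1 : ℕ) : ∃ K : ℕ, ∀ (V V' T : Type) [Finite V] [Finite V'] [Fintype T]
    (G : SimpleGraph V) (R : SimpleGraph V') (U : Set V') (Th : Threads G T) (pl : V → V')
    (z : T → ℕ → V') (zl : T → ℕ) (r : ℕ) (S0 : Finset T),
    KPl 1 R → R.edgeSet.Nonempty →
    (∀ a ∈ U, ∀ v, R.Adj a v → deg R v ≤ 4) →
    (∀ v, v ∉ U → deg R v ≤ C * r) → 1 ≤ r → S0.card ≤ C * r →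
    (∀ τ, r ≤ Th.len τ) → (∀ τ, τ ∉ S0 → Th.len τ ≤ 2 * r) →
    (∀ u u', pl u ∈ U → pl u = pl u' → u = u') →
    OldSys R U (S0 : Set T) z zl →
    (∀ τ, τ ∉ S0 → z τ 0 = pl (Th.x τ 0) ∧ z τ (zl τ) = pl (Th.x τ (Th.len τ)) ∧
      zl τ ≤ Th.len τ + 1) →
    (∀ τ, ∃ w, (w = pl (Th.x τ (Th.len τ)) ∨
        (pl (Th.x τ (Th.len τ)) ∈ U ∧ R.Adj w (pl (Th.x τ (Th.len τ))))) ∧
      ∃ p : R.Walk (pl (Th.x τ 0)) w, (∀ x ∈ p.support, x ∉ U) ∧
        2 * (p.support.map (deg R)).sum + 8 * p.length ≤ K1 * Th.len τ) →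
    KPl K G := by
  classical
  obtain ⟨K, hK⟩ := load_abs (5 * C + 20) (K1 + 36 * C + 120)
  refine ⟨K, ?_⟩
  intro V V' T _ _ _ G R U Th pl z zl r S0 hR hne hdoor hdeg hr hS0 hlen hlen2 hone hO hz hwalk
  obtain ⟨pos, γ0, hd, h1⟩ := hR
  obtain ⟨Z, ⟨P⟩⟩ := planarize R pos γ0 hd (fun e he => by simpa using h1 e he)
  have hJ : Finite Z.J := Z.fin
  have hJF : Fintype Z.J := Fintype.ofFinite _
  obtain ⟨L⟩ := exists_layout (plz_ne Z) P
  have hIne : Nonempty (R.edgeSet × Bool) := by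
    obtain ⟨e, he⟩ := hne
    exact ⟨(⟨e, he⟩, true)⟩
  -- the price of a hub
  set M : ℕ := 1 + ∑ τ : T, (K1 * Th.len τ + 12) with hM
  have hM1 : ∀ τ, K1 * Th.len τ + 12 < M := by
    intro τ
    have := Finset.single_le_sum (f := fun τ : T => K1 * Th.len τ + 12) (fun _ _ => Nat.zero_le _)
      (Finset.mem_univ τ)
    have h2 : K1 * Th.len τ + 12 ≤ ∑ τ : T, (K1 * Th.len τ + 12) := this
    omega
  obtain ⟨Gam, hGam, hsurg⟩ := surgeryH (plz_ne Z) L (hc Z U M) (hub Z U)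
  obtain ⟨B, hB⟩ := exists_B (src := Z.src) (tgt := Z.tgt) (hc Z U M)
  -- the walks
  have hw0 : ∀ τ, pl (Th.x τ 0) ∉ U := by
    intro τ
    obtain ⟨w, -, p, hp, -⟩ := hwalk τ
    exact hp _ p.start_mem_support
  have hwk : ∀ τ, ∃ l, Wk Z.src Z.tgt (Z.vn (pl (Th.x τ 0))) (Z.vn (pl (Th.x τ (Th.len τ)))) l ∧
      ((pl (Th.x τ (Th.len τ)) ∉ U ∧ wcost (hc Z U M) l ≤ K1 * Th.len τ) ∨
        (pl (Th.x τ (Th.len τ)) ∈ U ∧ wcost (hc Z U M) l ≤ K1 * Th.len τ + 12 + M)) := by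
    intro τ
    obtain ⟨w, hw, p, hp, hc'⟩ := hwalk τ
    obtain ⟨l, hl, hcl⟩ := wk_walkH Z U M p hp
    rcases hw with hw | ⟨hwU, hadj⟩
    · subst hw
      exact ⟨l, hl, Or.inl ⟨hp _ p.end_mem_support, by omega⟩⟩
    · obtain ⟨l', hl', hcl'⟩ := wk_stepH Z U M hadj (hp _ p.end_mem_support)
      refine ⟨l ++ l', wk_append hl hl', Or.inr ⟨hwU, ?_⟩⟩
      rw [wcost_append]
      rw [hw_hub (vn_hub.2 hwU)] at hcl'
      have h4 := (wt_vn Z w).trans (hdoor _ hwU w hadj.symm)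
      omega
  set R' : T → Rt Z.J (R.edgeSet × Bool) Z.src Z.tgt := fun τ =>
    Gam (Z.vn (pl (Th.x τ 0))) (Z.vn (pl (Th.x τ (Th.len τ)))) with hR'
  have hfrom : ∀ τ, (R' τ).From (Z.vn (pl (Th.x τ 0))) (Z.vn (pl (Th.x τ (Th.len τ)))) := by
    intro τ
    obtain ⟨l, hl, -⟩ := hwk τ
    exact (hGam _ _ ⟨l, hl⟩).1
  have hgeo : ∀ τ, IsGeo (hc Z U M) (R' τ) := by
    intro τ
    obtain ⟨l, hl, -⟩ := hwk τ
    exact (hGam _ _ ⟨l, hl⟩).2
  have hcost : ∀ τ, (pl (Th.x τ (Th.len τ)) ∉ U ∧ (R' τ).cost (hc Z U M) ≤ K1 * Th.len τ) ∨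
      (pl (Th.x τ (Th.len τ)) ∈ U ∧ (R' τ).cost (hc Z U M) ≤ K1 * Th.len τ + 12 + M) := by
    intro τ
    obtain ⟨l, hl, h⟩ := hwk τ
    have h2 := hgeo τ l (by rw [(hfrom τ).1, (hfrom τ).2]; exact hl)
    rcases h with ⟨h3, h4⟩ | ⟨h3, h4⟩
    · exact Or.inl ⟨h3, h2.trans h4⟩
    · exact Or.inr ⟨h3, h2.trans h4⟩
  have hn0 : ∀ τ, (R' τ).nd 0 ∉ hub Z U := by
    intro τ h
    rw [(hfrom τ).1] at h
    exact hw0 τ (vn_hub.1 h)
  -- hubs on the new routes
  have hhubs : ∀ τ, ∀ t ≤ (R' τ).len, (R' τ).nd t ∈ hub Z U →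
      t = (R' τ).len ∧ pl (Th.x τ (Th.len τ)) ∈ U := by
    intro τ t ht h
    rcases hcost τ with ⟨h3, h4⟩ | ⟨h3, h4⟩
    · exact absurd h (hub_free (R' τ) (hn0 τ) (lt_of_le_of_lt h4 (by have := hM1 τ; omega)) ht)
    · refine ⟨hub_end (M := M) (R' τ) (hn0 τ) ?_ ?_ ht h, h3⟩
      · rw [(hfrom τ).2]
        exact vn_hub.2 h3
      · have := hM1 τ
        omega
  -- truncation
  set m : T → ℕ := fun τ => if pl (Th.x τ (Th.len τ)) ∈ U then (R' τ).len - 1 else (R' τ).len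
    with hm
  have hmle : ∀ τ, m τ ≤ (R' τ).len := by
    intro τ
    simp only [hm]
    split_ifs <;> omega
  set γ : ∀ τ, Geod (xD Z.src Z.tgt (hc Z U M) B) (dw Z U) (Z.vn (pl (Th.x τ 0)))
      ((R' τ).nd (m τ)) := fun τ => geodTr B (dw Z U) (dw_le Z U M) (R' τ) (hgeo τ) (m τ) (hmle τ)
        (hfrom τ).1 with hγ
  have hdist : ∀ τ, xD Z.src Z.tgt (hc Z U M) B (Z.vn (pl (Th.x τ 0))) ((R' τ).nd (m τ)) ≤
      (K1 + 36 * C + 120) * Th.len τ := by
    intro τ
    have h2 := (γ τ).dist 0 (γ τ).n (Nat.zero_le _) le_rfl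
    have h3 : (γ τ).s (γ τ).n = ∑ k ∈ Finset.range (m τ), hc Z U M ((R' τ).ar k) := rfl
    have h4 : (γ τ).s 0 = 0 := rfl
    have h5 : (γ τ).g 0 = Z.vn (pl (Th.x τ 0)) := (hfrom τ).1
    have h6 : (γ τ).g (γ τ).n = (R' τ).nd (m τ) := rfl
    rw [h5, h6, h3, h4, Nat.sub_zero] at h2
    rw [h2]
    have hlr := hlen τ
    have key : ∑ k ∈ Finset.range (m τ), hc Z U M ((R' τ).ar k) ≤ K1 * Th.len τ + 12 := by
      rcases hcost τ with ⟨h7, h8⟩ | ⟨h7, h8⟩
      · have h9 : m τ = (R' τ).len := by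
          simp only [hm]
          rw [if_neg h7]
        rw [h9]
        exact h8.trans (Nat.le_add_right _ _)
      · have h9 : m τ = (R' τ).len - 1 := by
          simp only [hm]
          rw [if_pos h7]
        have h10 : (R' τ).len ≠ 0 := by
          intro h0
          have h11 := (hfrom τ).2
          rw [h0] at h11
          exact hn0 τ (by rw [h11]; exact vn_hub.2 h7)
        obtain ⟨n, hn⟩ : ∃ n, (R' τ).len = n + 1 := ⟨(R' τ).len - 1, by omega⟩
        have h11 := hub_arc (M := M) (t := n) (R' τ) (by omega) (by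
          rw [← hn, (hfrom τ).2]
          exact vn_hub.2 h7)
        have h12 : (R' τ).cost (hc Z U M) = ∑ k ∈ Finset.range n, hc Z U M ((R' τ).ar k) +
            hc Z U M ((R' τ).ar n) := by
          unfold Rt.cost
          rw [hn, Finset.sum_range_succ]
        have h13 : m τ = n := by omega
        rw [h13]
        omega
    nlinarith
  have hD : ∀ j, j ∉ hub Z U → wt Z j ≤ C * r + 4 := fun j hj =>
    wt_leH Z U (C * r) hdeg j hj
  have hdw : ∀ j, dw Z U j ≤ (5 * C + 20) * r := by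
    intro j
    unfold dw
    split_ifs with h
    · exact Nat.zero_le _
    · have := hD j h
      nlinarith
  obtain ⟨S, hS, hload⟩ := hK Z.J (R.edgeSet × Bool) T Z.src Z.tgt (hub Z U)
    (xD Z.src Z.tgt (hc Z U M) B) (dw Z U) r S0 Th.len (fun τ => Z.vn (pl (Th.x τ 0)))
    (fun τ => (R' τ).nd (m τ)) (fun τ => oldS Z z zl τ \ hub Z U) R' γ
    (xD_self _ _) (xD_symm _ _) (xD_tri _ _ hB) hr hdw (hS0.trans (by nlinarith)) hlen hlen2
    hdist
    (by
      intro j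
      unfold dw
      split_ifs with h
      · refine le_of_eq ?_
        have : {τ | τ ∉ S0 ∧ j ∈ oldS Z z zl τ \ hub Z U} = ∅ := by
          rw [Set.eq_empty_iff_forall_notMem]
          rintro τ ⟨-, -, h'⟩
          exact h' h
        rw [this, Set.ncard_empty]
      · refine le_trans (Set.ncard_le_ncard ?_ (Set.toFinite _)) (old_countS Z hO j)
        rintro τ ⟨h1, h2, -⟩
        exact ⟨fun h => h1 (Finset.mem_coe.1 h), h2⟩)
    (by
      intro τ hτ j hj
      rw [xD_symm]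
      have h2 := old_nearS Z hO M B (C * r + 4) (by omega)
        (fun v hv => (hdeg v hv).trans (by omega)) τ
        (fun h => hτ (Finset.mem_coe.1 h)) j hj
      rw [(hz τ hτ).1] at h2
      refine h2.trans ?_
      have h3 := (hz τ hτ).2.2
      have h4 := hlen2 τ hτ
      nlinarith)
    (by
      intro τ t ht hj
      refine ⟨?_, rfl⟩
      change t ≤ m τ
      simp only [hm]
      split_ifs with h
      · have h2 : t ≠ (R' τ).len := by
          rintro rfl
          rw [(hfrom τ).2] at hj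
          exact hj (vn_hub.2 h)
        omega
      · exact ht)
    (by
      intro τ hτ
      have h2 := old_oldS Z hO (C * r + 4) hD τ (fun h => hτ (Finset.mem_coe.1 h))
      have h3 := (hz τ hτ).2.2
      have h4 := hlen τ
      refine le_trans (le_of_eq ?_) (h2.trans ?_)
      · refine Finset.sum_congr rfl (fun τ' _ => ?_)
        by_cases h5 : τ' = τ ∨ τ' ∈ S0
        · rw [if_pos h5, if_pos (by
            rcases h5 with h5 | h5
            · exact Or.inl h5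
            · exact Or.inr (Finset.mem_coe.2 h5))]
        · rw [if_neg h5, if_neg (by
            rintro (h6 | h6)
            · exact h5 (Or.inl h6)
            · exact h5 (Or.inr (Finset.mem_coe.1 h6)))]
      · nlinarith)
  -- the old routes
  have hold : ∀ τ, ∃ W : Rt Z.J (R.edgeSet × Bool) Z.src Z.tgt,
      W.From (Z.vn (pl (Th.x τ 0))) (Z.vn (pl (Th.x τ (Th.len τ)))) ∧
      (τ ∉ S0 → ∀ t ≤ W.len, W.nd t ∈ oldS Z z zl τ) := by
    intro τ
    by_cases h : τ ∈ S0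
    · exact ⟨R' τ, hfrom τ, fun h' => absurd h h'⟩
    · have h' : τ ∉ (S0 : Set T) := fun h'' => h (Finset.mem_coe.1 h'')
      obtain ⟨W, h4, h5⟩ := old_route Z (z τ) (zl τ) (hO.pos τ h') (hO.adj τ h')
      rw [(hz τ h).1, (hz τ h).2.1] at h4
      refine ⟨W, h4, fun _ t ht => ?_⟩
      exact h5 t ht
  choose W hW1 hW2 using hold
  set Rf : T → Rt Z.J (R.edgeSet × Bool) Z.src Z.tgt := fun τ => if τ ∈ S then R' τ else W τ
    with hRf
  have hRin : ∀ τ ∈ S, Rf τ = R' τ := fun τ h => if_pos h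
  have hRout : ∀ τ, τ ∉ S → Rf τ = W τ := fun τ h => if_neg h
  refine hsurg V T G Th (S : Set T) (fun v => Z.vn (pl v)) Rf ?_ ?_ ?_ ?_ K ?_
  · intro u u' h2 h3
    exact hone u u' (vn_hub.1 h2) (Z.vn_inj h3)
  · intro τ
    by_cases h : τ ∈ S
    · rw [hRin τ h]
      exact hfrom τ
    · rw [hRout τ h]
      exact hW1 τ
  · intro τ h
    rw [hRin τ (Finset.mem_coe.1 h)]
  · intro τ t ht h
    by_cases h' : τ ∈ S
    · rw [hRin τ h'] at ht h ⊢
      exact Or.inr (hhubs τ t ht h).1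
    · have h0 : τ ∉ S0 := fun h'' => h' (hS h'')
      have h0' : τ ∉ (S0 : Set T) := fun h'' => h0 (Finset.mem_coe.1 h'')
      rw [hRout τ h'] at ht h ⊢
      right
      have h2 := hW2 τ h0 t ht
      obtain ⟨a, ha, hae⟩ := h
      rw [← hae] at h2
      obtain ⟨s, hs, hse⟩ := vn_mem_oldS h2
      have h3 : s = zl τ := by
        by_contra h4
        exact hO.hub τ h0' s (by omega) (by rw [← hse]; exact ha)
      subst h3
      have h4 : (W τ).nd t = (W τ).nd (W τ).len := by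
        rw [← hae, hse, (hz τ h0).2.1]
        exact (hW1 τ).2.symm
      exact (W τ).inj _ _ ht le_rfl h4
  · refine hload Rf hRin ?_
    intro τ h' t ht hj
    have h0 : τ ∉ S0 := fun h'' => h' (hS h'')
    refine ⟨?_, hj⟩
    have e1 := hRout τ h'
    rw [e1] at ht ⊢
    exact hW2 τ h0 t ht

end Pool.Agent.Helper83.HR
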