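import Pool.Agent.Helper93.UP.LDb
import Pool.Agent.Helper83.HR.Surg

/-!
# The load bound with hubs, abstract form

`R' τ` is the new route of the thread `τ`, `γ τ` the part of it outside the hubs as a geodesic, `om τ` the nodes of the
old curve outside the hubs.
-/

open Set
open Pool.Agent.Helper83.OP Pool.Agent.Helper83.LN Pool.Agent.Helper93.UP

namespace Pool.Agent.Helper83.HR

theorem common_hits {J I : Type} {src tgt : I → J} (R R' : Rt J I src tgt) (Hb X : Set J)
    (n : ℕ) (g : ℕ → J) (hR : ∀ t ≤ R.len, R.nd t ∉ Hb → R.nd t ∈ X)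
    (hR' : ∀ t ≤ R'.len, R'.nd t ∉ Hb → t ≤ n ∧ g t = R'.nd t) :
    (common R R' \ Hb).ncard ≤ {i | i ≤ n ∧ g i ∈ X}.ncard := by
  have hfin : ({i | i ≤ n ∧ g i ∈ X} : Set ℕ).Finite :=
    (Set.finite_Iic n).subset (fun i hi => hi.1)
  have hsub : common R R' \ Hb ⊆ g '' {i | i ≤ n ∧ g i ∈ X} := by
    rintro j ⟨⟨⟨s, hs, rfl⟩, t, ht, he⟩, hj⟩
    rw [← he] at hj
    obtain ⟨h1, h2⟩ := hR' t ht hj
    refine ⟨t, ⟨h1, ?_⟩, h2.trans he⟩
    rw [h2, he]
    exact hR s hs (by rw [← he]; exact hj)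
  exact (Set.ncard_le_ncard hsub (hfin.image _)).trans (Set.ncard_image_le hfin)

theorem common_comm' {J I : Type} {src tgt : I → J} (R R' : Rt J I src tgt) :
    common R R' = common R' R := by
  ext j
  exact And.comm

open Classical in
theorem load_abs (C K1 : ℕ) : ∃ K : ℕ, ∀ (J I T : Type) [Finite J] [Fintype T] (src tgt : I → J)
    (Hb : Set J) (d : J → J → ℕ) (dgn : J → ℕ) (r : ℕ) (S0 : Finset T) (len : T → ℕ)
    (p p' : T → J) (om : T → Set J) (R' : T → Rt J I src tgt)
    (γ : ∀ τ, Geod d dgn (p τ) (p' τ)),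
    (∀ x, d x x = 0) → (∀ x y, d x y = d y x) → (∀ x y z, d x z ≤ d x y + d y z) →
    1 ≤ r → (∀ t, dgn t ≤ C * r) → S0.card ≤ C * r →
    (∀ τ, r ≤ len τ) → (∀ τ ∉ S0, len τ ≤ 2 * r) →
    (∀ τ, d (p τ) (p' τ) ≤ K1 * len τ) →
    (∀ j, {τ | τ ∉ S0 ∧ j ∈ om τ}.ncard ≤ dgn j) →
    (∀ τ ∉ S0, ∀ j ∈ om τ, d j (p τ) ≤ K1 * r) →
    (∀ τ, ∀ t ≤ (R' τ).len, (R' τ).nd t ∉ Hb → t ≤ (γ τ).n ∧ (γ τ).g t = (R' τ).nd t) →
    (∀ τ ∉ S0, ∑ τ' : T, (if τ' = τ ∨ τ' ∈ S0 then 0 else (om τ ∩ om τ').ncard) ≤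
      C * len τ) →
    ∃ S : Finset T, S0 ⊆ S ∧ ∀ R : T → Rt J I src tgt,
      (∀ τ ∈ S, R τ = R' τ) →
      (∀ τ, τ ∉ S → ∀ t ≤ (R τ).len, (R τ).nd t ∉ Hb → (R τ).nd t ∈ om τ) →
      ∀ τ, ∑ τ' : T, (if τ' = τ then 0 else multH R (S : Set T) Hb τ τ') ≤ K * len τ := by
  obtain ⟨Kc, hKc⟩ := closure C (2 * K1)
  refine ⟨(C + Kc) + (Kc * (K1 + 1) + (K1 + C)), ?_⟩
  intro J I T _ _ src tgt Hb d dgn r S0 len p p' om R' γ hself hsymm htri hr hdgn hS0 hlen hlen2
    hdist hcount hnear hγ hoo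
  obtain ⟨S, hS, hout, hin⟩ := hKc J T d dgn r p p' om S0 γ hself hsymm htri hr hdgn hS0
    (by
      intro τ hτ
      refine (hdist τ).trans ?_
      have h1 := Nat.mul_le_mul_left K1 (hlen2 τ hτ)
      nlinarith)
    hcount
    (by
      intro τ hτ j hj
      refine (hnear τ hτ j hj).trans ?_
      nlinarith)
  refine ⟨S, hS, ?_⟩
  intro R hR hRold τ
  have hrl := hlen τ
  have hhits : ∀ τ X, (γ τ).hits X = {i | i ≤ (γ τ).n ∧ (γ τ).g i ∈ X}.ncard := fun _ _ => rfl
  by_cases hτ : τ ∈ S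
  · -- a new thread
    have h1 : ∀ τ' ∈ (Finset.univ : Finset T),
        (if τ' = τ then 0 else multH R (S : Set T) Hb τ τ') ≤
        (if τ' ∈ S ∧ ((γ τ').nodes ∩ (γ τ).nodes).Nonempty then 1 else 0) +
        (if τ' ∈ Sᶜ then (γ τ).hits (om τ') else 0) := by
      intro τ' _
      by_cases he : τ' = τ
      · rw [if_pos he]
        exact Nat.zero_le _
      · rw [if_neg he]
        by_cases hτ' : τ' ∈ S
        · have h2 : multH R (S : Set T) Hb τ τ' = min 1 (common (R τ) (R τ') \ Hb).ncard := by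
            rw [multH, if_pos ⟨Finset.mem_coe.2 hτ, Finset.mem_coe.2 hτ'⟩]
          rw [h2]
          by_cases h3 : ((γ τ').nodes ∩ (γ τ).nodes).Nonempty
          · rw [if_pos ⟨hτ', h3⟩]
            exact (Nat.min_le_left _ _).trans (Nat.le_add_right _ _)
          · have h4 : common (R τ) (R τ') \ Hb = ∅ := by
              rw [Set.eq_empty_iff_forall_notMem]
              rintro j ⟨⟨⟨s, hs, hj⟩, t, ht, hj'⟩, hjb⟩
              apply h3
              rw [hR τ hτ] at hs hj
              rw [hR τ' hτ'] at ht hj'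
              obtain ⟨g1, g2⟩ := hγ τ s hs (by rw [hj]; exact hjb)
              obtain ⟨g3, g4⟩ := hγ τ' t ht (by rw [hj']; exact hjb)
              exact ⟨j, ⟨t, g3, (g4.trans hj').symm⟩, ⟨s, g1, (g2.trans hj).symm⟩⟩
            rw [h4, Set.ncard_empty]
            exact Nat.zero_le _
        · have h2 : multH R (S : Set T) Hb τ τ' = (common (R τ) (R τ') \ Hb).ncard := by
            rw [multH, if_neg (fun h => hτ' (Finset.mem_coe.1 h.2))]
          rw [h2, if_pos (Finset.mem_compl.2 hτ'), common_comm']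
          refine le_trans ?_ (Nat.le_add_left _ _)
          rw [hhits]
          refine common_hits (R τ') (R τ) Hb (om τ') (γ τ).n (γ τ).g (hRold τ' hτ') ?_
          rw [hR τ hτ]
          exact hγ τ
    refine (Finset.sum_le_sum h1).trans ?_
    rw [Finset.sum_add_distrib]
    obtain ⟨_, hmeet, hold'⟩ := hin γ
    have h6 : ∑ τ' : T, (if τ' ∈ S ∧ ((γ τ').nodes ∩ (γ τ).nodes).Nonempty then 1 else 0) ≤
        Kc * (K1 * len τ + r) := by
      rw [← Finset.card_filter]
      have h7 := hmeet τ hτ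
      have h8 : ((Finset.univ : Finset T).filter
          (fun τ' => τ' ∈ S ∧ ((γ τ').nodes ∩ (γ τ).nodes).Nonempty)).card =
          {q' | q' ∈ S ∧ ((γ q').nodes ∩ (γ τ).nodes).Nonempty}.ncard := by
        rw [← Set.ncard_coe_finset]
        congr 1
        ext q
        simp
      rw [h8]
      refine h7.trans (Nat.mul_le_mul_left _ ?_)
      exact Nat.add_le_add_right (hdist τ) _
    have h9 : ∑ τ' : T, (if τ' ∈ Sᶜ then (γ τ).hits (om τ') else 0) ≤
        K1 * len τ + C * r := by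
      rw [← Finset.sum_filter]
      have h10 : (Finset.univ : Finset T).filter (fun τ' => τ' ∈ Sᶜ) = Sᶜ := by
        ext q
        simp
      rw [h10]
      exact (hold' τ hτ).trans (Nat.add_le_add_right (hdist τ) _)
    have h11 : Kc * (K1 * len τ + r) ≤ Kc * (K1 + 1) * len τ := by
      rw [Nat.mul_assoc]
      apply Nat.mul_le_mul_left
      nlinarith
    have h12 : C * r ≤ C * len τ := Nat.mul_le_mul_left _ hrl
    calc _ ≤ Kc * (K1 + 1) * len τ + (K1 * len τ + C * len τ) := by omega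
      _ = (Kc * (K1 + 1) + (K1 + C)) * len τ := by ring
      _ ≤ _ := Nat.mul_le_mul_right _ (Nat.le_add_left _ _)
  · -- an old thread
    have hτ0 : τ ∉ S0 := fun h => hτ (hS h)
    have h1 : ∀ τ' ∈ (Finset.univ : Finset T),
        (if τ' = τ then 0 else multH R (S : Set T) Hb τ τ') ≤
        (if τ' = τ ∨ τ' ∈ S0 then 0 else (om τ ∩ om τ').ncard) +
        (if τ' ∈ S then (γ τ').hits (om τ) else 0) := by
      intro τ' _
      by_cases he : τ' = τ
      · rw [if_pos he]
        exact Nat.zero_le _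
      · rw [if_neg he]
        have h2 : multH R (S : Set T) Hb τ τ' = (common (R τ) (R τ') \ Hb).ncard := by
          rw [multH, if_neg (fun h => hτ (Finset.mem_coe.1 h.1))]
        rw [h2]
        by_cases hτ' : τ' ∈ S
        · rw [if_pos hτ', hhits]
          refine le_trans ?_ (Nat.le_add_left _ _)
          refine common_hits (R τ) (R τ') Hb (om τ) (γ τ').n (γ τ').g (hRold τ hτ) ?_
          rw [hR τ' hτ']
          exact hγ τ'
        · have hτ0' : τ' ∉ S0 := fun h => hτ' (hS h)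
          rw [if_neg (by
            rintro (h | h)
            · exact he h
            · exact hτ0' h)]
          refine le_trans ?_ (Nat.le_add_right _ _)
          apply Set.ncard_le_ncard _ (Set.toFinite _)
          rintro j ⟨⟨⟨s, hs, hj⟩, t, ht, hj'⟩, hjb⟩
          refine ⟨?_, ?_⟩
          · rw [← hj]
            exact hRold τ hτ s hs (by rw [hj]; exact hjb)
          · rw [← hj']
            exact hRold τ' hτ' t ht (by rw [hj']; exact hjb)
    refine (Finset.sum_le_sum h1).trans ?_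
    rw [Finset.sum_add_distrib]
    have h6 := hoo τ hτ0
    have h7 : ∑ τ' : T, (if τ' ∈ S then (γ τ').hits (om τ) else 0) ≤ Kc * r := by
      rw [← Finset.sum_filter]
      have h10 : (Finset.univ : Finset T).filter (fun τ' => τ' ∈ S) = S := by
        ext q
        simp
      rw [h10]
      exact hout τ hτ
    have h13 : Kc * r ≤ Kc * len τ := Nat.mul_le_mul_left _ hrl
    calc _ ≤ C * len τ + Kc * len τ := by omega
      _ = (C + Kc) * len τ := by ring
      _ ≤ _ := Nat.mul_le_mul_right _ (Nat.le_add_right _ _)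

/-- the first part of a route of minimal cost as a geodesic of the extended metric -/
noncomputable def geodTr {J I : Type} {src tgt : I → J} {c : I → ℕ} (B : ℕ) (dgn : J → ℕ)
    (hc : ∀ i e, dgn (nend src tgt i e) ≤ c i) (R : Rt J I src tgt) (h : IsGeo c R) {a : J}
    (m : ℕ) (hm : m ≤ R.len) (hR : R.nd 0 = a) : Geod (xD src tgt c B) dgn a (R.nd m) where
  n := m
  g := R.nd
  s := fun t => ∑ k ∈ Finset.range t, c (R.ar k)
  g_zero := hR
  g_last := rfl
  mono := fun i j hij _ => Finset.sum_le_sum_of_subset (Finset.range_subset_range.2 hij)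
  dist := by
    intro i j hij hj
    obtain ⟨l, hl, _⟩ := rt_wk R c hij (hj.trans hm)
    rw [xD, if_pos (show Rch src tgt (R.nd i) (R.nd j) from ⟨l, hl⟩), nD_geo h hij (hj.trans hm)]
    have := Finset.sum_range_add_sum_Ico (fun k => c (R.ar k)) hij
    omega
  step_left := by
    intro i hi
    have h1 := hc (R.ar i) (R.dir i)
    rw [R.fst i (by omega)] at h1
    have h2 : ∑ k ∈ Finset.range (i + 1), c (R.ar k) =
      ∑ k ∈ Finset.range i, c (R.ar k) + c (R.ar i) := Finset.sum_range_succ _ _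
    show dgn (R.nd i) ≤ ∑ k ∈ Finset.range (i + 1), c (R.ar k) - ∑ k ∈ Finset.range i, c (R.ar k)
    omega
  step_right := by
    intro i hi
    have h1 := hc (R.ar i) (!R.dir i)
    rw [R.snd i (by omega)] at h1
    have h2 : ∑ k ∈ Finset.range (i + 1), c (R.ar k) =
      ∑ k ∈ Finset.range i, c (R.ar k) + c (R.ar i) := Finset.sum_range_succ _ _
    show dgn (R.nd (i + 1)) ≤
      ∑ k ∈ Finset.range (i + 1), c (R.ar k) - ∑ k ∈ Finset.range i, c (R.ar k)
    omega

end Pool.Agent.Helper83.HR
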