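import Pool.Agent.Helper83.HR.LoadAbs
import Pool.Agent.Helper83.LN.OldRoute

/-!
# Systems of old curves in a graph with hubs

`R` a graph with planarised drawing `Z`, `U` the hub vertices. The old curve of the thread `τ ∉ S0` is the path
`z τ 0, ..., z τ (zl τ)` of `R`; it meets a hub at most at its end.
-/

open Set
open Pool.Agent.Helper83.OP Pool.Agent.Helper83.LN Pool.Agent.Helper93.UP

namespace Pool.Agent.Helper83.HR

section

variable {V T : Type} {R : SimpleGraph V}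

/-- the old curves -/
structure OldSys (R : SimpleGraph V) (U : Set V) (S0 : Set T) (z : T → ℕ → V) (zl : T → ℕ) :
    Prop where
  pos : ∀ τ, τ ∉ S0 → 1 ≤ zl τ
  adj : ∀ τ, τ ∉ S0 → ∀ t < zl τ, R.Adj (z τ t) (z τ (t + 1))
  uniq : ∀ τ, τ ∉ S0 → ∀ τ', τ' ∉ S0 → ∀ t < zl τ, ∀ t' < zl τ',
    s(z τ t, z τ (t + 1)) = s(z τ' t', z τ' (t' + 1)) → τ = τ'
  inner : ∀ τ, τ ∉ S0 → ∀ t, 0 < t → t < zl τ → ∀ τ', τ' ∉ S0 → ∀ t' ≤ zl τ',
    z τ' t' = z τ t → τ' = τ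
  hub : ∀ τ, τ ∉ S0 → ∀ t < zl τ, z τ t ∉ U
  deg : ∀ τ, τ ∉ S0 → ∀ t, 0 < t → t < zl τ → deg R (z τ t) ≤ 4

/-- the hub nodes -/
def hub (Z : Plz R) (U : Set V) : Set Z.J := Z.vn '' U

theorem vn_hub {Z : Plz R} {U : Set V} {v : V} : Z.vn v ∈ hub Z U ↔ v ∈ U := by
  constructor
  · rintro ⟨w, hw, h⟩
    rw [← Z.vn_inj h]
    exact hw
  · intro h
    exact ⟨v, h, rfl⟩

theorem bn_hub {Z : Plz R} {U : Set V} (f : R.edgeSet) : Z.bn f ∉ hub Z U := by
  rintro ⟨v, -, h⟩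
  exact Z.vn_ne v f h

/-- the nodes of the old curve -/
def oldS (Z : Plz R) (z : T → ℕ → V) (zl : T → ℕ) (τ : T) : Set Z.J :=
  {j | (∃ s ≤ zl τ, j = Z.vn (z τ s)) ∨
    ∃ f : R.edgeSet, (∃ s < zl τ, (f : Sym2 V) = s(z τ s, z τ (s + 1))) ∧ j = Z.bn f}

/-- through every node pass at most as many old curves as the weight of the node -/
theorem old_countS [Finite V] [Finite T] {U : Set V} {S0 : Set T} {z : T → ℕ → V} {zl : T → ℕ}
    (Z : Plz R) (hO : OldSys R U S0 z zl) (j : Z.J) :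
    {τ | τ ∉ S0 ∧ j ∈ oldS Z z zl τ}.ncard ≤ wt Z j := by
  classical
  have key : ∀ τ ∈ {τ | τ ∉ S0 ∧ j ∈ oldS Z z zl τ}, ∃ i : R.edgeSet × Bool,
      (Z.src i = j ∨ Z.tgt i = j) ∧
        ∃ s < zl τ, (i.1 : Sym2 V) = s(z τ s, z τ (s + 1)) := by
    rintro τ ⟨h0, hj⟩
    rcases hj with ⟨s, hs, rfl⟩ | ⟨f, ⟨s, hs, hf⟩, rfl⟩
    · have hpos := hO.pos τ h0
      obtain ⟨t, ht, hts⟩ : ∃ t < zl τ, z τ s ∈ (s(z τ t, z τ (t + 1)) : Sym2 V) := by
        by_cases hlt : s < zl τ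
        · exact ⟨s, hlt, Sym2.mem_mk_left _ _⟩
        · refine ⟨s - 1, by omega, ?_⟩
          have : s - 1 + 1 = s := by omega
          rw [this]
          exact Sym2.mem_mk_right _ _
      obtain ⟨i, e, h1, h2, _, _⟩ := half Z
        (⟨s(z τ t, z τ (t + 1)), hO.adj τ h0 t ht⟩ : R.edgeSet) hts
      refine ⟨i, ?_, t, ht, ?_⟩
      · cases e
        · exact Or.inl h2
        · exact Or.inr h2
      · rw [h1]
    · exact ⟨(f, true), Or.inl rfl, s, hs, hf⟩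
  by_cases hne : ({τ | τ ∉ S0 ∧ j ∈ oldS Z z zl τ} : Set T).Nonempty
  · obtain ⟨τ0, hτ0⟩ := hne
    obtain ⟨i0, _⟩ := key τ0 hτ0
    have key' : ∀ τ, ∃ i : R.edgeSet × Bool, τ ∈ {τ | τ ∉ S0 ∧ j ∈ oldS Z z zl τ} →
        ((Z.src i = j ∨ Z.tgt i = j) ∧
          ∃ s < zl τ, (i.1 : Sym2 V) = s(z τ s, z τ (s + 1))) := by
      intro τ
      by_cases h : τ ∈ {τ | τ ∉ S0 ∧ j ∈ oldS Z z zl τ}
      · obtain ⟨i, hi⟩ := key τ h
        exact ⟨i, fun _ => hi⟩
      · exact ⟨i0, fun h' => absurd h' h⟩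
    choose F hF using key'
    refine Set.ncard_le_ncard_of_injOn F (fun τ hτ => (hF τ hτ).1) ?_ (Set.toFinite _)
    intro τ hτ τ' hτ' he
    obtain ⟨s, hs, h1⟩ := (hF τ hτ).2
    obtain ⟨s', hs', h2⟩ := (hF τ' hτ').2
    rw [he] at h1
    exact hO.uniq τ hτ.1 τ' hτ'.1 s hs s' hs' (h1.symm.trans h2)
  · rw [Set.not_nonempty_iff_eq_empty] at hne
    rw [hne, Set.ncard_empty]
    exact Nat.zero_le _

theorem vn_mem_oldS {Z : Plz R} {z : T → ℕ → V} {zl : T → ℕ} {τ : T} {v : V}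
    (h : Z.vn v ∈ oldS Z z zl τ) : ∃ s ≤ zl τ, v = z τ s := by
  rcases h with ⟨s, hs, he⟩ | ⟨f, _, he⟩
  · exact ⟨s, hs, Z.vn_inj he⟩
  · exact absurd he (Z.vn_ne v f)

theorem bn_mem_oldS {Z : Plz R} {z : T → ℕ → V} {zl : T → ℕ} {τ : T} {f : R.edgeSet}
    (h : Z.bn f ∈ oldS Z z zl τ) : ∃ f' : R.edgeSet, Z.bn f' = Z.bn f ∧
      ∃ s < zl τ, (f' : Sym2 V) = s(z τ s, z τ (s + 1)) := by
  rcases h with ⟨s, hs, he⟩ | ⟨f', hs, he⟩
  · exact absurd he.symm (Z.vn_ne _ f)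
  · exact ⟨f', he.symm, hs⟩

open Classical in
/-- the common nodes of two old curves outside the hubs -/
theorem old_old_oneS {U : Set V} {S0 : Set T} {z : T → ℕ → V} {zl : T → ℕ}
    (Z : Plz R) (hO : OldSys R U S0 z zl) (τ τ' : T) (hne : τ' ≠ τ) (hτ : τ ∉ S0) (hτ' : τ' ∉ S0)
    (bnd : ℕ → Z.J)
    (hbnd : ∀ s (hs : s < zl τ), bnd s = Z.bn ⟨s(z τ s, z τ (s + 1)), hO.adj τ hτ s hs⟩) :
    ((oldS Z z zl τ \ hub Z U) ∩ (oldS Z z zl τ' \ hub Z U)).ncard ≤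
      (if Z.vn (z τ 0) ∈ oldS Z z zl τ' then 1 else 0) +
      (if Z.vn (z τ (zl τ)) ∉ hub Z U ∧ Z.vn (z τ (zl τ)) ∈ oldS Z z zl τ' then 1 else 0) +
      ∑ s ∈ Finset.range (zl τ), (if bnd s ∈ oldS Z z zl τ' then 1 else 0) := by
  set A : Finset Z.J := if Z.vn (z τ 0) ∈ oldS Z z zl τ' then {Z.vn (z τ 0)} else ∅ with hA
  set A' : Finset Z.J := if Z.vn (z τ (zl τ)) ∉ hub Z U ∧ Z.vn (z τ (zl τ)) ∈ oldS Z z zl τ' then
    {Z.vn (z τ (zl τ))} else ∅ with hA'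
  set B : Finset Z.J := ((Finset.range (zl τ)).filter
    (fun s => bnd s ∈ oldS Z z zl τ')).image bnd with hB
  have hAc : A.card = if Z.vn (z τ 0) ∈ oldS Z z zl τ' then 1 else 0 := by
    rw [hA]
    split_ifs <;> simp
  have hAc' : A'.card = if Z.vn (z τ (zl τ)) ∉ hub Z U ∧
      Z.vn (z τ (zl τ)) ∈ oldS Z z zl τ' then 1 else 0 := by
    rw [hA']
    split_ifs <;> simp
  have hBc : B.card ≤ ∑ s ∈ Finset.range (zl τ),
      (if bnd s ∈ oldS Z z zl τ' then 1 else 0) := by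
    rw [← Finset.card_filter]
    exact Finset.card_image_le
  have hsub : (oldS Z z zl τ \ hub Z U) ∩ (oldS Z z zl τ' \ hub Z U) ⊆
      ((A ∪ A' ∪ B : Finset Z.J) : Set Z.J) := by
    rintro j ⟨⟨h1, hjb⟩, h2, -⟩
    rw [Finset.mem_coe, Finset.mem_union, Finset.mem_union]
    rcases h1 with ⟨s, hs, rfl⟩ | ⟨f, ⟨s, hs, hf⟩, rfl⟩
    · left
      obtain ⟨s', hs', he⟩ := vn_mem_oldS h2
      by_cases h0 : s = 0
      · left
        subst h0
        rw [hA, if_pos h2]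
        exact Finset.mem_singleton_self _
      · by_cases hl : s = zl τ
        · right
          subst hl
          rw [hA', if_pos ⟨hjb, h2⟩]
          exact Finset.mem_singleton_self _
        · exact absurd (hO.inner τ hτ s (by omega) (by omega) τ' hτ' s' hs' he.symm) hne
    · right
      have hf' : f = ⟨s(z τ s, z τ (s + 1)), hO.adj τ hτ s hs⟩ := Subtype.ext hf
      rw [hf'] at h2 ⊢
      rw [← hbnd s hs] at h2 ⊢
      rw [hB]
      exact Finset.mem_image_of_mem _ (Finset.mem_filter.2 ⟨Finset.mem_range.2 hs, h2⟩)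
  refine (Set.ncard_le_ncard hsub (Finset.finite_toSet _)).trans ?_
  rw [Set.ncard_coe_finset]
  have h3 := Finset.card_union_le (A ∪ A') B
  have h4 := Finset.card_union_le A A'
  omega

open Classical in
/-- the old curves of an old curve: at most the length and two weights -/
theorem old_oldS [Finite V] [Fintype T] {U : Set V} {S0 : Set T} {z : T → ℕ → V} {zl : T → ℕ}
    (Z : Plz R) (hO : OldSys R U S0 z zl)
    (D : ℕ) (hD : ∀ j, j ∉ hub Z U → wt Z j ≤ D) (τ : T) (hτ0 : τ ∉ S0) :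
    ∑ τ' : T, (if τ' = τ ∨ τ' ∈ S0 then 0 else
      ((oldS Z z zl τ \ hub Z U) ∩ (oldS Z z zl τ' \ hub Z U)).ncard) ≤ 2 * D + zl τ := by
  let bnd : ℕ → Z.J := fun s => if hs : s < zl τ then
    Z.bn ⟨s(z τ s, z τ (s + 1)), hO.adj τ hτ0 s hs⟩ else Z.vn (z τ 0)
  have hbnd : ∀ s (hs : s < zl τ),
      bnd s = Z.bn ⟨s(z τ s, z τ (s + 1)), hO.adj τ hτ0 s hs⟩ := fun s hs => dif_pos hs
  have h1 : ∀ τ' ∈ (Finset.univ : Finset T),
      (if τ' = τ ∨ τ' ∈ S0 then 0 else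
        ((oldS Z z zl τ \ hub Z U) ∩ (oldS Z z zl τ' \ hub Z U)).ncard) ≤
      (if τ' ∉ S0 ∧ Z.vn (z τ 0) ∈ oldS Z z zl τ' then 1 else 0) +
      (if τ' ∉ S0 ∧ (Z.vn (z τ (zl τ)) ∉ hub Z U ∧ Z.vn (z τ (zl τ)) ∈ oldS Z z zl τ')
        then 1 else 0) +
      ∑ s ∈ Finset.range (zl τ),
        (if (τ' ≠ τ ∧ τ' ∉ S0) ∧ bnd s ∈ oldS Z z zl τ' then 1 else 0) := by
    intro τ' _
    by_cases h2 : τ' = τ ∨ τ' ∈ S0
    · rw [if_pos h2]
      exact Nat.zero_le _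
    · rw [if_neg h2]
      have h2a : τ' ≠ τ := fun h => h2 (Or.inl h)
      have h2b : τ' ∉ S0 := fun h => h2 (Or.inr h)
      have h3 := old_old_oneS Z hO τ τ' h2a hτ0 h2b bnd hbnd
      simp only [h2a, h2b, ne_eq, not_false_eq_true, true_and]
      exact h3
  refine (Finset.sum_le_sum h1).trans ?_
  rw [Finset.sum_add_distrib, Finset.sum_add_distrib, Finset.sum_comm]
  have h5 : ∀ j : Z.J, j ∉ hub Z U →
      ∑ τ' : T, (if τ' ∉ S0 ∧ j ∈ oldS Z z zl τ' then 1 else 0) ≤ D := by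
    intro j hj
    rw [← Finset.card_filter]
    refine le_trans ?_ ((old_countS Z hO j).trans (hD j hj))
    rw [← Set.ncard_coe_finset]
    apply Set.ncard_le_ncard _ (Set.toFinite _)
    intro τ' h
    exact (Finset.mem_filter.1 (Finset.mem_coe.1 h)).2
  have h5' : ∑ τ' : T, (if τ' ∉ S0 ∧ (Z.vn (z τ (zl τ)) ∉ hub Z U ∧
      Z.vn (z τ (zl τ)) ∈ oldS Z z zl τ') then 1 else 0) ≤ D := by
    by_cases hj : Z.vn (z τ (zl τ)) ∈ hub Z U
    · refine le_trans (le_of_eq ?_) (Nat.zero_le _)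
      refine Finset.sum_eq_zero (fun τ' _ => if_neg ?_)
      rintro ⟨-, h, -⟩
      exact h hj
    · refine le_trans (le_of_eq ?_) (h5 _ hj)
      refine Finset.sum_congr rfl (fun τ' _ => ?_)
      simp only [hj, not_false_eq_true, true_and]
  have h6 : ∑ s ∈ Finset.range (zl τ), ∑ τ' : T,
      (if (τ' ≠ τ ∧ τ' ∉ S0) ∧ bnd s ∈ oldS Z z zl τ' then 1 else 0) ≤
      ∑ s ∈ Finset.range (zl τ), 1 := by
    apply Finset.sum_le_sum
    intro s hs
    have hs' := Finset.mem_range.1 hs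
    rw [← Finset.card_filter, Finset.card_le_one]
    intro τ1 h1' τ2 h2'
    have g1 := (Finset.mem_filter.1 h1').2
    have g2 := (Finset.mem_filter.1 h2').2
    rw [hbnd s hs'] at g1 g2
    obtain ⟨f1, e1, s1, hs1, k1⟩ := bn_mem_oldS g1.2
    obtain ⟨f2, e2, s2, hs2, k2⟩ := bn_mem_oldS g2.2
    set f : R.edgeSet := ⟨s(z τ s, z τ (s + 1)), hO.adj τ hτ0 s hs'⟩ with hf
    have n1 : f1 ≠ f := by
      intro h
      have h' : (f1 : Sym2 V) = s(z τ s, z τ (s + 1)) := by rw [h]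
      exact g1.1.1 (hO.uniq τ1 g1.1.2 τ hτ0 s1 hs1 s hs' (k1.symm.trans h'))
    have n2 : f2 ≠ f := by
      intro h
      have h' : (f2 : Sym2 V) = s(z τ s, z τ (s + 1)) := by rw [h]
      exact g2.1.1 (hO.uniq τ2 g2.1.2 τ hτ0 s2 hs2 s hs' (k2.symm.trans h'))
    have h12 := Z.pair f f1 f2 n1 n2 e1 e2
    have h' : (f1 : Sym2 V) = f2 := by rw [h12]
    exact hO.uniq τ1 g1.1.2 τ2 g2.1.2 s1 hs1 s2 hs2 (k1.symm.trans (h'.trans k2))
  rw [Finset.sum_const, Finset.card_range, smul_eq_mul, mul_one] at h6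
  have h7 := h5 (Z.vn (z τ 0)) (fun h => hO.hub τ hτ0 0 (hO.pos τ hτ0) (vn_hub.1 h))
  omega

/-! ## Costs -/

open Classical in
/-- weights: hubs are very expensive -/
noncomputable def hw (Z : Plz R) (U : Set V) (M : ℕ) (j : Z.J) : ℕ :=
  if j ∈ hub Z U then M else wt Z j

open Classical in
/-- weights outside the hubs -/
noncomputable def dw (Z : Plz R) (U : Set V) (j : Z.J) : ℕ := if j ∈ hub Z U then 0 else wt Z j

/-- the cost of an arc -/
noncomputable def hc (Z : Plz R) (U : Set V) (M : ℕ) (i : R.edgeSet × Bool) : ℕ :=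
  hw Z U M (Z.src i) + hw Z U M (Z.tgt i)

theorem hc_eq (Z : Plz R) (U : Set V) (M : ℕ) (i : R.edgeSet × Bool) (e : Bool) :
    hc Z U M i = hw Z U M (nend Z.src Z.tgt i e) + hw Z U M (nend Z.src Z.tgt i (!e)) := by
  cases e
  · rfl
  · exact Nat.add_comm _ _

theorem dw_le (Z : Plz R) (U : Set V) (M : ℕ) (i : R.edgeSet × Bool) (e : Bool) :
    dw Z U (nend Z.src Z.tgt i e) ≤ hc Z U M i := by
  rw [hc_eq Z U M i e]
  refine le_trans ?_ (Nat.le_add_right _ _)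
  unfold dw hw
  split_ifs
  · exact Nat.zero_le _
  · exact le_rfl

theorem hw_non {Z : Plz R} {U : Set V} {M : ℕ} {j : Z.J} (h : j ∉ hub Z U) :
    hw Z U M j = wt Z j := if_neg h

theorem hw_hub {Z : Plz R} {U : Set V} {M : ℕ} {j : Z.J} (h : j ∈ hub Z U) :
    hw Z U M j = M := if_pos h

/-- one step -/
theorem wk_stepH [Finite V] (Z : Plz R) (U : Set V) (M : ℕ) {u v : V} (h : R.Adj u v)
    (hu : u ∉ U) : ∃ l, Wk Z.src Z.tgt (Z.vn u) (Z.vn v) l ∧
      wcost (hc Z U M) l ≤ wt Z (Z.vn u) + hw Z U M (Z.vn v) + 8 := by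
  obtain ⟨i, e, h1, h2, h3, -⟩ := half Z (⟨s(u, v), h⟩ : R.edgeSet) (Sym2.mem_mk_left u v)
  obtain ⟨i', e', h1', h2', h3', -⟩ := half Z (⟨s(u, v), h⟩ : R.edgeSet) (Sym2.mem_mk_right u v)
  refine ⟨[(i, e), (i', !e')], ⟨h2, ?_, ?_⟩, ?_⟩
  · exact h3'.trans h3.symm
  · change nend Z.src Z.tgt i' (!!e') = Z.vn v
    rw [Bool.not_not]
    exact h2'
  · have e1 := hc_eq Z U M i e
    have e2 := hc_eq Z U M i' e'
    rw [h2, h3, hw_non (fun h => hu (vn_hub.1 h)), hw_non (bn_hub _)] at e1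
    rw [h2', h3', hw_non (bn_hub _)] at e2
    have h4 := wt_bn Z (⟨s(u, v), h⟩ : R.edgeSet)
    have h5 : wcost (hc Z U M) [(i, e), (i', !e')] = hc Z U M i + hc Z U M i' := by
      simp [wcost]
    omega

/-- a walk which avoids the hubs -/
theorem wk_walkH [Finite V] (Z : Plz R) (U : Set V) (M : ℕ) {u v : V} (p : R.Walk u v)
    (hp : ∀ x ∈ p.support, x ∉ U) : ∃ l, Wk Z.src Z.tgt (Z.vn u) (Z.vn v) l ∧
      wcost (hc Z U M) l + deg R u + deg R v ≤ 2 * (p.support.map (deg R)).sum + 8 * p.length := by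
  induction p with
  | @nil u =>
    refine ⟨[], rfl, ?_⟩
    simp [wcost]
    omega
  | @cons u w v h p ih =>
    obtain ⟨l, hl, hc'⟩ := ih (fun x hx => hp x (by
      rw [SimpleGraph.Walk.support_cons]
      exact List.mem_cons_of_mem _ hx))
    have hu : u ∉ U := hp u (by simp)
    have hw' : w ∉ U := hp w (by simp)
    obtain ⟨l', hl', hc''⟩ := wk_stepH Z U M h hu
    rw [hw_non (fun h => hw' (vn_hub.1 h))] at hc''
    refine ⟨l' ++ l, wk_append hl' hl, ?_⟩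
    rw [wcost_append, SimpleGraph.Walk.support_cons, List.map_cons, List.sum_cons,
      SimpleGraph.Walk.length_cons]
    have h1 := wt_vn Z u
    have h2 := wt_vn Z w
    omega

/-- walks along the vertices `x 0, ..., x n` outside the hubs -/
theorem wk_funH [Finite V] (Z : Plz R) (U : Set V) (M : ℕ) (x : ℕ → V) (n : ℕ)
    (h : ∀ t < n, R.Adj (x t) (x (t + 1))) (hU : ∀ t ≤ n, x t ∉ U) :
    ∃ l, Wk Z.src Z.tgt (Z.vn (x 0)) (Z.vn (x n)) l ∧
      wcost (hc Z U M) l + wt Z (Z.vn (x n)) ≤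
        2 * (∑ k ∈ Finset.range (n + 1), wt Z (Z.vn (x k))) + 8 * n := by
  induction n with
  | zero =>
    refine ⟨[], rfl, ?_⟩
    simp [wcost]
    omega
  | succ n ih =>
    obtain ⟨l, hl, hc⟩ := ih (fun t ht => h t (by omega)) (fun t ht => hU t (by omega))
    obtain ⟨l', hl', hc'⟩ := wk_stepH Z U M (h n (by omega)) (hU n (by omega))
    rw [hw_non (fun h => hU (n + 1) le_rfl (vn_hub.1 h))] at hc'
    refine ⟨l ++ l', wk_append hl hl', ?_⟩
    rw [wcost_append, Finset.sum_range_succ]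
    omega

/-- the nodes of an old curve are near its start -/
theorem old_nearS [Finite V] {U : Set V} {S0 : Set T} {z : T → ℕ → V} {zl : T → ℕ}
    (Z : Plz R) (hO : OldSys R U S0 z zl) (M B : ℕ) (D : ℕ) (hD4 : 4 ≤ D)
    (hD : ∀ v, v ∉ U → deg R v ≤ D) (τ : T) (hτ : τ ∉ S0) (j : Z.J)
    (hj : j ∈ oldS Z z zl τ \ hub Z U) :
    xD Z.src Z.tgt (hc Z U M) B (Z.vn (z τ 0)) j ≤ 6 * D + 24 * zl τ + 12 := by
  have hpos := hO.pos τ hτ
  have hz0 : z τ 0 ∉ U := hO.hub τ hτ 0 hpos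
  -- weights on the path
  have hsum : ∀ m, m ≤ zl τ → z τ m ∉ U →
      ∑ k ∈ Finset.range (m + 1), wt Z (Z.vn (z τ k)) ≤ 2 * D + 4 * m := by
    intro m hm hmU
    have h2 : ∀ m, m < zl τ → ∑ k ∈ Finset.range (m + 1), wt Z (Z.vn (z τ k)) ≤ D + 4 * m := by
      intro m
      induction m with
      | zero =>
        intro _
        have := (wt_vn Z (z τ 0)).trans (hD _ hz0)
        simpa using this
      | succ m ih =>
        intro hm
        rw [Finset.sum_range_succ]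
        have h3 := ih (by omega)
        have h4 := (wt_vn Z (z τ (m + 1))).trans (hO.deg τ hτ (m + 1) (by omega) hm)
        omega
    rcases Nat.lt_or_ge m (zl τ) with h | h
    · have := h2 m h
      omega
    · obtain rfl : m = zl τ := le_antisymm hm h
      obtain ⟨n, hn⟩ : ∃ n, zl τ = n + 1 := ⟨zl τ - 1, by omega⟩
      rw [Finset.sum_range_succ]
      have h3 := h2 n (by omega)
      rw [← hn] at h3
      have h4 := (wt_vn Z (z τ (zl τ))).trans (hD _ hmU)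
      omega
  obtain ⟨hj1, hj2⟩ := hj
  rcases hj1 with ⟨s, hs, rfl⟩ | ⟨f, ⟨s, hs, hf⟩, rfl⟩
  · have hsU : z τ s ∉ U := fun h => hj2 (vn_hub.2 h)
    obtain ⟨l, hl, hc'⟩ := wk_funH Z U M (z τ) s (fun t ht => hO.adj τ hτ t (by omega)) (by
      intro t ht
      rcases Nat.lt_or_ge t (zl τ) with h | h
      · exact hO.hub τ hτ t h
      · obtain rfl : t = s := by omega
        exact hsU)
    have h1 := xD_le (hc Z U M) B hl
    have h2 := hsum s hs hsU
    omega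
  · have hsU : z τ s ∉ U := hO.hub τ hτ s hs
    obtain ⟨l, hl, hc'⟩ := wk_funH Z U M (z τ) s (fun t ht => hO.adj τ hτ t (by omega)) (by
      intro t ht
      exact hO.hub τ hτ t (by omega))
    obtain ⟨i, e, h1, h2, h3, -⟩ := half Z f (show z τ s ∈ (f : Sym2 V) by
      rw [hf]
      exact Sym2.mem_mk_left _ _)
    have e1 := hc_eq Z U M i e
    rw [h2, h3, hw_non (fun h => hsU (vn_hub.1 h)), hw_non (bn_hub _)] at e1
    have h4 : Wk Z.src Z.tgt (Z.vn (z τ s)) (Z.bn f) [(i, e)] := ⟨h2, h3⟩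
    have h5 := xD_le (hc Z U M) B (wk_append hl h4)
    rw [wcost_append] at h5
    have h6 : wcost (hc Z U M) [(i, e)] = hc Z U M i := by simp [wcost]
    have h7 := hsum s hs.le hsU
    have h8 := wt_bn Z f
    have h9 := (wt_vn Z (z τ s)).trans (hD _ hsU)
    omega

/-- bound for the weights outside the hubs -/
theorem wt_leH [Finite V] (Z : Plz R) (U : Set V) (D : ℕ) (hD : ∀ v, v ∉ U → deg R v ≤ D)
    (j : Z.J) (hj : j ∉ hub Z U) : wt Z j ≤ D + 4 := by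
  by_cases h : ({i | Z.src i = j ∨ Z.tgt i = j} : Set (R.edgeSet × Bool)).Nonempty
  · obtain ⟨i, hi⟩ := h
    have h1 : (∃ v, j = Z.vn v) ∨ ∃ f, j = Z.bn f := by
      rcases hi with hi | hi
      · rcases src_cases Z i with ⟨v, hv⟩ | ⟨f, hf⟩
        · exact Or.inl ⟨v, hi.symm.trans hv⟩
        · exact Or.inr ⟨f, hi.symm.trans hf⟩
      · rcases tgt_cases Z i with ⟨v, hv⟩ | ⟨f, hf⟩
        · exact Or.inl ⟨v, hi.symm.trans hv⟩
        · exact Or.inr ⟨f, hi.symm.trans hf⟩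
    rcases h1 with ⟨v, rfl⟩ | ⟨f, rfl⟩
    · exact (wt_vn Z v).trans ((hD v (fun h => hj (vn_hub.2 h))).trans (Nat.le_add_right _ _))
    · exact (wt_bn Z f).trans (Nat.le_add_left _ _)
  · rw [Set.not_nonempty_iff_eq_empty] at h
    rw [wt, h, Set.ncard_empty]
    exact Nat.zero_le _

end

/-! ## Geodesics and hubs -/

section geo

variable {V : Type} {R : SimpleGraph V} {Z : Plz R} {U : Set V} {M : ℕ}

theorem cost_split {J I : Type} {src tgt : I → J} (c : I → ℕ) (W : Rt J I src tgt) (A : Finset ℕ)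
    (hA : ∀ t ∈ A, t < W.len) : ∑ t ∈ A, c (W.ar t) ≤ W.cost c := by
  refine Finset.sum_le_sum_of_subset ?_
  intro t ht
  exact Finset.mem_range.2 (hA t ht)

/-- the arc before a hub is expensive -/
theorem hub_arc (W : Rt Z.J (R.edgeSet × Bool) Z.src Z.tgt) {t : ℕ} (ht : t + 1 ≤ W.len)
    (h : W.nd (t + 1) ∈ hub Z U) : M ≤ hc Z U M (W.ar t) := by
  rw [hc_eq Z U M (W.ar t) (!W.dir t)]
  rw [W.snd t ht, hw_hub h]
  exact Nat.le_add_right _ _

theorem hub_free (W : Rt Z.J (R.edgeSet × Bool) Z.src Z.tgt) (h0 : W.nd 0 ∉ hub Z U)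
    (hc' : W.cost (hc Z U M) < M) {t : ℕ} (ht : t ≤ W.len) : W.nd t ∉ hub Z U := by
  intro h
  rcases t with _ | t
  · exact h0 h
  · have h1 := hub_arc (M := M) W ht h
    have h2 := cost_split (hc Z U M) W {t} (by simpa using ht)
    rw [Finset.sum_singleton] at h2
    omega

theorem hub_end (W : Rt Z.J (R.edgeSet × Bool) Z.src Z.tgt) (h0 : W.nd 0 ∉ hub Z U)
    (h1 : W.nd W.len ∈ hub Z U) (hc' : W.cost (hc Z U M) < 2 * M) {t : ℕ} (ht : t ≤ W.len)
    (h : W.nd t ∈ hub Z U) : t = W.len := by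
  by_contra hne
  rcases t with _ | t
  · exact h0 h
  · obtain ⟨n, hn⟩ : ∃ n, W.len = n + 1 := ⟨W.len - 1, by omega⟩
    have g1 := hub_arc (M := M) W ht h
    have g2 := hub_arc (M := M) (t := n) W (by omega) (by rw [← hn]; exact h1)
    have h2 := cost_split (hc Z U M) W {t, n} (by
      intro x hx
      rw [Finset.mem_insert, Finset.mem_singleton] at hx
      omega)
    rw [Finset.sum_pair (by omega)] at h2
    omega

end geo

end Pool.Agent.Helper83.HR
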