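import Pool.Agent.Helper83.HR.Half

/-!
# The drawing with rings about the hubs

`H` has a planarised drawing with layout. Doors: points on the circle about the hub `a`, one for every edge `ya`.
Curves: the old edges, cut at the doors; the spokes from the hubs to the doors; the ring arcs between
consecutive doors.
-/

namespace Pool.Agent.Helper83.HR

open Set Pool.Agent.Helper83.OP Pool.Agent.Helper83.LN

theorem pol_ne (o : ℝ × ℝ) (t x : ℝ) (hx : 0 < x) : pol o (t, x) ≠ o := by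
  intro h
  unfold pol at h
  have h1 := congrArg Prod.fst h
  have h2 := congrArg Prod.snd h
  simp only at h1 h2
  have h3 : x * Real.cos t = 0 := by linarith
  have h4 : x * Real.sin t = 0 := by linarith
  have h5 := Real.sin_sq_add_cos_sq t
  rcases mul_eq_zero.1 h3 with h | h
  · exact hx.ne' h
  · rcases mul_eq_zero.1 h4 with h' | h'
    · exact hx.ne' h'
    · rw [h, h'] at h5
      norm_num at h5

section

variable {V : Type} (H : SimpleGraph V) (U : Set V)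

/-- a door: the neighbour `d.1.1` of the hub `d.1.2` -/
def Dor : Type := {d : V × V // H.Adj d.1 d.2 ∧ d.2 ∈ U}

variable {H U}

/-- the edge of a door -/
def Dor.f (d : Dor H U) : H.edgeSet := ⟨s(d.1.1, d.1.2), d.2.1⟩

variable (Z : Plz H)

/-- the end vertices of the edge `f` -/
def ev (f : H.edgeSet) (e : Bool) : V := bif e then Z.b f else Z.a f

theorem ev_adj (f : H.edgeSet) (e : Bool) : H.Adj (ev Z f (!e)) (ev Z f e) := by
  have h := Z.ends f
  have h2 : H.Adj (Z.a f) (Z.b f) := by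
    have h3 := f.2
    rw [h] at h3
    exact h3
  cases e
  · exact h2.symm
  · exact h2

theorem ev_sym (f : H.edgeSet) (e : Bool) : (f : Sym2 V) = s(ev Z f (!e), ev Z f e) := by
  cases e
  · rw [Z.ends f, Sym2.eq_swap]
    rfl
  · exact Z.ends f

theorem nend_ev (f : H.edgeSet) (e : Bool) :
    nend Z.src Z.tgt (f, e) e = Z.vn (ev Z f e) := by
  cases e <;> rfl

theorem nend_bn (f : H.edgeSet) (e : Bool) :
    nend Z.src Z.tgt (f, e) (!e) = Z.bn f := by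
  cases e <;> rfl

theorem nend_cases (f : H.edgeSet) (β e : Bool) :
    (e = β ∧ nend Z.src Z.tgt (f, β) e = Z.vn (ev Z f β)) ∨
      (e = !β ∧ nend Z.src Z.tgt (f, β) e = Z.bn f) := by
  by_cases h : e = β
  · subst h
    exact Or.inl ⟨rfl, nend_ev Z f e⟩
  · have h' : e = !β := by
      cases e <;> cases β <;> simp_all
    subst h'
    exact Or.inr ⟨rfl, nend_bn Z f β⟩

open Classical in
/-- the end of the edge of the door at the hub -/
noncomputable def Dor.β (d : Dor H U) : Bool := if Z.a d.f = d.1.2 then false else true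

theorem Dor.ev_β (d : Dor H U) : ev Z d.f (d.β Z) = d.1.2 := by
  unfold Dor.β
  split_ifs with h
  · exact h
  · have h1 := Z.ends d.f
    have h2 : (d.f : Sym2 V) = s(d.1.1, d.1.2) := rfl
    rw [h2, Sym2.eq_iff] at h1
    rcases h1 with h1 | h1
    · exact h1.2.symm
    · exact absurd h1.2.symm h

theorem Dor.ev_nβ (d : Dor H U) : ev Z d.f (!d.β Z) = d.1.1 := by
  have h1 := ev_sym Z d.f (d.β Z)
  have h2 : (d.f : Sym2 V) = s(d.1.1, d.1.2) := rfl
  rw [h2, Dor.ev_β, Sym2.eq_iff] at h1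
  rcases h1 with h1 | h1
  · exact h1.1.symm
  · exact absurd (h1.1.trans (h1.2.symm ▸ rfl)) (H.ne_of_adj d.2.1)

theorem Dor.nend (d : Dor H U) :
    LN.nend Z.src Z.tgt (d.f, d.β Z) (d.β Z) = Z.vn d.1.2 := by
  rw [nend_ev, Dor.ev_β]

/-- the door of the edge `f` at its end `e` -/
def dorOf (f : H.edgeSet) (e : Bool) (h : ev Z f e ∈ U) : Dor H U :=
  ⟨(ev Z f (!e), ev Z f e), ev_adj Z f e, h⟩

theorem dorOf_f (f : H.edgeSet) (e : Bool) (h : ev Z f e ∈ U) : (dorOf Z f e h).f = f :=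
  Subtype.ext (ev_sym Z f e).symm

theorem dorOf_β (f : H.edgeSet) (e : Bool) (h : ev Z f e ∈ U) : (dorOf Z f e h).β Z = e := by
  have h1 := Dor.ev_β Z (dorOf Z f e h)
  rw [dorOf_f] at h1
  by_contra h2
  have h3 : (dorOf Z f e h).β Z = !e := by
    revert h2
    cases (dorOf Z f e h).β Z <;> cases e <;> simp
  rw [h3] at h1
  exact H.ne_of_adj (ev_adj Z f e) h1

variable {L : Layout Z.J (H.edgeSet × Bool) Z.src Z.tgt} (S : Lns L)

/-- the angle of a door -/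
noncomputable def th (d : Dor H U) : ℝ := (pz S (d.f, d.β Z) (d.β Z)).1

theorem th_pd (d : Dor H U) {x : ℝ} (hx : 0 < x) : (th Z S d, x) ∈ PD := by
  have h := pz_mem S (d.f, d.β Z) (d.β Z)
  exact ⟨h.1, h.2.1, hx⟩

theorem th_inj {d d' : Dor H U} (h : d.1.2 = d'.1.2) (ht : th Z S d = th Z S d') : d = d' := by
  have h1 : LN.nend Z.src Z.tgt (d.f, d.β Z) (d.β Z) =
      LN.nend Z.src Z.tgt (d'.f, d'.β Z) (d'.β Z) := by
    rw [Dor.nend, Dor.nend, h]
  obtain ⟨h2, -⟩ := pz_inj S h1 ht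
  have h3 : (d.f : Sym2 V) = d'.f := congrArg Subtype.val (Prod.mk.inj h2).1
  have h4 : s(d.1.1, d.1.2) = s(d'.1.1, d'.1.2) := h3
  rw [h, Sym2.congr_left] at h4
  exact Subtype.ext (Prod.ext h4 h)

/-- the hub nodes -/
def hbs (U : Set V) : Set Z.J := Z.vn '' U

/-- the doors at the hub `a` -/
theorem th_of {f : H.edgeSet} {β e : Bool} {v : V} (hv : v ∈ U)
    (h : LN.nend Z.src Z.tgt (f, β) e = Z.vn v) :
    ∃ d : Dor H U, d.1.2 = v ∧ d.f = f ∧ d.β Z = β ∧ th Z S d = (pz S (f, β) e).1 := by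
  rcases nend_cases Z f β e with ⟨h1, h2⟩ | ⟨h1, h2⟩
  · subst h1
    have h3 : ev Z f e = v := Z.vn_inj (h2.symm.trans h)
    have h4 : ev Z f e ∈ U := by rw [h3]; exact hv
    refine ⟨dorOf Z f e h4, h3, dorOf_f Z f e h4, dorOf_β Z f e h4, ?_⟩
    unfold th
    rw [dorOf_f, dorOf_β]
  · exact absurd (h.symm.trans h2) (Z.vn_ne _ _)

/-- the positions -/
noncomputable def PT : V ⊕ Dor H U → ℝ × ℝ
  | Sum.inl v => cj L (Z.vn v)
  | Sum.inr d => pol (cj L (Z.vn d.1.2)) (th Z S d, 1 / 4)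

theorem PT_door (d : Dor H U) : PT Z S (Sum.inr d) ∈ Ore L (Z.vn d.1.2) :=
  pol_mem_ore _ _ _ (by norm_num) le_rfl

theorem PT_vert (v : V) : PT (U := U) Z S (Sum.inl v) ∈ Ore L (Z.vn v) := cj_mem _

/-- the old edges, cut at the doors -/
noncomputable def EO (U : Set V) (f : H.edgeSet) : Set (ℝ × ℝ) :=
  hf S (hbs Z U) (f, false) ∪ hf S (hbs Z U) (f, true)

/-- the spokes -/
noncomputable def ES (d : Dor H U) : Set (ℝ × ℝ) :=
  segment ℝ (cj L (Z.vn d.1.2)) (PT Z S (Sum.inr d))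

/-- the ring arcs -/
noncomputable def ER (d d' : Dor H U) : Set (ℝ × ℝ) :=
  pol (cj L (Z.vn d.1.2)) '' segment ℝ ((th Z S d, 1 / 4) : ℝ × ℝ) (th Z S d', 1 / 4)

theorem bn_hbs (f : H.edgeSet) : Z.bn f ∉ hbs Z U := by
  rintro ⟨v, -, h⟩
  exact Z.vn_ne v f h

theorem vn_hbs {v : V} : Z.vn v ∈ hbs Z U ↔ v ∈ U := by
  constructor
  · rintro ⟨w, hw, h⟩
    rw [← Z.vn_inj h]
    exact hw
  · intro h
    exact ⟨v, h, rfl⟩

/-- points of an old edge in the block of a hub -/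
theorem EO_hub {f : H.edgeSet} {z : ℝ × ℝ} (hz : z ∈ EO Z S U f) {v : V} (hv : v ∈ U)
    (ho : z ∈ Ore L (Z.vn v)) : ∃ d : Dor H U, d.1.2 = v ∧ d.f = f ∧
      ∃ x, 1 / 4 ≤ x ∧ z = pol (cj L (Z.vn v)) (th Z S d, x) := by
  have key : ∀ β, z ∈ hf S (hbs Z U) (f, β) → ∃ d : Dor H U, d.1.2 = v ∧ d.f = f ∧
      ∃ x, 1 / 4 ≤ x ∧ z = pol (cj L (Z.vn v)) (th Z S d, x) := by
    intro β h
    obtain ⟨e, h1, h2⟩ := hf_ore S (hbs Z U) h ho
    obtain ⟨d, h3, h4, -, h6⟩ := th_of Z S hv h1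
    obtain ⟨x, h7, h8⟩ := sp_seg_hub S (hbs Z U) (by rw [h1]; exact (vn_hbs Z).2 hv) h2
    rw [h1] at h8
    exact ⟨d, h3, h4, x, h7, by rw [h6]; exact h8⟩
  rcases hz with h | h
  · exact key _ h
  · exact key _ h

/-- points of an old edge in the block of another vertex -/
theorem EO_vert {f : H.edgeSet} {z : ℝ × ℝ} (hz : z ∈ EO Z S U f) {v : V}
    (ho : z ∈ Ore L (Z.vn v)) : ∃ e, ev Z f e = v := by
  have key : ∀ β, z ∈ hf S (hbs Z U) (f, β) → ∃ e, ev Z f e = v := by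
    intro β h
    obtain ⟨e, h1, -⟩ := hf_ore S (hbs Z U) h ho
    rcases nend_cases Z f β e with ⟨h2, h3⟩ | ⟨h2, h3⟩
    · exact ⟨β, Z.vn_inj (h3.symm.trans h1)⟩
    · exact absurd (h1.symm.trans h3) (Z.vn_ne _ _)
  rcases hz with h | h
  · exact key _ h
  · exact key _ h

theorem ES_pt {d : Dor H U} {z : ℝ × ℝ} (hz : z ∈ ES Z S d) : z = cj L (Z.vn d.1.2) ∨
    ∃ x, 0 < x ∧ x ≤ 1 / 4 ∧ z = pol (cj L (Z.vn d.1.2)) (th Z S d, x) := by
  unfold ES PT at hz
  rw [show cj L (Z.vn d.1.2) = pol (cj L (Z.vn d.1.2)) (th Z S d, 0) from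
    (pol_zero _ _).symm] at hz
  rw [pol_zero (cj L (Z.vn d.1.2))] at hz
  have hz' : z ∈ segment ℝ (pol (cj L (Z.vn d.1.2)) (th Z S d, 0))
      (pol (cj L (Z.vn d.1.2)) (th Z S d, 1 / 4)) := by
    rw [pol_zero]
    exact hz
  obtain ⟨x, h1, h2, h3⟩ := seg_pol _ _ _ _ (by norm_num) hz'
  rcases h1.eq_or_lt with h | h
  · left
    rw [h3, ← h, pol_zero]
  · exact Or.inr ⟨x, h, h2, h3⟩

theorem ES_ore {d : Dor H U} {z : ℝ × ℝ} (hz : z ∈ ES Z S d) : z ∈ Ore L (Z.vn d.1.2) := by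
  rcases ES_pt Z S hz with h | ⟨x, h1, h2, h3⟩
  · rw [h]
    exact cj_mem _
  · rw [h3]
    exact pol_mem_ore _ _ _ h1 h2

theorem ER_pt {d d' : Dor H U} (h : th Z S d ≤ th Z S d') {z : ℝ × ℝ} (hz : z ∈ ER Z S d d') :
    ∃ t, th Z S d ≤ t ∧ t ≤ th Z S d' ∧ z = pol (cj L (Z.vn d.1.2)) (t, 1 / 4) ∧
      (t, (1 : ℝ) / 4) ∈ PD := by
  obtain ⟨w, hw, rfl⟩ := hz
  rw [segment_eq_image'] at hw
  obtain ⟨s, ⟨h0, h1⟩, rfl⟩ := hw
  have e1 : ((th Z S d, 1 / 4) : ℝ × ℝ) + s • (((th Z S d', 1 / 4) : ℝ × ℝ) - (th Z S d, 1 / 4)) =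
      (th Z S d + s * (th Z S d' - th Z S d), 1 / 4) := by
    refine Prod.ext ?_ ?_
    · simp
    · simp
  simp only
  rw [e1]
  have m1 := th_pd Z S d (x := 1) one_pos
  have m2 := th_pd Z S d' (x := 1) one_pos
  refine ⟨_, by nlinarith, by nlinarith, rfl, ?_, ?_, by norm_num⟩
  · have := m1.1
    simp only at this ⊢
    nlinarith
  · have := m2.2.1
    simp only at this ⊢
    nlinarith

theorem ER_ore {d d' : Dor H U} (h : th Z S d ≤ th Z S d') {z : ℝ × ℝ} (hz : z ∈ ER Z S d d') :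
    z ∈ Ore L (Z.vn d.1.2) := by
  obtain ⟨t, -, -, h1, -⟩ := ER_pt Z S h hz
  rw [h1]
  exact pol_mem_ore _ _ _ (by norm_num) le_rfl

/-! ## Arcs -/

open Classical in
/-- the vertex at the end `e` of the old edge -/
noncomputable def xe (f : H.edgeSet) (e : Bool) : V ⊕ Dor H U :=
  if h : ev Z f e ∈ U then Sum.inr (dorOf Z f e h) else Sum.inl (ev Z f e)

theorem PT_xe (f : H.edgeSet) (e : Bool) :
    PT Z S (xe (U := U) Z f e) = sp S (hbs Z U) (f, e) e := by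
  unfold xe
  split_ifs with h
  · rw [sp_hub S (hbs Z U) (by rw [nend_ev]; exact (vn_hbs Z).2 h), nend_ev]
    unfold PT th
    simp only
    rw [dorOf_f, dorOf_β]
    rfl
  · rw [sp_non S (hbs Z U) (by rw [nend_ev]; exact fun h' => h ((vn_hbs Z).1 h')), nend_ev]
    rfl

theorem EO_arc (f : H.edgeSet) :
    IsArc (EO Z S U f) (PT Z S (xe (U := U) Z f false)) (PT Z S (xe (U := U) Z f true)) := by
  rw [PT_xe, PT_xe]
  have h1 : sp S (hbs Z U) (f, false) true = cj L (Z.bn f) := by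
    rw [sp_non S (hbs Z U) (by rw [show LN.nend Z.src Z.tgt (f, false) true = Z.bn f from rfl]
                               exact bn_hbs Z f)]
    rfl
  have h2 : sp S (hbs Z U) (f, true) false = cj L (Z.bn f) := by
    rw [sp_non S (hbs Z U) (by rw [show LN.nend Z.src Z.tgt (f, true) false = Z.bn f from rfl]
                               exact bn_hbs Z f)]
    rfl
  have a1 := hf_arc S (hbs Z U) (i := (f, false)) (Z.vn_ne _ _)
  have a2 := hf_arc S (hbs Z U) (i := (f, true)) (Z.vn_ne _ _).symm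
  rw [h1] at a1
  rw [h2] at a2
  refine IsArc.union a1 a2 ?_
  intro p hp hp'
  obtain ⟨e, e', h3, h4, h5⟩ := hf_common S (hbs Z U) (by simp) hp hp'
  rw [h5]
  have hab : Z.a f ≠ Z.b f := (H.ne_of_adj (ev_adj Z f true))
  rcases nend_cases Z f false e with ⟨-, g1⟩ | ⟨-, g1⟩
  · rcases nend_cases Z f true e' with ⟨-, g2⟩ | ⟨-, g2⟩
    · rw [g1, g2] at h3
      exact absurd (Z.vn_inj h3) hab
    · rw [g1, g2] at h3
      exact absurd h3 (Z.vn_ne _ _)
  · rw [g1]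

theorem ES_arc (d : Dor H U) :
    IsArc (ES Z S d) (PT (U := U) Z S (Sum.inl d.1.2)) (PT Z S (Sum.inr d)) :=
  isArc_segment (pol_ne _ _ _ (by norm_num)).symm

theorem ER_arc {d d' : Dor H U} (h2 : d.1.2 = d'.1.2) (h : th Z S d < th Z S d') :
    IsArc (ER Z S d d') (PT Z S (Sum.inr d)) (PT Z S (Sum.inr d')) := by
  have h3 : ((th Z S d, 1 / 4) : ℝ × ℝ) ≠ (th Z S d', 1 / 4) := fun h4 =>
    h.ne (Prod.mk.inj h4).1
  have h4 := isArc_pol (cj L (Z.vn d.1.2)) (isArc_segment h3) (by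
    intro w hw
    rw [segment_eq_image'] at hw
    obtain ⟨s, ⟨h0, h1⟩, rfl⟩ := hw
    have m1 := th_pd Z S d (x := 1) one_pos
    have m2 := th_pd Z S d' (x := 1) one_pos
    have m3 := m1.1
    have m4 := m2.2.1
    simp only at m3 m4
    refine ⟨?_, ?_, ?_⟩
    · simp only [Prod.fst_add, Prod.smul_fst, Prod.fst_sub, smul_eq_mul]
      nlinarith
    · simp only [Prod.fst_add, Prod.smul_fst, Prod.fst_sub, smul_eq_mul]
      nlinarith
    · simp)
  have h5 : PT Z S (Sum.inr d') = pol (cj L (Z.vn d.1.2)) (th Z S d', 1 / 4) := by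
    rw [h2]
    rfl
  rw [h5]
  exact h4

/-! ## Common points -/

variable (ord : V → V → ℕ)

/-- the doors `d`, `d'` are consecutive -/
def Cons (d d' : Dor H U) : Prop :=
  d.1.2 = d'.1.2 ∧ ord d.1.2 d.1.1 + 1 = ord d.1.2 d'.1.1

/-- the numbering of the doors follows the angles -/
structure GoodOrd : Prop where
  lt : ∀ d d' : Dor H U, d.1.2 = d'.1.2 → (ord d.1.2 d.1.1 < ord d.1.2 d'.1.1 ↔ th Z S d < th Z S d')

variable {ord}

theorem GoodOrd.cons_lt (hO : GoodOrd (U := U) Z S ord) {d d' : Dor H U} (h : Cons ord d d') :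
    th Z S d < th Z S d' := by
  refine (hO.lt d d' h.1).1 ?_
  have := h.2
  omega

theorem GoodOrd.mid (hO : GoodOrd (U := U) Z S ord) {d d' d'' : Dor H U} (h : Cons ord d d')
    (h' : d''.1.2 = d.1.2) (h1 : th Z S d ≤ th Z S d'') (h2 : th Z S d'' ≤ th Z S d') :
    d'' = d ∨ d'' = d' := by
  by_contra hcon
  rw [not_or] at hcon
  have g1 : th Z S d < th Z S d'' := lt_of_le_of_ne h1 fun h3 => hcon.1 (th_inj Z S h' h3.symm)
  have g2 : th Z S d'' < th Z S d' := lt_of_le_of_ne h2 fun h3 =>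
    hcon.2 (th_inj Z S (h'.trans h.1) h3)
  have g3 := (hO.lt d d'' h'.symm).2 g1
  have g4 := (hO.lt d'' d' (h'.trans h.1)).2 g2
  rw [h'] at g4
  have := h.2
  omega

theorem GoodOrd.eq (hO : GoodOrd (U := U) Z S ord) {d d' : Dor H U} (h' : d.1.2 = d'.1.2)
    (h : ord d.1.2 d.1.1 = ord d.1.2 d'.1.1) : d = d' := by
  have g1 : ¬ th Z S d < th Z S d' := fun h1 => by
    have := (hO.lt d d' h').2 h1
    omega
  have g2 : ¬ th Z S d' < th Z S d := fun h1 => by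
    have := (hO.lt d' d h'.symm).2 h1
    rw [← h'] at this
    omega
  exact th_inj Z S h' (le_antisymm (not_lt.1 g2) (not_lt.1 g1))

theorem hub_eq {v w : V} {z : ℝ × ℝ} (h : z ∈ Ore L (Z.vn v)) (h' : z ∈ Ore L (Z.vn w)) : v = w :=
  Z.vn_inj (cre_ore (ore_sub_cre h) h')

/-- common points of two old edges -/
theorem EO_EO {f f' : H.edgeSet} (hne : f ≠ f') {z : ℝ × ℝ} (hz : z ∈ EO Z S U f)
    (hz' : z ∈ EO Z S U f') : (∃ u : V ⊕ Dor H U, z = PT Z S u) ∨
      (Z.bn f = Z.bn f' ∧ z = cj L (Z.bn f)) := by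
  have key : ∀ β β', z ∈ hf S (hbs Z U) (f, β) → z ∈ hf S (hbs Z U) (f', β') →
      (∃ u : V ⊕ Dor H U, z = PT Z S u) ∨ (Z.bn f = Z.bn f' ∧ z = cj L (Z.bn f)) := by
    intro β β' h h'
    obtain ⟨e, e', h3, h4, h5⟩ := hf_common S (hbs Z U)
      (fun h6 => hne (Prod.mk.inj h6).1) h h'
    rcases nend_cases Z f β e with ⟨-, g1⟩ | ⟨-, g1⟩
    · left
      rw [g1] at h5
      exact ⟨Sum.inl (ev Z f β), h5⟩
    · right
      rw [g1] at h3 h5
      rcases nend_cases Z f' β' e' with ⟨-, g2⟩ | ⟨-, g2⟩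
      · rw [g2] at h3
        exact absurd h3.symm (Z.vn_ne _ _)
      · rw [g2] at h3
        exact ⟨h3, h5⟩
  rcases hz with h | h <;> rcases hz' with h' | h'
  · exact key _ _ h h'
  · exact key _ _ h h'
  · exact key _ _ h h'
  · exact key _ _ h h'

theorem EO_ES {f : H.edgeSet} {d : Dor H U} {z : ℝ × ℝ} (hz : z ∈ EO Z S U f)
    (hz' : z ∈ ES Z S d) : z = PT Z S (Sum.inr d) := by
  obtain ⟨d1, h1, h2, x, h3, h4⟩ := EO_hub Z S hz d.2.2 (ES_ore Z S hz')
  rcases ES_pt Z S hz' with h5 | ⟨x', h5, h6, h7⟩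
  · exfalso
    rw [h4] at h5
    exact pol_ne _ _ _ (lt_of_lt_of_le (by norm_num) h3) h5
  · have h8 := pol_inj (cj L (Z.vn d.1.2)) (th_pd Z S d1 (lt_of_lt_of_le (by norm_num) h3))
      (th_pd Z S d h5) (h4.symm.trans h7)
    obtain ⟨h9, h10⟩ := Prod.mk.inj h8
    have h11 : x' = 1 / 4 := le_antisymm h6 (h10 ▸ h3)
    rw [h7, h11]
    rfl

theorem EO_ER {f : H.edgeSet} (hO : GoodOrd (U := U) Z S ord) {d d' : Dor H U}
    (hc : Cons ord d d') {z : ℝ × ℝ} (hz : z ∈ EO Z S U f)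
    (hz' : z ∈ ER Z S d d') : ∃ u : V ⊕ Dor H U, z = PT Z S u := by
  have hlt := hO.cons_lt Z S hc
  obtain ⟨t, t1, t2, t3, t4⟩ := ER_pt Z S hlt.le hz'
  obtain ⟨d1, h1, h2, x, h3, h4⟩ := EO_hub Z S hz d.2.2 (ER_ore Z S hlt.le hz')
  have h8 := pol_inj (cj L (Z.vn d.1.2)) (th_pd Z S d1 (lt_of_lt_of_le (by norm_num) h3))
    t4 (h4.symm.trans t3)
  obtain ⟨h9, h10⟩ := Prod.mk.inj h8
  refine ⟨Sum.inr d1, ?_⟩
  rw [h4, h10]
  change _ = pol (cj L (Z.vn d1.1.2)) (th Z S d1, 1 / 4)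
  rw [h1]

theorem ES_ES {d d' : Dor H U} (hne : d ≠ d') {z : ℝ × ℝ} (hz : z ∈ ES Z S d)
    (hz' : z ∈ ES Z S d') : z = PT (U := U) Z S (Sum.inl d.1.2) := by
  have h := hub_eq Z (ES_ore Z S hz) (ES_ore Z S hz')
  rcases ES_pt Z S hz with h1 | ⟨x, h1, h2, h3⟩
  · exact h1
  · rcases ES_pt Z S hz' with h4 | ⟨x', h4, h5, h6⟩
    · rw [h4, ← h]
      rfl
    · exfalso
      rw [← h] at h6
      have h8 := pol_inj (cj L (Z.vn d.1.2)) (th_pd Z S d h1) (th_pd Z S d' h4) (h3.symm.trans h6)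
      exact hne (th_inj Z S h (Prod.mk.inj h8).1)

theorem ES_ER (hO : GoodOrd (U := U) Z S ord) {d1 d d' : Dor H U}
    (hc : Cons ord d d') {z : ℝ × ℝ} (hz : z ∈ ES Z S d1)
    (hz' : z ∈ ER Z S d d') : ∃ u : V ⊕ Dor H U, z = PT Z S u := by
  have hlt := hO.cons_lt Z S hc
  obtain ⟨t, t1, t2, t3, t4⟩ := ER_pt Z S hlt.le hz'
  have h := hub_eq Z (ES_ore Z S hz) (ER_ore Z S hlt.le hz')
  rcases ES_pt Z S hz with h1 | ⟨x, h1, h2, h3⟩
  · exact ⟨Sum.inl d1.1.2, h1⟩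
  · rw [h] at h3
    have h8 := pol_inj (cj L (Z.vn d.1.2)) (th_pd Z S d1 h1) t4 (h3.symm.trans t3)
    obtain ⟨h9, h10⟩ := Prod.mk.inj h8
    refine ⟨Sum.inr d1, ?_⟩
    rw [h3, h10]
    change _ = pol (cj L (Z.vn d1.1.2)) (th Z S d1, 1 / 4)
    rw [h]

theorem ER_ER (hO : GoodOrd (U := U) Z S ord) {d d' e e' : Dor H U}
    (hc : Cons ord d d') (hc' : Cons ord e e') (hne : ¬ (d = e ∧ d' = e')) {z : ℝ × ℝ}
    (hz : z ∈ ER Z S d d') (hz' : z ∈ ER Z S e e') : ∃ u : V ⊕ Dor H U, z = PT Z S u := by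
  have hlt := hO.cons_lt Z S hc
  have hlt' := hO.cons_lt Z S hc'
  obtain ⟨t, t1, t2, t3, t4⟩ := ER_pt Z S hlt.le hz
  obtain ⟨s, s1, s2, s3, s4⟩ := ER_pt Z S hlt'.le hz'
  have h := hub_eq Z (ER_ore Z S hlt.le hz) (ER_ore Z S hlt'.le hz')
  rw [← h] at s3
  have h8 := pol_inj (cj L (Z.vn d.1.2)) t4 s4 (t3.symm.trans s3)
  obtain ⟨h9, -⟩ := Prod.mk.inj h8
  subst h9
  -- `d ≠ e`
  have hde : d ≠ e := by
    rintro rfl
    refine hne ⟨rfl, ?_⟩
    refine hO.eq Z S (hc.1.symm.trans hc'.1) ?_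
    have g1 := hc.2
    have g2 := hc'.2
    rw [← hc.1]
    omega
  rcases lt_trichotomy (th Z S d) (th Z S e) with g | g | g
  · -- `th d' ≤ th e`
    have g2 : th Z S d' ≤ th Z S e := by
      by_contra hcon
      rcases hO.mid Z S hc h.symm g.le (not_le.1 hcon).le with h10 | h10
      · exact hde h10.symm
      · rw [h10] at hcon
        exact hcon le_rfl
    have g3 : t = th Z S d' := le_antisymm t2 (g2.trans s1)
    refine ⟨Sum.inr d', ?_⟩
    rw [t3, g3, hc.1]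
    rfl
  · exact absurd (th_inj Z S h g) hde
  · have g2 : th Z S e' ≤ th Z S d := by
      by_contra hcon
      rcases hO.mid Z S hc' h g.le (not_le.1 hcon).le with h10 | h10
      · exact hde h10
      · rw [← h10] at hcon
        exact hcon le_rfl
    have g3 : t = th Z S e' := le_antisymm s2 (g2.trans t1)
    refine ⟨Sum.inr e', ?_⟩
    rw [t3, g3, h, hc'.1]
    rfl

theorem PT_inj : Function.Injective (PT (U := U) Z S) := by
  rintro (v | d) (w | d') h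
  · exact congrArg Sum.inl (Z.vn_inj (cj_inj h))
  · exfalso
    have h1 := PT_vert (U := U) Z S v
    have h2 := PT_door Z S d'
    rw [h] at h1
    have h3 := hub_eq Z h1 h2
    subst h3
    exact pol_ne _ _ _ (by norm_num) h.symm
  · exfalso
    have h1 := PT_vert (U := U) Z S w
    have h2 := PT_door Z S d
    rw [← h] at h1
    have h3 := hub_eq Z h1 h2
    subst h3
    exact pol_ne _ _ _ (by norm_num) h
  · have h1 := PT_door Z S d
    have h2 := PT_door Z S d'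
    rw [← h] at h2
    have h3 := hub_eq Z h1 h2
    have h4 : pol (cj L (Z.vn d.1.2)) (th Z S d, 1 / 4) =
        pol (cj L (Z.vn d.1.2)) (th Z S d', 1 / 4) := by
      refine h.trans ?_
      rw [h3]
      rfl
    have h5 := pol_inj _ (th_pd Z S d (by norm_num)) (th_pd Z S d' (by norm_num)) h4
    exact congrArg Sum.inr (th_inj Z S h3 (Prod.mk.inj h5).1)

/-! ## Terminals on the curves -/

theorem EO_avoid {f : H.edgeSet} {u : V ⊕ Dor H U} (hz : PT Z S u ∈ EO Z S U f) :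
    ∃ e, u = xe Z f e := by
  rcases u with v | d
  · by_cases hv : v ∈ U
    · exfalso
      obtain ⟨d, -, -, x, h3, h4⟩ := EO_hub Z S hz hv (PT_vert Z S v)
      exact pol_ne _ _ _ (lt_of_lt_of_le (by norm_num) h3) h4.symm
    · obtain ⟨e, he⟩ := EO_vert Z S hz (PT_vert Z S v)
      refine ⟨e, ?_⟩
      unfold xe
      rw [dif_neg (by rw [he]; exact hv), he]
  · obtain ⟨d1, h1, h2, x, h3, h4⟩ := EO_hub Z S hz d.2.2 (PT_door Z S d)
    have h5 := pol_inj _ (th_pd Z S d (by norm_num))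
      (th_pd Z S d1 (lt_of_lt_of_le (by norm_num) h3)) h4
    have h6 := th_inj Z S h1.symm (Prod.mk.inj h5).1
    subst h6
    refine ⟨d.β Z, ?_⟩
    unfold xe
    have h7 : ev Z f (d.β Z) = d.1.2 := by
      rw [← h2]
      exact d.ev_β Z
    have h8 : ev Z f (!d.β Z) = d.1.1 := by
      rw [← h2]
      exact d.ev_nβ Z
    rw [dif_pos (by rw [h7]; exact d.2.2)]
    refine congrArg Sum.inr (Subtype.ext (Prod.ext ?_ ?_))
    · exact h8.symm
    · exact h7.symm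

theorem ES_avoid {d : Dor H U} {u : V ⊕ Dor H U} (hz : PT Z S u ∈ ES Z S d) :
    u = Sum.inl d.1.2 ∨ u = Sum.inr d := by
  rcases u with v | d1
  · left
    exact congrArg Sum.inl (hub_eq Z (PT_vert (U := U) Z S v) (ES_ore Z S hz))
  · right
    have h := hub_eq Z (PT_door Z S d1) (ES_ore Z S hz)
    rcases ES_pt Z S hz with h1 | ⟨x, h1, h2, h3⟩
    · exfalso
      rw [← h] at h1
      exact pol_ne _ _ _ (by norm_num) h1
    · rw [← h] at h3
      have h5 := pol_inj _ (th_pd Z S d1 (by norm_num)) (th_pd Z S d h1) h3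
      exact congrArg Sum.inr (th_inj Z S h (Prod.mk.inj h5).1)

theorem ER_avoid (hO : GoodOrd (U := U) Z S ord) {d d' : Dor H U}
    (hc : Cons ord d d') {u : V ⊕ Dor H U} (hz : PT Z S u ∈ ER Z S d d') :
    u = Sum.inr d ∨ u = Sum.inr d' := by
  have hlt := hO.cons_lt Z S hc
  obtain ⟨t, t1, t2, t3, t4⟩ := ER_pt Z S hlt.le hz
  rcases u with v | d1
  · exfalso
    have h := hub_eq Z (PT_vert (U := U) Z S v) (ER_ore Z S hlt.le hz)
    subst h
    exact pol_ne _ _ _ (by norm_num) t3.symm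
  · have h := hub_eq Z (PT_door Z S d1) (ER_ore Z S hlt.le hz)
    rw [← h] at t3
    have h5 := pol_inj _ (th_pd Z S d1 (by norm_num)) t4 t3
    have h6 := (Prod.mk.inj h5).1
    rcases hO.mid Z S hc h (h6 ▸ t1) (h6 ▸ t2) with h7 | h7
    · exact Or.inl (congrArg Sum.inr h7)
    · exact Or.inr (congrArg Sum.inr h7)

end

end Pool.Agent.Helper83.HR
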